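import Pool.Agent.HLA.ACD0
import Pool.Agent.HLA.ACD1

/-! Antisymmetry of the table `g`: the two checks. -/
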