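import Pool.Agent.HLA.ACF

/-! Kernel check of the antisymmetry of the table `g` (piece 0). -/

set_option autoImplicit false
set_option maxRecDepth 100000

namespace Pool.Agent.HLA

theorem go4_0_0 : tabs0.go4F wt4l 0 0 0 0 = true := by decide +kernel

theorem go4_0_1 : tabs0.go4F wt4l 2048 1024 8192 32 = true := by decide +kernel

theorem go4_0_2 : tabs0.go4F wt4l 4096 8192 1024 128 = true := by decide +kernel

theorem go4_0_3 : tabs0.go4F wt4l 6144 9216 9216 160 = true := by decide +kernel

theorem go4_0_4 : tabs0.go4F wt4l 8192 4096 2048 256 = true := by decide +kernel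

theorem go4_0_5 : tabs0.go4F wt4l 10240 5120 10240 288 = true := by decide +kernel

theorem go4_0_6 : tabs0.go4F wt4l 12288 12288 3072 384 = true := by decide +kernel

theorem go4_0_7 : tabs0.go4F wt4l 14336 13312 11264 416 = true := by decide +kernel

theorem go4_0_8 : tabs0.go4F wt4l 16384 16384 16384 8 = true := by decide +kernel

theorem go4_0_9 : tabs0.go4F wt4l 18432 17408 24576 40 = true := by decide +kernel

theorem go4_0_10 : tabs0.go4F wt4l 20480 24576 17408 136 = true := by decide +kernel

theorem go4_0_11 : tabs0.go4F wt4l 22528 25600 25600 168 = true := by decide +kernel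

theorem go4_0_12 : tabs0.go4F wt4l 24576 20480 18432 264 = true := by decide +kernel

theorem go4_0_13 : tabs0.go4F wt4l 26624 21504 26624 296 = true := by decide +kernel

theorem go4_0_14 : tabs0.go4F wt4l 28672 28672 19456 392 = true := by decide +kernel

theorem go4_0_15 : tabs0.go4F wt4l 30720 29696 27648 424 = true := by decide +kernel

theorem go4_0 : tabs0.go4 wt4 0 0 0 0 = true :=
  go4_split go4_0_0 go4_0_1 go4_0_2 go4_0_3 go4_0_4 go4_0_5 go4_0_6 go4_0_7
    go4_0_8 go4_0_9 go4_0_10 go4_0_11 go4_0_12 go4_0_13 go4_0_14 go4_0_15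

end Pool.Agent.HLA
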