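import Pool.Agent.HLA.ROT

/-! A function of the pattern which is antisymmetric under the exchange of `x` and `x'` has
vanishing line sums. -/

set_option autoImplicit false

namespace Pool.Agent.HLA

open Finset Pool.Agent.ChPi

variable {α : Type} [Fintype α] [DecidableEq α] [Nonempty α]

/-- the positions after the exchange of `x` and `x'` -/
def sx : Fin 15 → Fin 15 := ![5, 6, 2, 3, 4, 0, 1, 8, 7, 9, 11, 10, 13, 12, 14]

/-- the positions after the exchange of `y` and `y'` -/
def sy : Fin 15 → Fin 15 := ![7, 1, 9, 3, 4, 8, 6, 0, 5, 2, 12, 13, 10, 11, 14]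

/-- the positions after the exchange of `z` and `z'` -/
def sz : Fin 15 → Fin 15 := ![10, 1, 2, 14, 4, 11, 6, 12, 13, 9, 0, 5, 7, 8, 3]

/-- exchange of a point `a` (whose label is coordinate `k`) with the point of coordinate `i` -/
def swp (i k : Fin 7) (a : α) (ω : Fin 7 → α × Bool) : Fin 7 → α × Bool := fun j =>
  if j = i then (a, (ω k).2) else if j = k then ((ω k).1, (ω i).2) else ω j

omit [Fintype α] [DecidableEq α] [Nonempty α] in
theorem swp_swp (i k : Fin 7) (hik : i ≠ k) (a : α) (ω : Fin 7 → α × Bool) :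
    swp i k (ω i).1 (swp i k a ω) = ω := by
  funext j
  unfold swp
  by_cases h1 : j = i
  · subst h1
    simp [hik.symm]
  · by_cases h2 : j = k
    · subst h2
      simp [h1]
    · simp [h1, h2]

/-- the exchange, as a permutation of the pairs (point, coordinates) -/
def swpE (i k : Fin 7) (hik : i ≠ k) : α × (Fin 7 → α × Bool) ≃ α × (Fin 7 → α × Bool) where
  toFun q := ((q.2 i).1, swp i k q.1 q.2)
  invFun q := ((q.2 i).1, swp i k q.1 q.2)
  left_inv q := by
    obtain ⟨a, ω⟩ := q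
    refine Prod.ext ?_ (swp_swp i k hik a ω)
    simp [swp]
  right_inv q := by
    obtain ⟨a, ω⟩ := q
    refine Prod.ext ?_ (swp_swp i k hik a ω)
    simp [swp]

theorem anti_core (i k : Fin 7) (hik : i ≠ k) (W f : α → (Fin 7 → α × Bool) → ℝ)
    (hW : ∀ a ω, W (ω i).1 (swp i k a ω) = W a ω)
    (hf : ∀ a ω, f (ω i).1 (swp i k a ω) = - f a ω) : ∑ a, ∑ ω, W a ω * f a ω = 0 := by
  have h1 : ∑ a, ∑ ω, W a ω * f a ω = ∑ q : α × (Fin 7 → α × Bool), W q.1 q.2 * f q.1 q.2 :=
    (Fintype.sum_prod_type (fun q : α × (Fin 7 → α × Bool) => W q.1 q.2 * f q.1 q.2)).symm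
  have h2 : ∑ q : α × (Fin 7 → α × Bool), W q.1 q.2 * f q.1 q.2 =
      ∑ q : α × (Fin 7 → α × Bool), -(W q.1 q.2 * f q.1 q.2) := by
    rw [← Equiv.sum_comp (swpE i k hik)]
    refine Finset.sum_congr rfl fun q _ => ?_
    change W (q.2 i).1 (swp i k q.1 q.2) * f (q.2 i).1 (swp i k q.1 q.2) = _
    rw [hW, hf]
    ring
  rw [h1]
  rw [Finset.sum_neg_distrib] at h2
  linarith

/-- the pattern of the exchanged points: coordinates `0` and `3`; write the line sum as a double
sum over `(x, hx)` and `(x', hx')` -/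
theorem line_x (F : α → α → α → Bool) (t : ℝ) (y z : α) (g : (Fin 15 → Bool) → ℝ)
    (hg : ∀ P, g (P ∘ sx) = - g P) : ∑ x, EE F t x y z g = 0 := by
  unfold EE Ex
  refine anti_core 0 3 (by decide) (fun x ω => wt (pp F t x y z) ω)
    (fun x ω => g (pat F x y z ω)) (fun x ω => ?_) (fun x ω => ?_)
  · unfold wt
    rw [Fin.prod_univ_seven, Fin.prod_univ_seven]
    simp only [swp, pp]
    simp [-mul_eq_mul_left_iff, -mul_eq_mul_right_iff]
    ring
  · rw [← hg]
    congr 1
    funext j
    fin_cases j <;> rfl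

theorem line_y (F : α → α → α → Bool) (t : ℝ) (x z : α) (g : (Fin 15 → Bool) → ℝ)
    (hg : ∀ P, g (P ∘ sy) = - g P) : ∑ y, EE F t x y z g = 0 := by
  unfold EE Ex
  refine anti_core 1 4 (by decide) (fun y ω => wt (pp F t x y z) ω)
    (fun y ω => g (pat F x y z ω)) (fun y ω => ?_) (fun y ω => ?_)
  · unfold wt
    rw [Fin.prod_univ_seven, Fin.prod_univ_seven]
    simp only [swp, pp]
    simp [-mul_eq_mul_left_iff, -mul_eq_mul_right_iff]
    ring
  · rw [← hg]
    congr 1
    funext j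
    fin_cases j <;> rfl

theorem line_z (F : α → α → α → Bool) (t : ℝ) (x y : α) (g : (Fin 15 → Bool) → ℝ)
    (hg : ∀ P, g (P ∘ sz) = - g P) : ∑ z, EE F t x y z g = 0 := by
  unfold EE Ex
  refine anti_core 2 5 (by decide) (fun z ω => wt (pp F t x y z) ω)
    (fun z ω => g (pat F x y z ω)) (fun z ω => ?_) (fun z ω => ?_)
  · unfold wt
    rw [Fin.prod_univ_seven, Fin.prod_univ_seven]
    simp only [swp, pp]
    simp [-mul_eq_mul_left_iff, -mul_eq_mul_right_iff]
    ring
  · rw [← hg]
    congr 1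
    funext j
    fin_cases j <;> rfl

end Pool.Agent.HLA
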