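import Pool.Agent.HLA.Cert
import Pool.Agent.HLA.ANTI

/-! Encoding of patterns by numbers. -/

set_option autoImplicit false

namespace Pool.Agent.HLA

/-- the bit as a natural number -/
def bn (P : Fin 15 → Bool) (i : Fin 15) : ℕ := if P i then 1 else 0

/-- the number of a pattern -/
def enc (P : Fin 15 → Bool) : ℕ :=
  bn P 0 + 2 * bn P 1 + 4 * bn P 2 + 8 * bn P 3 + 16 * bn P 4 + 32 * bn P 5 + 64 * bn P 6 +
  128 * bn P 7 + 256 * bn P 8 + 512 * bn P 9 + 1024 * bn P 10 + 2048 * bn P 11 + 4096 * bn P 12 +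
  8192 * bn P 13 + 16384 * bn P 14

theorem bn_le (P : Fin 15 → Bool) (i : Fin 15) : bn P i ≤ 1 := by
  unfold bn; split_ifs <;> omega

theorem bn_all (P : Fin 15 → Bool) : bn P 0 ≤ 1 ∧ bn P 1 ≤ 1 ∧ bn P 2 ≤ 1 ∧ bn P 3 ≤ 1 ∧
    bn P 4 ≤ 1 ∧ bn P 5 ≤ 1 ∧ bn P 6 ≤ 1 ∧ bn P 7 ≤ 1 ∧ bn P 8 ≤ 1 ∧ bn P 9 ≤ 1 ∧ bn P 10 ≤ 1 ∧
    bn P 11 ≤ 1 ∧ bn P 12 ≤ 1 ∧ bn P 13 ≤ 1 ∧ bn P 14 ≤ 1 :=
  ⟨bn_le P 0, bn_le P 1, bn_le P 2, bn_le P 3, bn_le P 4, bn_le P 5, bn_le P 6, bn_le P 7,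
    bn_le P 8, bn_le P 9, bn_le P 10, bn_le P 11, bn_le P 12, bn_le P 13, bn_le P 14⟩

theorem bt3 (P : Fin 15 → Bool) : bt (enc P) 3 = bn P 3 := by
  have h := bn_all P
  unfold bt enc
  rw [Nat.shiftRight_eq_div_pow]
  omega

theorem bt4 (P : Fin 15 → Bool) : bt (enc P) 4 = bn P 4 := by
  have h := bn_all P
  unfold bt enc
  rw [Nat.shiftRight_eq_div_pow]
  omega

theorem bt5 (P : Fin 15 → Bool) : bt (enc P) 5 = bn P 5 := by
  have h := bn_all P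
  unfold bt enc
  rw [Nat.shiftRight_eq_div_pow]
  omega

theorem bt7 (P : Fin 15 → Bool) : bt (enc P) 7 = bn P 7 := by
  have h := bn_all P
  unfold bt enc
  rw [Nat.shiftRight_eq_div_pow]
  omega

theorem bt8 (P : Fin 15 → Bool) : bt (enc P) 8 = bn P 8 := by
  have h := bn_all P
  unfold bt enc
  rw [Nat.shiftRight_eq_div_pow]
  omega

theorem bt10 (P : Fin 15 → Bool) : bt (enc P) 10 = bn P 10 := by
  have h := bn_all P
  unfold bt enc
  rw [Nat.shiftRight_eq_div_pow]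
  omega

theorem bt11 (P : Fin 15 → Bool) : bt (enc P) 11 = bn P 11 := by
  have h := bn_all P
  unfold bt enc
  rw [Nat.shiftRight_eq_div_pow]
  omega

theorem bt12 (P : Fin 15 → Bool) : bt (enc P) 12 = bn P 12 := by
  have h := bn_all P
  unfold bt enc
  rw [Nat.shiftRight_eq_div_pow]
  omega

theorem bt13 (P : Fin 15 → Bool) : bt (enc P) 13 = bn P 13 := by
  have h := bn_all P
  unfold bt enc
  rw [Nat.shiftRight_eq_div_pow]
  omega

theorem bt14 (P : Fin 15 → Bool) : bt (enc P) 14 = bn P 14 := by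
  have h := bn_all P
  unfold bt enc
  rw [Nat.shiftRight_eq_div_pow]
  omega

theorem enc_mod2 (P : Fin 15 → Bool) : enc P % 2 = bn P 0 := by
  have h := bn_all P
  unfold enc
  omega

theorem enc_mod8 (P : Fin 15 → Bool) : enc P % 8 = bn P 0 + 2 * bn P 1 + 4 * bn P 2 := by
  have h := bn_all P
  unfold enc
  omega

theorem enc_mod16 (P : Fin 15 → Bool) :
    enc P % 16 = bn P 0 + 2 * bn P 1 + 4 * bn P 2 + 8 * bn P 3 := by
  have h := bn_all P
  unfold enc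
  omega

theorem enc_mod32 (P : Fin 15 → Bool) :
    enc P % 32 = bn P 0 + 2 * bn P 1 + 4 * bn P 2 + 8 * bn P 3 + 16 * bn P 4 := by
  have h := bn_all P
  unfold enc
  omega

theorem enc_div32 (P : Fin 15 → Bool) :
    (enc P / 32) % 32 = bn P 5 + 2 * bn P 6 + 4 * bn P 7 + 8 * bn P 8 + 16 * bn P 9 := by
  have h := bn_all P
  unfold enc
  omega

theorem enc_mod128 (P : Fin 15 → Bool) :
    enc P % 128 = bn P 0 + 2 * bn P 1 + 4 * bn P 2 + 8 * bn P 3 + 16 * bn P 4 + 32 * bn P 5 +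
      64 * bn P 6 := by
  have h := bn_all P
  unfold enc
  omega

theorem enc_mod1024 (P : Fin 15 → Bool) :
    enc P % 1024 = bn P 0 + 2 * bn P 1 + 4 * bn P 2 + 8 * bn P 3 + 16 * bn P 4 + 32 * bn P 5 +
      64 * bn P 6 + 128 * bn P 7 + 256 * bn P 8 + 512 * bn P 9 := by
  have h := bn_all P
  unfold enc
  omega

theorem enc_lt (P : Fin 15 → Bool) : enc P < 32768 := by
  have h := bn_all P
  unfold enc
  omega

end Pool.Agent.HLA
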