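import Pool.Agent.HLA.CKF
import Pool.Agent.HLA.ENC

/-! The check of the antisymmetry, with the operations on natural numbers applied directly. -/

set_option autoImplicit false

namespace Pool.Agent.HLA

/-- check of the antisymmetry for all patterns -/
def Tabs.go4 (A : Tabs) : List (ℕ × ℕ × ℕ × ℕ) → ℕ → ℕ → ℕ → ℕ → Bool
  | [], a, b, c, d => Nat.beq (A.gv a + A.gv b) 16777216 && Nat.beq (A.gv a + A.gv c) 16777216 &&
      Nat.beq (A.gv a + A.gv d) 16777216
  | (u, v, w, r) :: l, a, b, c, d => A.go4 l a b c d && A.go4 l (a + u) (b + v) (c + w) (d + r)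

/-- weights of the bits, highest first -/
def wt4 : List (ℕ × ℕ × ℕ × ℕ) :=
  [(16384, 16384, 16384, 8),
   (8192, 4096, 2048, 256),
   (4096, 8192, 1024, 128),
   (2048, 1024, 8192, 32),
   (1024, 2048, 4096, 1),
   (512, 512, 4, 512),
   (256, 128, 32, 8192),
   (128, 256, 1, 4096),
   (64, 2, 64, 64),
   (32, 1, 256, 2048),
   (16, 16, 16, 16),
   (8, 8, 8, 16384),
   (4, 4, 512, 4),
   (2, 64, 2, 2),
   (1, 32, 128, 1024)]

/-- the lower eleven bits -/
def wt4l : List (ℕ × ℕ × ℕ × ℕ) := wt4.drop 4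

/-- the test of one pattern, with all values as variables -/
def tF4 (k ga gb gc gd : ℕ) : Bool :=
  cond (Nat.beq (Nat.add ga gb) k) (cond (Nat.beq (Nat.add ga gc) k) (Nat.beq (Nat.add ga gd) k)
    false) false

theorem tF4_eq (k ga gb gc gd : ℕ) : tF4 k ga gb gc gd =
    (Nat.beq (ga + gb) k && Nat.beq (ga + gc) k && Nat.beq (ga + gd) k) := by
  change cond (Nat.beq (ga + gb) k) (cond (Nat.beq (ga + gc) k) (Nat.beq (ga + gd) k)
    false) false = _
  cases Nat.beq (ga + gb) k <;> cases Nat.beq (ga + gc) k <;> simp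

def Tabs.go4F (A : Tabs) (l : List (ℕ × ℕ × ℕ × ℕ)) : ℕ → ℕ → ℕ → ℕ → Bool :=
  List.rec (fun a b c d => tF4 16777216 (A.gvF a) (A.gvF b) (A.gvF c) (A.gvF d))
    (fun x _ ih a b c d => cond (ih a b c d)
      (ih (Nat.add a x.1) (Nat.add b x.2.1) (Nat.add c x.2.2.1) (Nat.add d x.2.2.2)) false) l

theorem go4F_eq (A : Tabs) (l : List (ℕ × ℕ × ℕ × ℕ)) :
    ∀ a b c d, A.go4F l a b c d = A.go4 l a b c d := by
  induction l with
  | nil =>
    intro a b c d
    change tF4 16777216 (A.gvF a) (A.gvF b) (A.gvF c) (A.gvF d) = _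
    rw [tF4_eq, gvF_eq, gvF_eq, gvF_eq, gvF_eq, Tabs.go4]
  | cons x l ih =>
    intro a b c d
    obtain ⟨u, v, w, r⟩ := x
    change cond (A.go4F l a b c d) (A.go4F l (a + u) (b + v) (c + w) (d + r)) false = _
    rw [ih, ih, Tabs.go4]
    cases A.go4 l a b c d <;> simp

theorem go4_cons {A : Tabs} {u v w r : ℕ} {l : List (ℕ × ℕ × ℕ × ℕ)} {a b c d : ℕ}
    (h1 : A.go4 l a b c d = true) (h2 : A.go4 l (a + u) (b + v) (c + w) (d + r) = true) :
    A.go4 ((u, v, w, r) :: l) a b c d = true := by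
  rw [Tabs.go4, h1, h2]; rfl

theorem go4_of {A : Tabs} {l : List (ℕ × ℕ × ℕ × ℕ)} {a b c d : ℕ}
    (h : A.go4F l a b c d = true) : A.go4 l a b c d = true := (go4F_eq A l a b c d).symm.trans h

/-- splitting along the four highest bits -/
theorem go4_split {A : Tabs} {a b c d : ℕ}
    (h0 : A.go4F wt4l a b c d = true)
    (h1 : A.go4F wt4l (a + 2048) (b + 1024) (c + 8192) (d + 32) = true)
    (h2 : A.go4F wt4l (a + 4096) (b + 8192) (c + 1024) (d + 128) = true)
    (h3 : A.go4F wt4l (a + 4096 + 2048) (b + 8192 + 1024) (c + 1024 + 8192) (d + 128 + 32) = true)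
    (h4 : A.go4F wt4l (a + 8192) (b + 4096) (c + 2048) (d + 256) = true)
    (h5 : A.go4F wt4l (a + 8192 + 2048) (b + 4096 + 1024) (c + 2048 + 8192) (d + 256 + 32) = true)
    (h6 : A.go4F wt4l (a + 8192 + 4096) (b + 4096 + 8192) (c + 2048 + 1024) (d + 256 + 128) = true)
    (h7 : A.go4F wt4l (a + 8192 + 4096 + 2048) (b + 4096 + 8192 + 1024) (c + 2048 + 1024 + 8192) (d + 256 + 128 + 32) = true)
    (h8 : A.go4F wt4l (a + 16384) (b + 16384) (c + 16384) (d + 8) = true)
    (h9 : A.go4F wt4l (a + 16384 + 2048) (b + 16384 + 1024) (c + 16384 + 8192) (d + 8 + 32) = true)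
    (h10 : A.go4F wt4l (a + 16384 + 4096) (b + 16384 + 8192) (c + 16384 + 1024) (d + 8 + 128) = true)
    (h11 : A.go4F wt4l (a + 16384 + 4096 + 2048) (b + 16384 + 8192 + 1024) (c + 16384 + 1024 + 8192) (d + 8 + 128 + 32) = true)
    (h12 : A.go4F wt4l (a + 16384 + 8192) (b + 16384 + 4096) (c + 16384 + 2048) (d + 8 + 256) = true)
    (h13 : A.go4F wt4l (a + 16384 + 8192 + 2048) (b + 16384 + 4096 + 1024) (c + 16384 + 2048 + 8192) (d + 8 + 256 + 32) = true)
    (h14 : A.go4F wt4l (a + 16384 + 8192 + 4096) (b + 16384 + 4096 + 8192) (c + 16384 + 2048 + 1024) (d + 8 + 256 + 128) = true)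
    (h15 : A.go4F wt4l (a + 16384 + 8192 + 4096 + 2048) (b + 16384 + 4096 + 8192 + 1024) (c + 16384 + 2048 + 1024 + 8192) (d + 8 + 256 + 128 + 32) = true) :
    A.go4 wt4 a b c d = true := by
  have e : wt4 = (16384, 16384, 16384, 8) :: (8192, 4096, 2048, 256) ::
    (4096, 8192, 1024, 128) :: (2048, 1024, 8192, 32) :: wt4l := rfl
  rw [e]
  exact go4_cons (go4_cons (go4_cons (go4_cons (go4_of h0)
    (go4_of h1))
    (go4_cons (go4_of h2)
    (go4_of h3)))
    (go4_cons (go4_cons (go4_of h4)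
    (go4_of h5))
    (go4_cons (go4_of h6)
    (go4_of h7))))
    (go4_cons (go4_cons (go4_cons (go4_of h8)
    (go4_of h9))
    (go4_cons (go4_of h10)
    (go4_of h11)))
    (go4_cons (go4_cons (go4_of h12)
    (go4_of h13))
    (go4_cons (go4_of h14)
    (go4_of h15))))

end Pool.Agent.HLA
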