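import Pool.Agent.HLA.ACD

/-! Antisymmetry of the table `g` for every pattern. -/

set_option autoImplicit false

namespace Pool.Agent.HLA

theorem go4_step {A : Tabs} {u v w r : ℕ} {l : List (ℕ × ℕ × ℕ × ℕ)} {a b c d : ℕ}
    (h : A.go4 ((u, v, w, r) :: l) a b c d = true) (P : Fin 15 → Bool) (i : Fin 15) :
    A.go4 l (a + u * bn P i) (b + v * bn P i) (c + w * bn P i) (d + r * bn P i) = true := by
  rw [Tabs.go4, Bool.and_eq_true] at h
  unfold bn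
  split_ifs
  · simpa using h.2
  · simpa using h.1

theorem anti_of {A : Tabs} (h : A.go4 wt4 0 0 0 0 = true) (P : Fin 15 → Bool) :
    A.gv (enc P) + A.gv (enc (P ∘ sx)) = 16777216 ∧
    A.gv (enc P) + A.gv (enc (P ∘ sy)) = 16777216 ∧
    A.gv (enc P) + A.gv (enc (P ∘ sz)) = 16777216 := by
  unfold wt4 at h
  have h2 := go4_step (go4_step (go4_step (go4_step (go4_step (go4_step (go4_step (go4_step
    (go4_step (go4_step (go4_step (go4_step (go4_step (go4_step (go4_step h P 14) P 13) P 12) P 11)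
    P 10) P 9) P 8) P 7) P 6) P 5) P 4) P 3) P 2) P 1) P 0
  rw [Tabs.go4, Bool.and_eq_true, Bool.and_eq_true] at h2
  have ex : enc (P ∘ sx) = bn P 5 + 2 * bn P 6 + 4 * bn P 2 + 8 * bn P 3 + 16 * bn P 4 + 32 * bn P 0 + 64 * bn P 1 + 128 * bn P 8 + 256 * bn P 7 + 512 * bn P 9 + 1024 * bn P 11 + 2048 * bn P 10 + 4096 * bn P 13 + 8192 * bn P 12 + 16384 * bn P 14 := rfl
  have ey : enc (P ∘ sy) = bn P 7 + 2 * bn P 1 + 4 * bn P 9 + 8 * bn P 3 + 16 * bn P 4 + 32 * bn P 8 + 64 * bn P 6 + 128 * bn P 0 + 256 * bn P 5 + 512 * bn P 2 + 1024 * bn P 12 + 2048 * bn P 13 + 4096 * bn P 10 + 8192 * bn P 11 + 16384 * bn P 14 := rfl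
  have ez : enc (P ∘ sz) = bn P 10 + 2 * bn P 1 + 4 * bn P 2 + 8 * bn P 14 + 16 * bn P 4 + 32 * bn P 11 + 64 * bn P 6 + 128 * bn P 12 + 256 * bn P 13 + 512 * bn P 9 + 1024 * bn P 0 + 2048 * bn P 5 + 4096 * bn P 7 + 8192 * bn P 8 + 16384 * bn P 3 := rfl
  rw [ex, ey, ez]
  unfold enc
  obtain ⟨⟨a1, a2⟩, a3⟩ := h2
  have a1 := Nat.eq_of_beq_eq_true a1
  have a2 := Nat.eq_of_beq_eq_true a2
  have a3 := Nat.eq_of_beq_eq_true a3
  refine ⟨?_, ?_, ?_⟩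
  · convert a1 using 3 <;> ring
  · convert a2 using 3 <;> ring
  · convert a3 using 3 <;> ring

end Pool.Agent.HLA
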