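import Pool.Agent.HLA.CUB
import Pool.Agent.LAV.DUA

/-! The fractional statement from the cube lemma, by duality. -/

set_option autoImplicit false

namespace Pool.Agent.HLA

open Finset Pool.Agent.LAV

theorem bit_decide (p : Prop) [Decidable p] : bit (decide p) = if p then (1 : ℝ) else 0 := by
  unfold bit
  by_cases h : p
  · rw [if_pos h, decide_eq_true h, if_pos rfl]
  · rw [if_neg h, decide_eq_false h]
    rfl

theorem cubeC : Pool.LAV.CUBE := by
  obtain ⟨C, s, hC, hs0, hs, h⟩ := cube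
  refine ⟨C, s, hs, ?_⟩
  intro α _ _ F h1 h2 h3
  by_cases hne : Nonempty α
  swap
  · have hem : ∀ T : Tri α, False := fun T => hne ⟨T.1⟩
    refine ⟨fun _ => 0, fun x => absurd ⟨x⟩ hne, fun x => absurd ⟨x⟩ hne,
      fun x => absurd ⟨x⟩ hne, fun T => (hem T).elim, fun T => (hem T).elim,
      fun T => (hem T).elim⟩
  obtain ⟨G, G1, G2, G3, G4, G5, G6⟩ := h (fun x y z => decide ((x, y, z) ∈ F)) (by
    refine ⟨fun x y => ?_, fun x z => ?_, fun y z => ?_⟩
    · simp only [bit_decide]
      rw [Finset.sum_boole]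
      exact_mod_cast h1 x y
    · simp only [bit_decide]
      rw [Finset.sum_boole]
      exact_mod_cast h2 x z
    · simp only [bit_decide]
      rw [Finset.sum_boole]
      exact_mod_cast h3 y z)
  refine ⟨fun T => G T.1 T.2.1 T.2.2, G1, G2, G3, fun T => G4 _ _ _, fun T hT => ?_,
    fun T hT => ?_⟩
  · exact G5 _ _ _ (decide_eq_true hT)
  · exact G6 _ _ _ (decide_eq_false hT)

theorem lp {b : ℝ} (hb : b < 1 / 4) : LPOK b := Pool.LAV.lpok_of_cube cubeC hb.le

end Pool.Agent.HLA
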