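import Pool.Agent.HLA.HCON
import Pool.Agent.HLA.LPM
import Pool.Agent.LAV.FIN

set_option autoImplicit false

/-!
# The asymptotic theorem: every `β < 1/4` is good for all large `n`
-/

namespace Pool.Agent.HLA

open Finset Pool.Agent.LAV

/-- the allowed triples of a list assignment -/
def All {n : ℕ} (L : Fin n → Fin n → Finset (Fin n)) (T : Tri (Fin n)) : Prop :=
  T.2.2 ∉ L T.1 T.2.1

instance {n : ℕ} (L : Fin n → Fin n → Finset (Fin n)) : DecidablePred (All L) :=
  fun T => inferInstanceAs (Decidable (T.2.2 ∉ L T.1 T.2.1))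

theorem spa_of_sparse {n : ℕ} {β : ℝ} {L : Fin n → Fin n → Finset (Fin n)} (hL : Sparse β L) :
    Spa (All L) univ univ β := by
  have key : ∀ i j c, ¬ All L (i, j, c) ↔ c ∈ L i j := fun i j c => not_not
  have h2 : ∀ x y, ((univ.filter fun u => ¬ All L (x, y, u)).card : ℝ) ≤ β * n := by
    intro x y
    simp only [key]
    rw [Finset.filter_mem_eq_inter, Finset.univ_inter]
    exact hL.1 x y
  have h1 : ∀ x y, ((univ.filter fun u => ¬ All L (x, u, y)).card : ℝ) ≤ β * n := by
    intro x y
    simp only [key]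
    exact hL.2.1 x y
  have h0 : ∀ x y, ((univ.filter fun u => ¬ All L (u, x, y)).card : ℝ) ≤ β * n := by
    intro x y
    simp only [key]
    exact hL.2.2 x y
  intro a c hac x _ y _
  rw [card_univ, Fintype.card_fin]
  fin_cases a <;> fin_cases c
  · exact absurd rfl hac
  · exact h2 x y
  · exact h1 x y
  · exact h2 y x
  · exact absurd rfl hac
  · exact h0 x y
  · exact h1 y x
  · exact h0 y x
  · exact absurd rfl hac

theorem asy : Asy := by
  intro β hβ
  obtain ⟨n0, h⟩ := dec_all hβ fun b' hb' => lp hb'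
  refine ⟨n0, fun n hn L hL => ?_⟩
  obtain ⟨f, f1, f2, f3⟩ := latin_of_dec (h n hn (All L) (spa_of_sparse hL))
  exact ⟨f, ⟨f1, f2⟩, f3⟩

end Pool.Agent.HLA
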