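import Pool.Agent.HLA.EEB

/-! Averaging over one coordinate, and the elementary averages of the scheme. -/

set_option autoImplicit false

namespace Pool.Agent.HLA

open Finset Pool.Agent.ChPi

section gen

variable {V Ω : Type} [Fintype V] [DecidableEq V] [Fintype Ω]

/-- the average of `f` over the coordinate `i` -/
noncomputable def avc (p : V → Ω → ℝ) (i : V) (f : (V → Ω) → ℝ) (ω : V → Ω) : ℝ :=
  ∑ o, p i o * f (Function.update ω i o)

theorem Ex_one_coord {p : V → Ω → ℝ} (hp1 : ∀ v, ∑ o, p v o = 1) (i : V) (g : Ω → ℝ) :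
    Ex p (fun ω => g (ω i)) = ∑ o, p i o * g o := by
  have h1 := L.Ex_prod p (fun v o => if v = i then g o else 1)
  have h2 : (fun ω : V → Ω => ∏ v, (if v = i then g (ω v) else 1)) = fun ω => g (ω i) := by
    funext ω
    rw [Finset.prod_ite_eq' univ i (fun v => g (ω v)), if_pos (mem_univ i)]
  rw [h2] at h1
  rw [h1, Finset.prod_eq_single i]
  · simp
  · intro v _ hv
    simp only [if_neg hv, mul_one]
    exact hp1 v
  · intro h
    exact absurd (mem_univ i) h

theorem Ex_avc {p : V → Ω → ℝ} (hp1 : ∀ v, ∑ o, p v o = 1) (i : V) (f : (V → Ω) → ℝ) :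
    Ex p f = Ex p (avc p i f) := by
  rw [L.resample hp1 {i} f]
  congr 1
  funext ω
  have h1 : (fun σ : V → Ω => f (L.merge {i} σ ω))
      = fun σ => (fun o => f (Function.update ω i o)) (σ i) := by
    funext σ
    congr 1
    funext v
    by_cases hv : v = i
    · subst hv
      rw [L.merge_of_mem (mem_singleton_self v), Function.update_self]
    · rw [L.merge_of_notMem (by rwa [mem_singleton]), Function.update_of_ne hv]
  rw [h1]
  exact Ex_one_coord hp1 i (fun o => f (Function.update ω i o))

end gen

variable {α : Type} [Fintype α] [DecidableEq α] [Nonempty α]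

omit [DecidableEq α] [Nonempty α] in
/-- averaging a function of the point over a labelled point -/
theorem sum_lab (d φ : α → ℝ) :
    ∑ o : α × Bool, lw (d o.1) o.2 / (Fintype.card α : ℝ) * φ o.1
      = (∑ a, φ a) / Fintype.card α := by
  rw [Fintype.sum_prod_type, Finset.sum_div]
  refine Finset.sum_congr rfl fun a _ => ?_
  rw [Fintype.sum_bool]
  simp only [lw, if_true, Bool.false_eq_true, if_false]
  ring

omit [DecidableEq α] [Nonempty α] in
/-- averaging a function of a labelled point, the label has a law depending on the point -/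
theorem sum_lab2 (d : α → ℝ) (φ : α → Bool → ℝ) :
    ∑ o : α × Bool, lw (d o.1) o.2 / (Fintype.card α : ℝ) * φ o.1 o.2
      = (∑ a, (d a * φ a true + (1 - d a) * φ a false)) / Fintype.card α := by
  rw [Fintype.sum_prod_type, Finset.sum_div]
  refine Finset.sum_congr rfl fun a _ => ?_
  rw [Fintype.sum_bool]
  simp only [lw, if_true, Bool.false_eq_true, if_false]
  ring

omit [DecidableEq α] in
/-- averaging a function of a label with a dummy point -/
theorem sum_dum (d : ℝ) (φ : Bool → ℝ) :
    ∑ o : α × Bool, lw d o.2 / (Fintype.card α : ℝ) * φ o.2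
      = d * φ true + (1 - d) * φ false := by
  have hN : (Fintype.card α : ℝ) ≠ 0 := Nat.cast_ne_zero.2 Fintype.card_ne_zero
  have h := sum_lab2 (fun _ : α => d) (fun _ => φ)
  rw [Finset.sum_const, card_univ, nsmul_eq_mul] at h
  rw [h]
  field_simp

theorem E_lab5 (F : α → α → α → Bool) (t : ℝ) (x y z : α) :
    Ex (pp F t x y z) (fun ω => bit (ω 5).2) = dZ F z := by
  rw [Ex_one_coord (pp_sum F t x y z) 5 (fun o => bit o.2)]
  have h := sum_dum (α := α) (dZ F z) bit
  simp only [bit, if_true, Bool.false_eq_true, if_false] at h ⊢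
  simp only [pp]
  rw [h]
  ring

theorem E_lab6 (F : α → α → α → Bool) (t : ℝ) (x y z : α) :
    Ex (pp F t x y z) (fun ω => bit (ω 6).2) = t := by
  rw [Ex_one_coord (pp_sum F t x y z) 6 (fun o => bit o.2)]
  have h := sum_dum (α := α) t bit
  simp only [bit, if_true, Bool.false_eq_true, if_false] at h ⊢
  simp only [pp]
  rw [h]
  ring

theorem E_lab2 (F : α → α → α → Bool) (t : ℝ) (x y z : α) :
    Ex (pp F t x y z) (fun ω => bit (ω 2).2) = dD F := by
  rw [Ex_one_coord (pp_sum F t x y z) 2 (fun o => bit o.2)]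
  have h := sum_lab2 (α := α) (dZ F) (fun _ => bit)
  simp only [bit, if_true, Bool.false_eq_true, if_false] at h ⊢
  simp only [pp]
  rw [h, dD_eq]
  congr 1
  refine Finset.sum_congr rfl fun a _ => ?_
  ring

/-- averaging the value at a point of the plane -/
theorem E_plane (F : α → α → α → Bool) (t : ℝ) (x y z : α) (w : α) :
    Ex (pp F t x y z) (fun ω => 4 * bit (F (ω 0).1 (ω 1).1 w)) = dZ F w := by
  have hp := pp_sum F t x y z
  rw [Ex_avc hp 0]
  have h0 : avc (pp F t x y z) 0 (fun ω => 4 * bit (F (ω 0).1 (ω 1).1 w))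
      = fun ω => (fun o : α × Bool => (∑ a, 4 * bit (F a o.1 w)) / Fintype.card α) (ω 1) := by
    funext ω
    unfold avc
    have h := sum_lab (dX F) (fun a => 4 * bit (F a (ω 1).1 w))
    refine Eq.trans ?_ h
    refine Finset.sum_congr rfl fun o _ => ?_
    have h1 : Function.update ω 0 o 1 = ω 1 := Function.update_of_ne (by decide) _ _
    have h2 : Function.update ω 0 o 0 = o := Function.update_self _ _ _
    change pp F t x y z 0 o * (4 * bit (F (Function.update ω 0 o 0).1
      (Function.update ω 0 o 1).1 w)) = _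
    rw [h1, h2]
    simp only [pp]
  rw [h0]
  refine (Ex_one_coord hp 1 (fun o : α × Bool => (∑ a, 4 * bit (F a o.1 w)) / Fintype.card α)).trans
    ?_
  refine (sum_lab (dY F) (fun b => (∑ a, 4 * bit (F a b w)) / Fintype.card α)).trans ?_
  unfold dZ
  rw [Finset.sum_comm]
  simp only [← Finset.mul_sum, ← Finset.sum_div]
  rw [div_div, sq]

end Pool.Agent.HLA
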