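import Pool.Agent.ChPi.L

/-!
# Project HLA (MP_ba4857_co, step (A)): the local scheme, definitions

See `/team-store/BA_LP_NOTE.md`.  A pattern is a function `Fin 15 → Bool`, the positions are
`0 : b000, 1 : hx, 2 : hy, 3 : hz, 4 : tau, 5 : b100, 6 : hx', 7 : b010, 8 : b110, 9 : hy',
10 : b001, 11 : b101, 12 : b011, 13 : b111, 14 : hz'`.
-/

set_option autoImplicit false

namespace Pool.Agent.HLA

open Finset Pool.Agent.ChPi

variable {α : Type} [Fintype α] [DecidableEq α]

/-- `0` or `1` -/
noncomputable def bit (b : Bool) : ℝ := if b then 1 else 0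

/-- law of a label which is `true` with probability `d` -/
noncomputable def lw (d : ℝ) (h : Bool) : ℝ := if h then d else 1 - d

/-- four times the density of `F` in the plane `x = a` -/
noncomputable def dX (F : α → α → α → Bool) (a : α) : ℝ :=
  4 * (∑ b, ∑ c, bit (F a b c)) / (Fintype.card α : ℝ) ^ 2

/-- four times the density of `F` in the plane `y = b` -/
noncomputable def dY (F : α → α → α → Bool) (b : α) : ℝ :=
  4 * (∑ a, ∑ c, bit (F a b c)) / (Fintype.card α : ℝ) ^ 2

/-- four times the density of `F` in the plane `z = c` -/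
noncomputable def dZ (F : α → α → α → Bool) (c : α) : ℝ :=
  4 * (∑ a, ∑ b, bit (F a b c)) / (Fintype.card α : ℝ) ^ 2

/-- four times the density of `F` -/
noncomputable def dD (F : α → α → α → Bool) : ℝ :=
  4 * (∑ a, ∑ b, ∑ c, bit (F a b c)) / (Fintype.card α : ℝ) ^ 3

/-- every line has at most a quarter of its points in `F` -/
structure Lines (F : α → α → α → Bool) : Prop where
  xy : ∀ x y, 4 * ∑ z, bit (F x y z) ≤ Fintype.card α
  xz : ∀ x z, 4 * ∑ y, bit (F x y z) ≤ Fintype.card α
  yz : ∀ y z, 4 * ∑ x, bit (F x y z) ≤ Fintype.card α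

/-- the laws of the seven coordinates: `0, 1, 2` are the primed points with their labels,
`3, 4, 5` the labels of `x, y, z` and `6` is the global label (with a dummy point) -/
noncomputable def pp (F : α → α → α → Bool) (t : ℝ) (x y z : α) (i : Fin 7) (o : α × Bool) : ℝ :=
  (match i with
    | 0 => lw (dX F o.1) o.2
    | 1 => lw (dY F o.1) o.2
    | 2 => lw (dZ F o.1) o.2
    | 3 => lw (dX F x) o.2
    | 4 => lw (dY F y) o.2
    | 5 => lw (dZ F z) o.2
    | 6 => lw t o.2) / Fintype.card α

/-- the pattern -/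
def pat (F : α → α → α → Bool) (x y z : α) (ω : Fin 7 → α × Bool) : Fin 15 → Bool :=
  ![F x y z, (ω 3).2, (ω 4).2, (ω 5).2, (ω 6).2,
    F (ω 0).1 y z, (ω 0).2,
    F x (ω 1).1 z, F (ω 0).1 (ω 1).1 z, (ω 1).2,
    F x y (ω 2).1, F (ω 0).1 y (ω 2).1, F x (ω 1).1 (ω 2).1, F (ω 0).1 (ω 1).1 (ω 2).1,
    (ω 2).2]

/-- the expectation of a function of the pattern, with root `(x, y, z)` -/
noncomputable def EE (F : α → α → α → Bool) (t : ℝ) (x y z : α) (f : (Fin 15 → Bool) → ℝ) : ℝ :=
  Ex (pp F t x y z) fun ω => f (pat F x y z ω)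

/-- `c` depends only on the positions in `S` -/
def Dep (S : Finset (Fin 15)) (c : (Fin 15 → Bool) → ℝ) : Prop :=
  ∀ P Q : Fin 15 → Bool, (∀ i ∈ S, P i = Q i) → c P = c Q

/-- the rotated set: the new first coordinate is the old second one, and so on -/
def rotF (F : α → α → α → Bool) : α → α → α → Bool := fun a b c => F c a b

/-- the positions of the rotated pattern -/
def r0 : Fin 15 → Fin 15 := ![0, 2, 3, 1, 4, 7, 9, 10, 12, 14, 5, 8, 11, 13, 6]

end Pool.Agent.HLA
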