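import Pool.Agent.HLA.CKS

/-! Kernel check of the certificate (piece 0, part 1). -/

set_option autoImplicit false
set_option maxRecDepth 100000

namespace Pool.Agent.HLA

theorem ck_0_4_0 : tabs0.goF wt9 16384 512 64 = true := by decide +kernel

theorem ck_0_4_1 : tabs0.goF wt9 16896 576 16448 = true := by decide +kernel

theorem ck_0_4_2 : tabs0.goF wt9 17408 640 96 = true := by decide +kernel

theorem ck_0_4_3 : tabs0.goF wt9 17920 704 16480 = true := by decide +kernel

theorem ck_0_4_4 : tabs0.goF wt9 18432 4608 320 = true := by decide +kernel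

theorem ck_0_4_5 : tabs0.goF wt9 18944 4672 16704 = true := by decide +kernel

theorem ck_0_4_6 : tabs0.goF wt9 19456 4736 352 = true := by decide +kernel

theorem ck_0_4_7 : tabs0.goF wt9 19968 4800 16736 = true := by decide +kernel

theorem ck_0_4 : tabs0.go wtl 16384 512 64 = true :=
  go_split ck_0_4_0 ck_0_4_1 ck_0_4_2 ck_0_4_3
    ck_0_4_4 ck_0_4_5 ck_0_4_6 ck_0_4_7

theorem ck_0_5_0 : tabs0.goF wt9 20480 768 2112 = true := by decide +kernel

theorem ck_0_5_1 : tabs0.goF wt9 20992 832 18496 = true := by decide +kernel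

theorem ck_0_5_2 : tabs0.goF wt9 21504 896 2144 = true := by decide +kernel

theorem ck_0_5_3 : tabs0.goF wt9 22016 960 18528 = true := by decide +kernel

theorem ck_0_5_4 : tabs0.goF wt9 22528 4864 2368 = true := by decide +kernel

theorem ck_0_5_5 : tabs0.goF wt9 23040 4928 18752 = true := by decide +kernel

theorem ck_0_5_6 : tabs0.goF wt9 23552 4992 2400 = true := by decide +kernel

theorem ck_0_5_7 : tabs0.goF wt9 24064 5056 18784 = true := by decide +kernel

theorem ck_0_5 : tabs0.go wtl 20480 768 2112 = true :=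
  go_split ck_0_5_0 ck_0_5_1 ck_0_5_2 ck_0_5_3
    ck_0_5_4 ck_0_5_5 ck_0_5_6 ck_0_5_7

theorem ck_0_6_0 : tabs0.goF wt9 24576 8704 8256 = true := by decide +kernel

theorem ck_0_6_1 : tabs0.goF wt9 25088 8768 24640 = true := by decide +kernel

theorem ck_0_6_2 : tabs0.goF wt9 25600 8832 8288 = true := by decide +kernel

theorem ck_0_6_3 : tabs0.goF wt9 26112 8896 24672 = true := by decide +kernel

theorem ck_0_6_4 : tabs0.goF wt9 26624 12800 8512 = true := by decide +kernel

theorem ck_0_6_5 : tabs0.goF wt9 27136 12864 24896 = true := by decide +kernel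

theorem ck_0_6_6 : tabs0.goF wt9 27648 12928 8544 = true := by decide +kernel

theorem ck_0_6_7 : tabs0.goF wt9 28160 12992 24928 = true := by decide +kernel

theorem ck_0_6 : tabs0.go wtl 24576 8704 8256 = true :=
  go_split ck_0_6_0 ck_0_6_1 ck_0_6_2 ck_0_6_3
    ck_0_6_4 ck_0_6_5 ck_0_6_6 ck_0_6_7

theorem ck_0_7_0 : tabs0.goF wt9 28672 8960 10304 = true := by decide +kernel

theorem ck_0_7_1 : tabs0.goF wt9 29184 9024 26688 = true := by decide +kernel

theorem ck_0_7_2 : tabs0.goF wt9 29696 9088 10336 = true := by decide +kernel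

theorem ck_0_7_3 : tabs0.goF wt9 30208 9152 26720 = true := by decide +kernel

theorem ck_0_7_4 : tabs0.goF wt9 30720 13056 10560 = true := by decide +kernel

theorem ck_0_7_5 : tabs0.goF wt9 31232 13120 26944 = true := by decide +kernel

theorem ck_0_7_6 : tabs0.goF wt9 31744 13184 10592 = true := by decide +kernel

theorem ck_0_7_7 : tabs0.goF wt9 32256 13248 26976 = true := by decide +kernel

theorem ck_0_7 : tabs0.go wtl 28672 8960 10304 = true :=
  go_split ck_0_7_0 ck_0_7_1 ck_0_7_2 ck_0_7_3
    ck_0_7_4 ck_0_7_5 ck_0_7_6 ck_0_7_7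

end Pool.Agent.HLA
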