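import Pool.Agent.HLA.CKS

/-! Kernel check of the certificate (piece 1, part 0). -/

set_option autoImplicit false
set_option maxRecDepth 100000

namespace Pool.Agent.HLA

theorem ck_1_0_0 : tabs1.goF wt9 0 0 0 = true := by decide +kernel

theorem ck_1_0_1 : tabs1.goF wt9 512 64 16384 = true := by decide +kernel

theorem ck_1_0_2 : tabs1.goF wt9 1024 128 32 = true := by decide +kernel

theorem ck_1_0_3 : tabs1.goF wt9 1536 192 16416 = true := by decide +kernel

theorem ck_1_0_4 : tabs1.goF wt9 2048 4096 256 = true := by decide +kernel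

theorem ck_1_0_5 : tabs1.goF wt9 2560 4160 16640 = true := by decide +kernel

theorem ck_1_0_6 : tabs1.goF wt9 3072 4224 288 = true := by decide +kernel

theorem ck_1_0_7 : tabs1.goF wt9 3584 4288 16672 = true := by decide +kernel

theorem ck_1_0 : tabs1.go wtl 0 0 0 = true :=
  go_split ck_1_0_0 ck_1_0_1 ck_1_0_2 ck_1_0_3
    ck_1_0_4 ck_1_0_5 ck_1_0_6 ck_1_0_7

theorem ck_1_1_0 : tabs1.goF wt9 4096 256 2048 = true := by decide +kernel

theorem ck_1_1_1 : tabs1.goF wt9 4608 320 18432 = true := by decide +kernel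

theorem ck_1_1_2 : tabs1.goF wt9 5120 384 2080 = true := by decide +kernel

theorem ck_1_1_3 : tabs1.goF wt9 5632 448 18464 = true := by decide +kernel

theorem ck_1_1_4 : tabs1.goF wt9 6144 4352 2304 = true := by decide +kernel

theorem ck_1_1_5 : tabs1.goF wt9 6656 4416 18688 = true := by decide +kernel

theorem ck_1_1_6 : tabs1.goF wt9 7168 4480 2336 = true := by decide +kernel

theorem ck_1_1_7 : tabs1.goF wt9 7680 4544 18720 = true := by decide +kernel

theorem ck_1_1 : tabs1.go wtl 4096 256 2048 = true :=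
  go_split ck_1_1_0 ck_1_1_1 ck_1_1_2 ck_1_1_3
    ck_1_1_4 ck_1_1_5 ck_1_1_6 ck_1_1_7

theorem ck_1_2_0 : tabs1.goF wt9 8192 8192 8192 = true := by decide +kernel

theorem ck_1_2_1 : tabs1.goF wt9 8704 8256 24576 = true := by decide +kernel

theorem ck_1_2_2 : tabs1.goF wt9 9216 8320 8224 = true := by decide +kernel

theorem ck_1_2_3 : tabs1.goF wt9 9728 8384 24608 = true := by decide +kernel

theorem ck_1_2_4 : tabs1.goF wt9 10240 12288 8448 = true := by decide +kernel

theorem ck_1_2_5 : tabs1.goF wt9 10752 12352 24832 = true := by decide +kernel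

theorem ck_1_2_6 : tabs1.goF wt9 11264 12416 8480 = true := by decide +kernel

theorem ck_1_2_7 : tabs1.goF wt9 11776 12480 24864 = true := by decide +kernel

theorem ck_1_2 : tabs1.go wtl 8192 8192 8192 = true :=
  go_split ck_1_2_0 ck_1_2_1 ck_1_2_2 ck_1_2_3
    ck_1_2_4 ck_1_2_5 ck_1_2_6 ck_1_2_7

theorem ck_1_3_0 : tabs1.goF wt9 12288 8448 10240 = true := by decide +kernel

theorem ck_1_3_1 : tabs1.goF wt9 12800 8512 26624 = true := by decide +kernel

theorem ck_1_3_2 : tabs1.goF wt9 13312 8576 10272 = true := by decide +kernel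

theorem ck_1_3_3 : tabs1.goF wt9 13824 8640 26656 = true := by decide +kernel

theorem ck_1_3_4 : tabs1.goF wt9 14336 12544 10496 = true := by decide +kernel

theorem ck_1_3_5 : tabs1.goF wt9 14848 12608 26880 = true := by decide +kernel

theorem ck_1_3_6 : tabs1.goF wt9 15360 12672 10528 = true := by decide +kernel

theorem ck_1_3_7 : tabs1.goF wt9 15872 12736 26912 = true := by decide +kernel

theorem ck_1_3 : tabs1.go wtl 12288 8448 10240 = true :=
  go_split ck_1_3_0 ck_1_3_1 ck_1_3_2 ck_1_3_3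
    ck_1_3_4 ck_1_3_5 ck_1_3_6 ck_1_3_7

end Pool.Agent.HLA
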