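import Pool.Agent.HLA.Cert

/-! The finite check with the operations on natural numbers applied directly. -/

set_option autoImplicit false

namespace Pool.Agent.HLA

def fldF (t i : ℕ) : ℕ := Nat.mod (Nat.shiftRight t (Nat.mul 24 i)) 16777216
def btF (n i : ℕ) : ℕ := Nat.mod (Nat.shiftRight n i) 2

/-- value of a function at a number below `16`, found by bisection -/
def gsel (g : ℕ → ℕ) (k : ℕ) : ℕ :=
  cond (Nat.ble 16 k) (g k)
    (cond (Nat.ble 8 k) (cond (Nat.ble 12 k) (cond (Nat.ble 14 k) (cond (Nat.ble 15 k) (g 15) (g 14)) (cond (Nat.ble 13 k) (g 13) (g 12))) (cond (Nat.ble 10 k) (cond (Nat.ble 11 k) (g 11) (g 10)) (cond (Nat.ble 9 k) (g 9) (g 8)))) (cond (Nat.ble 4 k) (cond (Nat.ble 6 k) (cond (Nat.ble 7 k) (g 7) (g 6)) (cond (Nat.ble 5 k) (g 5) (g 4))) (cond (Nat.ble 2 k) (cond (Nat.ble 3 k) (g 3) (g 2)) (cond (Nat.ble 1 k) (g 1) (g 0)))))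

theorem gsel_eq (g : ℕ → ℕ) (k : ℕ) : gsel g k = g k := by
  rcases Nat.lt_or_ge k 16 with h | h
  · interval_cases k <;> rfl
  · unfold gsel
    rw [Nat.ble_eq_true_of_le h]; rfl

def Tabs.gvF (A : Tabs) (n : ℕ) : ℕ := fldF (gsel A.g (Nat.div n 2048)) (Nat.mod n 2048)

def iPF (n : ℕ) : ℕ :=
  Nat.add (Nat.add (Nat.add (Nat.mod n 8) (Nat.mul 8 (btF n 4))) (Nat.mul 16 (btF n 10)))
    (Nat.mul 32 (btF n 14))
def iQF (n : ℕ) : ℕ := Nat.add (Nat.mod n 32) (Nat.mul 32 (btF n 10))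
def iGF (n : ℕ) : ℕ := Nat.add (Nat.mod n 16) (Nat.mul 16 (Nat.mod (Nat.div n 32) 32))

def Tabs.pLF (A : Tabs) (n q : ℕ) : ℕ :=
  Nat.mul (fldF (A.cL q) (Nat.mod n 1024)) (Nat.sub 1 (btF n (Nat.add 10 q)))
def Tabs.nLF (A : Tabs) (n q : ℕ) : ℕ :=
  Nat.mul (Nat.mul 3 (fldF (A.cL q) (Nat.mod n 1024))) (btF n (Nat.add 10 q))
def Tabs.pPF (A : Tabs) (n : ℕ) : ℕ :=
  Nat.add (Nat.add (Nat.mul (Nat.mul 4 (btF n 8)) (fldF A.cP (iPF n))) (Nat.mul (btF n 3) off))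
    (Nat.mul (Nat.mul (btF n 3) (fldF A.cP2 (iPF n))) (Nat.sub 1 (btF n 8)))
def Tabs.nPF (A : Tabs) (n : ℕ) : ℕ :=
  Nat.add (Nat.add (Nat.mul (Nat.mul 4 (btF n 8)) off) (Nat.mul (btF n 3) (fldF A.cP (iPF n))))
    (Nat.mul (Nat.mul (Nat.mul 3 (btF n 3)) (fldF A.cP2 (iPF n))) (btF n 8))
def Tabs.pQF (A : Tabs) (n : ℕ) : ℕ :=
  Nat.add (Nat.add (Nat.mul (Nat.mul 4 (btF n 13)) (fldF A.cQ (iQF n))) (Nat.mul (btF n 14) off))
    (Nat.mul (Nat.mul (btF n 14) (fldF A.cQ2 (iQF n))) (Nat.sub 1 (btF n 13)))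
def Tabs.nQF (A : Tabs) (n : ℕ) : ℕ :=
  Nat.add (Nat.add (Nat.mul (Nat.mul 4 (btF n 13)) off) (Nat.mul (btF n 14) (fldF A.cQ (iQF n))))
    (Nat.mul (Nat.mul (Nat.mul 3 (btF n 14)) (fldF A.cQ2 (iQF n))) (btF n 13))
def Tabs.pGF (A : Tabs) (n : ℕ) : ℕ :=
  Nat.add (Nat.add (Nat.mul (Nat.mul 2 (btF n 14)) (fldF A.cG (iGF n)))
    (Nat.mul (Nat.add A.d0 (btF n 4)) off))
    (Nat.mul (Nat.mul (btF n 4) (fldF A.cG2 (iGF n))) (Nat.add A.d0 1))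
def Tabs.nGF (A : Tabs) (n : ℕ) : ℕ :=
  Nat.add (Nat.add (Nat.mul (Nat.mul 2 (btF n 14)) off)
    (Nat.mul (Nat.add A.d0 (btF n 4)) (fldF A.cG (iGF n))))
    (Nat.mul (Nat.mul (Nat.mul 2 (btF n 4)) (fldF A.cG2 (iGF n))) (btF n 14))
def Tabs.p5F (A : Tabs) (n u w : ℕ) : ℕ :=
  Nat.mul (fldF A.c5 (Nat.add (Nat.add (Nat.mul 256 u) (Nat.mul 128 w)) (Nat.mod n 128)))
    (Nat.add (Nat.mul (Nat.sub 1 (btF n (Nat.add 7 u))) (Nat.sub 1 (btF n (Nat.add 10 w))))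
      (Nat.mul (Nat.mul 9 (btF n (Nat.add 7 u))) (btF n (Nat.add 10 w))))
def Tabs.n5F (A : Tabs) (n u w : ℕ) : ℕ :=
  Nat.mul (Nat.mul 3 (fldF A.c5 (Nat.add (Nat.add (Nat.mul 256 u) (Nat.mul 128 w)) (Nat.mod n 128))))
    (Nat.add (Nat.mul (btF n (Nat.add 7 u)) (Nat.sub 1 (btF n (Nat.add 10 w))))
      (Nat.mul (Nat.sub 1 (btF n (Nat.add 7 u))) (btF n (Nat.add 10 w))))
def Tabs.p6F (A : Tabs) (n : ℕ) : ℕ :=
  Nat.mul (fldF A.c6 (Nat.mod n 32))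
    (Nat.add (Nat.mul (Nat.mul (Nat.sub 1 (btF n 5)) (Nat.sub 1 (btF n 7))) (Nat.sub 1 (btF n 10)))
      (Nat.mul 9 (Nat.add (Nat.add (Nat.mul (Nat.mul (btF n 5) (btF n 7)) (Nat.sub 1 (btF n 10)))
        (Nat.mul (Nat.mul (btF n 5) (Nat.sub 1 (btF n 7))) (btF n 10)))
        (Nat.mul (Nat.mul (Nat.sub 1 (btF n 5)) (btF n 7)) (btF n 10)))))
def Tabs.n6F (A : Tabs) (n : ℕ) : ℕ :=
  Nat.mul (fldF A.c6 (Nat.mod n 32))
    (Nat.add (Nat.mul 3 (Nat.add (Nat.add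
        (Nat.mul (Nat.mul (btF n 5) (Nat.sub 1 (btF n 7))) (Nat.sub 1 (btF n 10)))
        (Nat.mul (Nat.mul (Nat.sub 1 (btF n 5)) (btF n 7)) (Nat.sub 1 (btF n 10))))
        (Nat.mul (Nat.mul (Nat.sub 1 (btF n 5)) (Nat.sub 1 (btF n 7))) (btF n 10))))
      (Nat.mul 27 (Nat.mul (Nat.mul (btF n 5) (btF n 7)) (btF n 10))))

def Tabs.pTF (A : Tabs) (n : ℕ) : ℕ :=
  Nat.add (Nat.add (Nat.add (Nat.add (Nat.add (Nat.add (Nat.add (Nat.add (Nat.add (Nat.add (Nat.add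
    (A.pLF n 0) (A.pLF n 1)) (A.pLF n 2)) (A.pLF n 3)) (A.pPF n)) (A.pQF n)) (A.pGF n))
    (A.p5F n 0 0)) (A.p5F n 0 1)) (A.p5F n 1 0)) (A.p5F n 1 1)) (A.p6F n)
def Tabs.nTF (A : Tabs) (n : ℕ) : ℕ :=
  Nat.add (Nat.add (Nat.add (Nat.add (Nat.add (Nat.add (Nat.add (Nat.add (Nat.add (Nat.add (Nat.add
    (A.nLF n 0) (A.nLF n 1)) (A.nLF n 2)) (A.nLF n 3)) (A.nPF n)) (A.nQF n)) (A.nGF n))
    (A.n5F n 0 0)) (A.n5F n 0 1)) (A.n5F n 1 0)) (A.n5F n 1 1)) (A.n6F n)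

theorem fldF_eq (t i : ℕ) : fldF t i = fld t i := rfl
theorem btF_eq (n i : ℕ) : btF n i = bt n i := rfl
theorem gvF_eq (A : Tabs) (n : ℕ) : A.gvF n = A.gv n := by
  unfold Tabs.gvF
  rw [gsel_eq]; rfl
theorem pTF_eq (A : Tabs) (n : ℕ) : A.pTF n = A.pT n := rfl
theorem nTF_eq (A : Tabs) (n : ℕ) : A.nTF n = A.nT n := rfl

/-- minimum -/
def mnF (a b : ℕ) : ℕ := cond (Nat.ble a b) a b
/-- maximum -/
def mxF (a b : ℕ) : ℕ := cond (Nat.ble a b) b a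

theorem mnF_eq (a b : ℕ) : mnF a b = min a b := by
  unfold mnF
  cases h : Nat.ble a b
  · have h1 : ¬ a ≤ b := fun h2 => by rw [Nat.ble_eq_true_of_le h2] at h; exact absurd h (by decide)
    simp [min_eq_right (le_of_not_ge h1)]
  · simp [min_eq_left (Nat.le_of_ble_eq_true h)]

theorem mxF_eq (a b : ℕ) : mxF a b = max a b := by
  unfold mxF
  cases h : Nat.ble a b
  · have h1 : ¬ a ≤ b := fun h2 => by rw [Nat.ble_eq_true_of_le h2] at h; exact absurd h (by decide)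
    simp [max_eq_left (le_of_not_ge h1)]
  · simp [max_eq_right (Nat.le_of_ble_eq_true h)]

/-- the test, with all values as variables -/
def tF (o k1 k2 a b c ga gb gc pa pb pc na nb nc : ℕ) : Bool :=
  cond (Nat.ble a b) (cond (Nat.ble a c)
    (cond (Nat.beq (Nat.mod a 2) 0)
      (Nat.ble (Nat.add o (Nat.add (Nat.add pa pb) pc))
        (Nat.add (Nat.add (mnF ga (mnF gb gc)) k1) (Nat.add (Nat.add na nb) nc)))
      (Nat.ble (Nat.add (Nat.add (mxF ga (mxF gb gc)) k2) (Nat.add (Nat.add pa pb) pc))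
        (Nat.add o (Nat.add (Nat.add na nb) nc)))) true) true

theorem tF_eq (o k1 k2 a b c ga gb gc pa pb pc na nb nc : ℕ) :
    tF o k1 k2 a b c ga gb gc pa pb pc na nb nc =
    if Nat.ble a b && Nat.ble a c then
      if a % 2 = 0 then
        Nat.ble (o + (pa + pb + pc)) (min ga (min gb gc) + k1 + (na + nb + nc))
      else
        Nat.ble (max ga (max gb gc) + k2 + (pa + pb + pc)) (o + (na + nb + nc))
    else true := by
  unfold tF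
  rw [mnF_eq, mnF_eq, mxF_eq, mxF_eq]
  cases h1 : Nat.ble a b
  · rfl
  cases h2 : Nat.ble a c
  · rfl
  by_cases h5 : a % 2 = 0
  · have h3 : Nat.beq (Nat.mod a 2) 0 = true := by
      change Nat.beq (a % 2) 0 = true
      rw [h5]; rfl
    rw [h3, if_pos h5]; rfl
  · have h3 : Nat.beq (Nat.mod a 2) 0 = false := by
      change Nat.beq (a % 2) 0 = false
      cases h4 : Nat.beq (a % 2) 0
      · rfl
      · exact absurd (Nat.eq_of_beq_eq_true h4) h5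
    rw [h3, if_neg h5]; rfl

def Tabs.testF (A : Tabs) (a b c : ℕ) : Bool :=
  tF off 9800 10000 a b c (A.gvF a) (A.gvF b) (A.gvF c) (A.pTF a) (A.pTF b) (A.pTF c)
    (A.nTF a) (A.nTF b) (A.nTF c)

theorem testF_eq (A : Tabs) (a b c : ℕ) : A.testF a b c = A.test a b c := by
  unfold Tabs.testF Tabs.test
  rw [tF_eq]
  simp only [pTF_eq, nTF_eq, gvF_eq]

def Tabs.goF (A : Tabs) (l : List (ℕ × ℕ × ℕ)) : ℕ → ℕ → ℕ → Bool :=
  List.rec (fun a b c => A.testF a b c)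
    (fun x _ ih a b c => cond (ih a b c) (ih (Nat.add a x.1) (Nat.add b x.2.1) (Nat.add c x.2.2)) false) l

theorem goF_eq (A : Tabs) (l : List (ℕ × ℕ × ℕ)) : ∀ a b c, A.goF l a b c = A.go l a b c := by
  induction l with
  | nil => intro a b c; exact testF_eq A a b c
  | cons x l ih =>
    intro a b c
    obtain ⟨u, v, w⟩ := x
    change cond (A.goF l a b c) (A.goF l (a + u) (b + v) (c + w)) false = _
    rw [ih, ih, Tabs.go]
    cases A.go l a b c <;> simp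

end Pool.Agent.HLA
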