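import Pool.Agent.HLA.CKF

/-! Splitting of the finite check of the certificate. -/

set_option autoImplicit false

namespace Pool.Agent.HLA

/-- the lower nine bits -/
def wt9 : List (ℕ × ℕ × ℕ) := wts.drop 6

theorem go_cons {A : Tabs} {u v w : ℕ} {l : List (ℕ × ℕ × ℕ)} {a b c : ℕ}
    (h1 : A.go l a b c = true) (h2 : A.go l (a + u) (b + v) (c + w) = true) :
    A.go ((u, v, w) :: l) a b c = true := by
  rw [Tabs.go, h1, h2]; rfl

theorem go_of {A : Tabs} {l : List (ℕ × ℕ × ℕ)} {a b c : ℕ} (h : A.goF l a b c = true) :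
    A.go l a b c = true := (goF_eq A l a b c).symm.trans h

theorem go_split {A : Tabs} {a b c : ℕ}
    (h0 : A.goF wt9 a b c = true)
    (h1 : A.goF wt9 (a + 512) (b + 64) (c + 16384) = true)
    (h2 : A.goF wt9 (a + 1024) (b + 128) (c + 32) = true)
    (h3 : A.goF wt9 (a + 1024 + 512) (b + 128 + 64) (c + 32 + 16384) = true)
    (h4 : A.goF wt9 (a + 2048) (b + 4096) (c + 256) = true)
    (h5 : A.goF wt9 (a + 2048 + 512) (b + 4096 + 64) (c + 256 + 16384) = true)
    (h6 : A.goF wt9 (a + 2048 + 1024) (b + 4096 + 128) (c + 256 + 32) = true)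
    (h7 : A.goF wt9 (a + 2048 + 1024 + 512) (b + 4096 + 128 + 64) (c + 256 + 32 + 16384) = true) :
    A.go wtl a b c = true := by
  have e : wtl = (2048, 4096, 256) :: (1024, 128, 32) :: (512, 64, 16384) :: wt9 := rfl
  rw [e]
  exact go_cons (go_cons (go_cons (go_of h0) (go_of h1)) (go_cons (go_of h2) (go_of h3)))
    (go_cons (go_cons (go_of h4) (go_of h5)) (go_cons (go_of h6) (go_of h7)))

end Pool.Agent.HLA
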