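import Pool.Agent.HLA.ENC
import Pool.Agent.HLA.CK00
import Pool.Agent.HLA.CK01
import Pool.Agent.HLA.CK10
import Pool.Agent.HLA.CK11

/-! The inequality of the certificate for every pattern. -/

set_option autoImplicit false

namespace Pool.Agent.HLA

theorem go_step {A : Tabs} {u v w : ℕ} {l : List (ℕ × ℕ × ℕ)} {a b c : ℕ}
    (h : A.go ((u, v, w) :: l) a b c = true) (P : Fin 15 → Bool) (i : Fin 15) :
    A.go l (a + u * bn P i) (b + v * bn P i) (c + w * bn P i) = true := by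
  rw [Tabs.go, Bool.and_eq_true] at h
  unfold bn
  split_ifs
  · simpa using h.2
  · simpa using h.1

theorem wtl_eq : wtl = [(2048, 4096, 256), (1024, 128, 32),
   (512, 64, 16384), (256, 2048, 4096), (128, 32, 1024), (64, 16384, 512), (32, 1024, 128),
   (16, 16, 16), (8, 4, 2), (4, 2, 8), (2, 8, 4), (1, 1, 1)] := rfl

theorem bn_comp (P : Fin 15 → Bool) (r : Fin 15 → Fin 15) (i : Fin 15) :
    bn (P ∘ r) i = bn P (r i) := rfl

theorem enc_r0 (P : Fin 15 → Bool) : enc (P ∘ r0) =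
    bn P 0 + 2 * bn P 2 + 4 * bn P 3 + 8 * bn P 1 + 16 * bn P 4 + 32 * bn P 7 + 64 * bn P 9 +
    128 * bn P 10 + 256 * bn P 12 + 512 * bn P 14 + 1024 * bn P 5 + 2048 * bn P 8 +
    4096 * bn P 11 + 8192 * bn P 13 + 16384 * bn P 6 := rfl

theorem enc_r1 (P : Fin 15 → Bool) : enc ((P ∘ r0) ∘ r0) =
    bn P 0 + 2 * bn P 3 + 4 * bn P 1 + 8 * bn P 2 + 16 * bn P 4 + 32 * bn P 10 + 64 * bn P 14 +
    128 * bn P 5 + 256 * bn P 11 + 512 * bn P 6 + 1024 * bn P 7 + 2048 * bn P 12 +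
    4096 * bn P 8 + 8192 * bn P 13 + 16384 * bn P 9 := rfl

theorem r0_cube (P : Fin 15 → Bool) : ((P ∘ r0) ∘ r0) ∘ r0 = P := by
  funext i
  fin_cases i <;> rfl

theorem test_of {A : Tabs} (P : Fin 15 → Bool)
    (h : ∀ x y z : ℕ, x ≤ 1 → y ≤ 1 → z ≤ 1 → A.go wtl (16384 * x + 8192 * y + 4096 * z)
      (512 * x + 8192 * y + 256 * z) (64 * x + 8192 * y + 2048 * z) = true) :
    A.test (enc P) (enc (P ∘ r0)) (enc ((P ∘ r0) ∘ r0)) = true := by
  have h1 := h (bn P 14) (bn P 13) (bn P 12) (bn_le P 14) (bn_le P 13) (bn_le P 12)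
  rw [wtl_eq] at h1
  have h2 := go_step (go_step (go_step (go_step (go_step (go_step (go_step (go_step (go_step
    (go_step (go_step (go_step h1 P 11) P 10) P 9) P 8) P 7) P 6) P 5) P 4) P 3) P 2) P 1) P 0
  rw [Tabs.go] at h2
  rw [enc_r0, enc_r1]
  have e1 : enc P = 16384 * bn P 14 + 8192 * bn P 13 + 4096 * bn P 12 + 2048 * bn P 11 +
      1024 * bn P 10 + 512 * bn P 9 + 256 * bn P 8 + 128 * bn P 7 + 64 * bn P 6 + 32 * bn P 5 +
      16 * bn P 4 + 8 * bn P 3 + 4 * bn P 2 + 2 * bn P 1 + 1 * bn P 0 := by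
    unfold enc; ring
  rw [e1]
  convert h2 using 2 <;> ring

theorem test0 (P : Fin 15 → Bool) :
    tabs0.test (enc P) (enc (P ∘ r0)) (enc ((P ∘ r0) ∘ r0)) = true := by
  refine test_of P fun x y z hx hy hz => ?_
  interval_cases x <;> interval_cases y <;> interval_cases z
  · exact ck_0_0
  · exact ck_0_1
  · exact ck_0_2
  · exact ck_0_3
  · exact ck_0_4
  · exact ck_0_5
  · exact ck_0_6
  · exact ck_0_7

theorem test1 (P : Fin 15 → Bool) :
    tabs1.test (enc P) (enc (P ∘ r0)) (enc ((P ∘ r0) ∘ r0)) = true := by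
  refine test_of P fun x y z hx hy hz => ?_
  interval_cases x <;> interval_cases y <;> interval_cases z
  · exact ck_1_0
  · exact ck_1_1
  · exact ck_1_2
  · exact ck_1_3
  · exact ck_1_4
  · exact ck_1_5
  · exact ck_1_6
  · exact ck_1_7

theorem ineq_of {A : Tabs} (hA : ∀ P : Fin 15 → Bool,
    A.test (enc P) (enc (P ∘ r0)) (enc ((P ∘ r0) ∘ r0)) = true) (P : Fin 15 → Bool) :
    A.Ineq (enc P) (enc (P ∘ r0)) (enc ((P ∘ r0) ∘ r0)) := by
  have h1 := hA P
  have h2 := hA (P ∘ r0)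
  have h3 := hA ((P ∘ r0) ∘ r0)
  rw [r0_cube] at h2
  have e3 : (((P ∘ r0) ∘ r0) ∘ r0) ∘ r0 = P ∘ r0 := by rw [r0_cube]
  rw [e3, r0_cube] at h3
  have m1 : enc (P ∘ r0) % 2 = enc P % 2 := by rw [enc_mod2, enc_mod2]; rfl
  have m2 : enc ((P ∘ r0) ∘ r0) % 2 = enc P % 2 := by rw [enc_mod2, enc_mod2]; rfl
  generalize enc P = a at *
  generalize enc (P ∘ r0) = b at *
  generalize enc ((P ∘ r0) ∘ r0) = c at *
  unfold Tabs.test at h1 h2 h3
  unfold Tabs.Ineq
  rw [m1] at h2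
  rw [m2] at h3
  generalize A.pT a = pa at *
  generalize A.pT b = pb at *
  generalize A.pT c = pc at *
  generalize A.nT a = na at *
  generalize A.nT b = nb at *
  generalize A.nT c = nc at *
  generalize A.gv a = ga at *
  generalize A.gv b = gb at *
  generalize A.gv c = gc at *
  have key : (a ≤ b ∧ a ≤ c) ∨ (b ≤ c ∧ b ≤ a) ∨ (c ≤ a ∧ c ≤ b) := by omega
  by_cases hp : a % 2 = 0
  · rw [if_pos hp] at h1 h2 h3 ⊢
    rcases key with h | h | h
    · have hc : (Nat.ble a b && Nat.ble a c) = true := by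
        rw [Bool.and_eq_true, Nat.ble_eq, Nat.ble_eq]; exact h
      rw [if_pos hc, Nat.ble_eq] at h1
      omega
    · have hc : (Nat.ble b c && Nat.ble b a) = true := by
        rw [Bool.and_eq_true, Nat.ble_eq, Nat.ble_eq]; exact h
      rw [if_pos hc, Nat.ble_eq] at h2
      omega
    · have hc : (Nat.ble c a && Nat.ble c b) = true := by
        rw [Bool.and_eq_true, Nat.ble_eq, Nat.ble_eq]; exact h
      rw [if_pos hc, Nat.ble_eq] at h3
      omega
  · rw [if_neg hp] at h1 h2 h3 ⊢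
    rcases key with h | h | h
    · have hc : (Nat.ble a b && Nat.ble a c) = true := by
        rw [Bool.and_eq_true, Nat.ble_eq, Nat.ble_eq]; exact h
      rw [if_pos hc, Nat.ble_eq] at h1
      omega
    · have hc : (Nat.ble b c && Nat.ble b a) = true := by
        rw [Bool.and_eq_true, Nat.ble_eq, Nat.ble_eq]; exact h
      rw [if_pos hc, Nat.ble_eq] at h2
      omega
    · have hc : (Nat.ble c a && Nat.ble c b) = true := by
        rw [Bool.and_eq_true, Nat.ble_eq, Nat.ble_eq]; exact h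
      rw [if_pos hc, Nat.ble_eq] at h3
      omega

end Pool.Agent.HLA
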