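import Pool.Agent.HLA.TSM
import Pool.Agent.HLA.LNK
import Pool.Agent.HLA.ACK

/-! The cube lemma. -/

set_option autoImplicit false

namespace Pool.Agent.HLA

open Finset Pool.Agent.ChPi

/-- the scheme of a table -/
noncomputable def gg (A : Tabs) (P : Fin 15 → Bool) : ℝ := ((A.gv (enc P) : ℝ) - 8388608) / 10000

theorem gg_anti {A : Tabs} (hA : A.go4 wt4 0 0 0 0 = true) (P : Fin 15 → Bool) :
    gg A (P ∘ sx) = - gg A P ∧ gg A (P ∘ sy) = - gg A P ∧ gg A (P ∘ sz) = - gg A P := by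
  obtain ⟨h1, h2, h3⟩ := anti_of hA P
  have e1 : (A.gv (enc P) : ℝ) + (A.gv (enc (P ∘ sx)) : ℝ) = 16777216 := by exact_mod_cast h1
  have e2 : (A.gv (enc P) : ℝ) + (A.gv (enc (P ∘ sy)) : ℝ) = 16777216 := by exact_mod_cast h2
  have e3 : (A.gv (enc P) : ℝ) + (A.gv (enc (P ∘ sz)) : ℝ) = 16777216 := by exact_mod_cast h3
  unfold gg
  refine ⟨?_, ?_, ?_⟩ <;> linarith

theorem fld_lt (t i : ℕ) : fld t i < 16777216 := Nat.mod_lt _ (by norm_num)

theorem gg_abs (A : Tabs) (P : Fin 15 → Bool) : -2000 ≤ gg A P ∧ gg A P ≤ 2000 := by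
  have h : A.gv (enc P) < 16777216 := fld_lt _ _
  have h' : (A.gv (enc P) : ℝ) < 16777216 := by exact_mod_cast h
  have h0 : (0 : ℝ) ≤ A.gv (enc P) := Nat.cast_nonneg _
  unfold gg
  constructor <;> linarith

theorem gg_root1 {A : Tabs} (hA : ∀ P : Fin 15 → Bool,
    A.Ineq (enc P) (enc (P ∘ r0)) (enc ((P ∘ r0) ∘ r0))) (P : Fin 15 → Bool) (hP : P 0 = true) :
    gg A P ≤ -1 + (-1 / 10000) * (TT A P + TT A (P ∘ r0) + TT A ((P ∘ r0) ∘ r0)) := by
  have h := hA P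
  have h2 : enc P % 2 = 1 := by rw [enc_mod2]; simp [bn, hP]
  unfold Tabs.Ineq at h
  rw [if_neg (by omega)] at h
  have h' : (A.gv (enc P) : ℝ) + 10000 + ((A.pT (enc P) : ℝ) + A.pT (enc (P ∘ r0)) +
      A.pT (enc ((P ∘ r0) ∘ r0))) ≤ (off : ℝ) + ((A.nT (enc P) : ℝ) + A.nT (enc (P ∘ r0)) +
      A.nT (enc ((P ∘ r0) ∘ r0))) := by exact_mod_cast h
  have ho : (off : ℝ) = 8388608 := by norm_num [off]
  unfold gg TT
  rw [ho] at h'
  linarith

theorem gg_root0 {A : Tabs} (hA : ∀ P : Fin 15 → Bool,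
    A.Ineq (enc P) (enc (P ∘ r0)) (enc ((P ∘ r0) ∘ r0))) (P : Fin 15 → Bool) (hP : P 0 = false) :
    -(98 / 100) + (1 / 10000) * (TT A P + TT A (P ∘ r0) + TT A ((P ∘ r0) ∘ r0)) ≤ gg A P := by
  have h := hA P
  have h2 : enc P % 2 = 0 := by rw [enc_mod2]; simp [bn, hP]
  unfold Tabs.Ineq at h
  rw [if_pos h2] at h
  have h' : (off : ℝ) + ((A.pT (enc P) : ℝ) + A.pT (enc (P ∘ r0)) +
      A.pT (enc ((P ∘ r0) ∘ r0))) ≤ (A.gv (enc P) : ℝ) + 9800 + ((A.nT (enc P) : ℝ) +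
      A.nT (enc (P ∘ r0)) + A.nT (enc ((P ∘ r0) ∘ r0))) := by exact_mod_cast h
  have ho : (off : ℝ) = 8388608 := by norm_num [off]
  unfold gg TT
  rw [ho] at h'
  linarith

variable {α : Type} [Fintype α] [DecidableEq α] [Nonempty α]

theorem EE_sum3 {F : α → α → α → Bool} (h : Lines F) {t : ℝ} (ht : 0 ≤ t) (ht1 : t ≤ 1)
    (x y z : α) (A : Tabs) (hD : 2 * dD F = A.d0 + t) :
    0 ≤ EE F t x y z (fun P => TT A P + TT A (P ∘ r0) + TT A ((P ∘ r0) ∘ r0)) := by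
  have h1 := EE_TT h ht ht1 x y z A hD
  have h2 := EE_TT (rotF_lines h) ht ht1 y z x A (by rw [rotF_dD]; exact hD)
  have h3 := EE_TT (rotF_lines (rotF_lines h)) ht ht1 z x y A
    (by rw [rotF_dD, rotF_dD]; exact hD)
  have e2 := EE_rot F t x y z (TT A)
  have e3 : EE F t x y z (fun P => TT A ((P ∘ r0) ∘ r0)) = EE (rotF (rotF F)) t z x y (TT A) := by
    rw [← EE_rot (rotF F) t y z x (TT A), ← EE_rot F t x y z (fun P => TT A (P ∘ r0))]
  rw [EE_add F t x y z (fun P => TT A P + TT A (P ∘ r0)) (fun P => TT A ((P ∘ r0) ∘ r0)),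
    EE_add F t x y z (fun P => TT A P) (fun P => TT A (P ∘ r0)), e2, e3]
  exact add_nonneg (add_nonneg h1 h2) h3

theorem cube_piece {F : α → α → α → Bool} (h : Lines F) {t : ℝ} (ht : 0 ≤ t) (ht1 : t ≤ 1)
    (A : Tabs) (hD : 2 * dD F = A.d0 + t) (hA4 : A.go4 wt4 0 0 0 0 = true)
    (hA : ∀ P : Fin 15 → Bool, A.Ineq (enc P) (enc (P ∘ r0)) (enc ((P ∘ r0) ∘ r0))) :
    ∃ G : α → α → α → ℝ,
      (∀ x y, ∑ z, G x y z = 0) ∧ (∀ x z, ∑ y, G x y z = 0) ∧ (∀ y z, ∑ x, G x y z = 0) ∧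
      (∀ x y z, |G x y z| ≤ 2000) ∧ (∀ x y z, F x y z = true → G x y z ≤ -1) ∧
      (∀ x y z, F x y z = false → -(98 / 100) ≤ G x y z) := by
  refine ⟨fun x y z => EE F t x y z (gg A), ?_, ?_, ?_, ?_, ?_, ?_⟩
  · exact fun x y => line_z F t x y (gg A) fun P => (gg_anti hA4 P).2.2
  · exact fun x z => line_y F t x z (gg A) fun P => (gg_anti hA4 P).2.1
  · exact fun y z => line_x F t y z (gg A) fun P => (gg_anti hA4 P).1
  · intro x y z
    rw [abs_le]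
    constructor
    · have := EE_mono h ht ht1 x y z (fun _ => (-2000 : ℝ)) (gg A) fun P _ => (gg_abs A P).1
      rw [EE_const] at this
      exact this
    · have := EE_mono h ht ht1 x y z (gg A) (fun _ => (2000 : ℝ)) fun P _ => (gg_abs A P).2
      rw [EE_const] at this
      exact this
  · intro x y z hF
    have h1 := EE_mono h ht ht1 x y z (gg A) (fun P => -1 + (-1 / 10000) *
      (TT A P + TT A (P ∘ r0) + TT A ((P ∘ r0) ∘ r0)))
      fun P hP => gg_root1 hA P (hP.trans hF)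
    rw [EE_add F t x y z (fun _ => (-1 : ℝ)) (fun P => (-1 / 10000) *
      (TT A P + TT A (P ∘ r0) + TT A ((P ∘ r0) ∘ r0))), EE_const, EE_smul] at h1
    have h2 := EE_sum3 h ht ht1 x y z A hD
    linarith
  · intro x y z hF
    have h1 := EE_mono h ht ht1 x y z (fun P => -(98 / 100) + (1 / 10000) *
      (TT A P + TT A (P ∘ r0) + TT A ((P ∘ r0) ∘ r0))) (gg A)
      fun P hP => gg_root0 hA P (hP.trans hF)
    rw [EE_add F t x y z (fun _ => (-(98 / 100) : ℝ)) (fun P => (1 / 10000) *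
      (TT A P + TT A (P ∘ r0) + TT A ((P ∘ r0) ∘ r0))), EE_const, EE_smul] at h1
    have h2 := EE_sum3 h ht ht1 x y z A hD
    linarith

theorem cube : ∃ C s : ℝ, 0 < C ∧ 0 < s ∧ s < 1 ∧ ∀ {α : Type} [Fintype α] [DecidableEq α]
    [Nonempty α] (F : α → α → α → Bool), Lines F → ∃ G : α → α → α → ℝ,
      (∀ x y, ∑ z, G x y z = 0) ∧ (∀ x z, ∑ y, G x y z = 0) ∧ (∀ y z, ∑ x, G x y z = 0) ∧
      (∀ x y z, |G x y z| ≤ C) ∧ (∀ x y z, F x y z = true → G x y z ≤ -1) ∧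
      (∀ x y z, F x y z = false → -s ≤ G x y z) := by
  refine ⟨2000, 98 / 100, by norm_num, by norm_num, by norm_num, ?_⟩
  intro α _ _ _ F hF
  obtain ⟨hD0, hD1⟩ := dD_mem hF
  rcases le_total (2 * dD F) 1 with h | h
  · exact cube_piece hF (t := 2 * dD F) (by linarith) h tabs0
      (by show 2 * dD F = ((0 : ℕ) : ℝ) + 2 * dD F; push_cast; ring) go4_0
      (fun P => ineq_of test0 P)
  · exact cube_piece hF (t := 2 * dD F - 1) (by linarith) (by linarith) tabs1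
      (by show 2 * dD F = ((1 : ℕ) : ℝ) + (2 * dD F - 1); push_cast; ring) go4_1
      (fun P => ineq_of test1 P)

end Pool.Agent.HLA
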