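import Pool.Agent.HLA.Tab0
import Pool.Agent.HLA.Tab1

/-! The finite check of the certificate. -/

set_option autoImplicit false

namespace Pool.Agent.HLA

/-- entry `i` of a table with 24 bits per entry -/
def fld (t i : ℕ) : ℕ := (t >>> (24 * i)) % 16777216

/-- bit `i` -/
def bt (n i : ℕ) : ℕ := (n >>> i) % 2

/-- the tables of one piece -/
structure Tabs where
  g : ℕ → ℕ
  cL : ℕ → ℕ
  cP : ℕ
  cP2 : ℕ
  cQ : ℕ
  cQ2 : ℕ
  cG : ℕ
  cG2 : ℕ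
  c5 : ℕ
  c6 : ℕ
  d0 : ℕ

def tabs0 : Tabs := ⟨gT_0, cL_0, cP_0, cP2_0, cQ_0, cQ2_0, cG_0, cG2_0, c5_0, c6_0, 0⟩
def tabs1 : Tabs := ⟨gT_1, cL_1, cP_1, cP2_1, cQ_1, cQ2_1, cG_1, cG2_1, c5_1, c6_1, 1⟩

/-- the offset of the signed tables -/
def off : ℕ := 8388608

/-- value of `g` (with offset) -/
def Tabs.gv (A : Tabs) (n : ℕ) : ℕ := fld (A.g (n / 2048)) (n % 2048)

/-- index of the tables `cP`, `cP2` -/
def iP (n : ℕ) : ℕ := n % 8 + 8 * bt n 4 + 16 * bt n 10 + 32 * bt n 14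
/-- index of the tables `cQ`, `cQ2` -/
def iQ (n : ℕ) : ℕ := n % 32 + 32 * bt n 10
/-- index of the tables `cG`, `cG2` -/
def iG (n : ℕ) : ℕ := n % 16 + 16 * ((n / 32) % 32)

def Tabs.pL (A : Tabs) (n q : ℕ) : ℕ := fld (A.cL q) (n % 1024) * (1 - bt n (10 + q))
def Tabs.nL (A : Tabs) (n q : ℕ) : ℕ := 3 * fld (A.cL q) (n % 1024) * bt n (10 + q)
def Tabs.pP (A : Tabs) (n : ℕ) : ℕ := 4 * bt n 8 * fld A.cP (iP n) + bt n 3 * off + bt n 3 * fld A.cP2 (iP n) * (1 - bt n 8)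
def Tabs.nP (A : Tabs) (n : ℕ) : ℕ := 4 * bt n 8 * off + bt n 3 * fld A.cP (iP n) + 3 * bt n 3 * fld A.cP2 (iP n) * bt n 8
def Tabs.pQ (A : Tabs) (n : ℕ) : ℕ := 4 * bt n 13 * fld A.cQ (iQ n) + bt n 14 * off + bt n 14 * fld A.cQ2 (iQ n) * (1 - bt n 13)
def Tabs.nQ (A : Tabs) (n : ℕ) : ℕ := 4 * bt n 13 * off + bt n 14 * fld A.cQ (iQ n) + 3 * bt n 14 * fld A.cQ2 (iQ n) * bt n 13
def Tabs.pG (A : Tabs) (n : ℕ) : ℕ := 2 * bt n 14 * fld A.cG (iG n) + (A.d0 + bt n 4) * off + bt n 4 * fld A.cG2 (iG n) * (A.d0 + 1)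
def Tabs.nG (A : Tabs) (n : ℕ) : ℕ := 2 * bt n 14 * off + (A.d0 + bt n 4) * fld A.cG (iG n) + 2 * bt n 4 * fld A.cG2 (iG n) * bt n 14
def Tabs.p5 (A : Tabs) (n u w : ℕ) : ℕ :=
  fld A.c5 (256 * u + 128 * w + n % 128) * ((1 - bt n (7 + u)) * (1 - bt n (10 + w)) + 9 * bt n (7 + u) * bt n (10 + w))
def Tabs.n5 (A : Tabs) (n u w : ℕ) : ℕ :=
  3 * fld A.c5 (256 * u + 128 * w + n % 128) * (bt n (7 + u) * (1 - bt n (10 + w)) + (1 - bt n (7 + u)) * bt n (10 + w))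
def Tabs.p6 (A : Tabs) (n : ℕ) : ℕ :=
  fld A.c6 (n % 32) * ((1 - bt n 5) * (1 - bt n 7) * (1 - bt n 10) + 9 * (bt n 5 * bt n 7 * (1 - bt n 10) + bt n 5 * (1 - bt n 7) * bt n 10 + (1 - bt n 5) * bt n 7 * bt n 10))
def Tabs.n6 (A : Tabs) (n : ℕ) : ℕ :=
  fld A.c6 (n % 32) * (3 * (bt n 5 * (1 - bt n 7) * (1 - bt n 10) + (1 - bt n 5) * bt n 7 * (1 - bt n 10) + (1 - bt n 5) * (1 - bt n 7) * bt n 10) + 27 * (bt n 5 * bt n 7 * bt n 10))

def Tabs.pT (A : Tabs) (n : ℕ) : ℕ :=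
  A.pL n 0 + A.pL n 1 + A.pL n 2 + A.pL n 3 + A.pP n + A.pQ n + A.pG n + A.p5 n 0 0 + A.p5 n 0 1 + A.p5 n 1 0 + A.p5 n 1 1 + A.p6 n
def Tabs.nT (A : Tabs) (n : ℕ) : ℕ :=
  A.nL n 0 + A.nL n 1 + A.nL n 2 + A.nL n 3 + A.nP n + A.nQ n + A.nG n + A.n5 n 0 0 + A.n5 n 0 1 + A.n5 n 1 0 + A.n5 n 1 1 + A.n6 n

/-- the inequality of one pattern; `a`, `b`, `c` are the indices of the three rotations of the
pattern (`a` the index of the pattern itself) -/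
def Tabs.Ineq (A : Tabs) (a b c : ℕ) : Prop :=
  if a % 2 = 0 then
    off + (A.pT a + A.pT b + A.pT c) ≤ A.gv a + 9800 + (A.nT a + A.nT b + A.nT c)
  else
    A.gv a + 10000 + (A.pT a + A.pT b + A.pT c) ≤ off + (A.nT a + A.nT b + A.nT c)

/-- the three inequalities of a class of rotations, checked only if `a` is the smallest index -/
def Tabs.test (A : Tabs) (a b c : ℕ) : Bool :=
  if Nat.ble a b && Nat.ble a c then
    if a % 2 = 0 then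
      Nat.ble (off + (A.pT a + A.pT b + A.pT c))
        (min (A.gv a) (min (A.gv b) (A.gv c)) + 9800 + (A.nT a + A.nT b + A.nT c))
    else
      Nat.ble (max (A.gv a) (max (A.gv b) (A.gv c)) + 10000 + (A.pT a + A.pT b + A.pT c))
        (off + (A.nT a + A.nT b + A.nT c))
  else true

/-- all patterns: every bit may be `0` or `1`; an entry of the list gives the weights of the bit in
the three indices -/
def Tabs.go (A : Tabs) : List (ℕ × ℕ × ℕ) → ℕ → ℕ → ℕ → Bool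
  | [], a, b, c => A.test a b c
  | (u, v, w) :: l, a, b, c => A.go l a b c && A.go l (a + u) (b + v) (c + w)

/-- the weights of the bits (highest first) in the indices of the three rotations -/
def wts : List (ℕ × ℕ × ℕ) :=
  [(16384, 512, 64), (8192, 8192, 8192), (4096, 256, 2048), (2048, 4096, 256), (1024, 128, 32),
   (512, 64, 16384), (256, 2048, 4096), (128, 32, 1024), (64, 16384, 512), (32, 1024, 128),
   (16, 16, 16), (8, 4, 2), (4, 2, 8), (2, 8, 4), (1, 1, 1)]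

/-- the lower twelve bits -/
def wtl : List (ℕ × ℕ × ℕ) := wts.drop 3

end Pool.Agent.HLA
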