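import Pool.Agent.HLA.CDefs

/-! Basic facts on densities and on `EE`. -/

set_option autoImplicit false

namespace Pool.Agent.HLA

open Finset Pool.Agent.ChPi

variable {α : Type} [Fintype α] [DecidableEq α] [Nonempty α]

theorem bit_nonneg (b : Bool) : 0 ≤ bit b := by
  unfold bit; split_ifs <;> norm_num

omit [DecidableEq α] in
private theorem card_pos' : (0 : ℝ) < Fintype.card α := by
  exact_mod_cast Fintype.card_pos

omit [DecidableEq α] in
private theorem mem_aux (G : α → α → Bool) (h : ∀ b, 4 * ∑ c, bit (G b c) ≤ Fintype.card α) :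
    0 ≤ 4 * (∑ b, ∑ c, bit (G b c)) / (Fintype.card α : ℝ) ^ 2 ∧
      4 * (∑ b, ∑ c, bit (G b c)) / (Fintype.card α : ℝ) ^ 2 ≤ 1 := by
  have hm : (0 : ℝ) < Fintype.card α := card_pos'
  constructor
  · apply div_nonneg _ (by positivity)
    apply mul_nonneg (by norm_num)
    exact Finset.sum_nonneg fun b _ => Finset.sum_nonneg fun c _ => bit_nonneg _
  · rw [div_le_one (by positivity), Finset.mul_sum]
    calc ∑ b, 4 * ∑ c, bit (G b c) ≤ ∑ _b : α, (Fintype.card α : ℝ) :=
          Finset.sum_le_sum fun b _ => h b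
      _ = (Fintype.card α : ℝ) ^ 2 := by
          rw [Finset.sum_const, Finset.card_univ, nsmul_eq_mul]; ring

omit [DecidableEq α] in
theorem dX_mem {F : α → α → α → Bool} (h : Lines F) (a : α) : 0 ≤ dX F a ∧ dX F a ≤ 1 :=
  mem_aux (fun b c => F a b c) (fun b => h.xy a b)

omit [DecidableEq α] in
theorem dY_mem {F : α → α → α → Bool} (h : Lines F) (a : α) : 0 ≤ dY F a ∧ dY F a ≤ 1 :=
  mem_aux (fun b c => F b a c) (fun b => h.xy b a)

omit [DecidableEq α] in
theorem dZ_mem {F : α → α → α → Bool} (h : Lines F) (a : α) : 0 ≤ dZ F a ∧ dZ F a ≤ 1 :=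
  mem_aux (fun b c => F b c a) (fun b => h.xz b a)

omit [DecidableEq α] in
theorem dD_eq (F : α → α → α → Bool) : dD F = (∑ c, dZ F c) / Fintype.card α := by
  have hm : (0 : ℝ) < Fintype.card α := card_pos'
  unfold dD dZ
  rw [← Finset.sum_div, ← Finset.mul_sum]
  have h1 : ∑ c, ∑ a, ∑ b, bit (F a b c) = ∑ a, ∑ b, ∑ c, bit (F a b c) := by
    rw [Finset.sum_comm]
    exact Finset.sum_congr rfl fun a _ => Finset.sum_comm
  rw [h1]
  field_simp

omit [DecidableEq α] in
theorem dD_mem {F : α → α → α → Bool} (h : Lines F) : 0 ≤ dD F ∧ dD F ≤ 1 := by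
  have hm : (0 : ℝ) < Fintype.card α := card_pos'
  rw [dD_eq]
  constructor
  · exact div_nonneg (Finset.sum_nonneg fun c _ => (dZ_mem h c).1) hm.le
  · rw [div_le_one hm]
    calc ∑ c, dZ F c ≤ ∑ _c : α, (1 : ℝ) := Finset.sum_le_sum fun c _ => (dZ_mem h c).2
      _ = Fintype.card α := by
          rw [Finset.sum_const, Finset.card_univ, nsmul_eq_mul, mul_one]

/-- integrating a function of the point only -/
theorem pp_pt (F : α → α → α → Bool) (t : ℝ) (x y z : α) (i : Fin 7) (g : α → ℝ) :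
    ∑ o, pp F t x y z i o * g o.1 = (∑ a, g a) / Fintype.card α := by
  have hlw : ∀ d : ℝ, lw d true + lw d false = 1 := by
    intro d; unfold lw; simp
  have key : ∀ D : α → ℝ, ∑ o : α × Bool, (lw (D o.1) o.2 / (Fintype.card α : ℝ)) * g o.1 =
      (∑ a, g a) / Fintype.card α := by
    intro D
    rw [Fintype.sum_prod_type, Finset.sum_div]
    refine Finset.sum_congr rfl fun a _ => ?_
    rw [Fintype.sum_bool]
    have := hlw (D a)
    have e : lw (D a) true / (Fintype.card α : ℝ) * g a + lw (D a) false / Fintype.card α * g a =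
        (lw (D a) true + lw (D a) false) * (g a / Fintype.card α) := by ring
    simp only
    rw [e, this, one_mul]
  match i with
  | 0 => exact key (fun a => dX F a)
  | 1 => exact key (fun a => dY F a)
  | 2 => exact key (fun a => dZ F a)
  | 3 => exact key (fun _ => dX F x)
  | 4 => exact key (fun _ => dY F y)
  | 5 => exact key (fun _ => dZ F z)
  | 6 => exact key (fun _ => t)

theorem pp_sum (F : α → α → α → Bool) (t : ℝ) (x y z : α) (i : Fin 7) :
    ∑ o, pp F t x y z i o = 1 := by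
  have hm : (0 : ℝ) < Fintype.card α := card_pos'
  have h := pp_pt F t x y z i (fun _ => 1)
  simp only [mul_one] at h
  rw [h, Finset.sum_const, Finset.card_univ, nsmul_eq_mul, mul_one, div_self hm.ne']

theorem lw_nonneg {d : ℝ} (h0 : 0 ≤ d) (h1 : d ≤ 1) (h : Bool) : 0 ≤ lw d h := by
  unfold lw; split_ifs <;> linarith

theorem pp_nonneg {F : α → α → α → Bool} (h : Lines F) {t : ℝ} (ht : 0 ≤ t) (ht1 : t ≤ 1)
    (x y z : α) (i : Fin 7) (o : α × Bool) : 0 ≤ pp F t x y z i o := by
  have hm : (0 : ℝ) < Fintype.card α := card_pos'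
  unfold pp
  refine div_nonneg ?_ hm.le
  match i with
  | 0 => exact lw_nonneg (dX_mem h _).1 (dX_mem h _).2 _
  | 1 => exact lw_nonneg (dY_mem h _).1 (dY_mem h _).2 _
  | 2 => exact lw_nonneg (dZ_mem h _).1 (dZ_mem h _).2 _
  | 3 => exact lw_nonneg (dX_mem h _).1 (dX_mem h _).2 _
  | 4 => exact lw_nonneg (dY_mem h _).1 (dY_mem h _).2 _
  | 5 => exact lw_nonneg (dZ_mem h _).1 (dZ_mem h _).2 _
  | 6 => exact lw_nonneg ht ht1 _

theorem EE_add (F : α → α → α → Bool) (t : ℝ) (x y z : α) (f g : (Fin 15 → Bool) → ℝ) :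
    EE F t x y z (fun P => f P + g P) = EE F t x y z f + EE F t x y z g := by
  unfold EE
  exact L.Ex_add _ _ _

theorem EE_smul (F : α → α → α → Bool) (t : ℝ) (x y z : α) (c : ℝ) (f : (Fin 15 → Bool) → ℝ) :
    EE F t x y z (fun P => c * f P) = c * EE F t x y z f := by
  unfold EE
  exact L.Ex_mul_left _ _ _

theorem EE_const (F : α → α → α → Bool) (t : ℝ) (x y z : α) (c : ℝ) :
    EE F t x y z (fun _ => c) = c := by
  unfold EE
  exact L.Ex_const (fun i => pp_sum F t x y z i) c

/-- position `0` of the pattern is the value at the root -/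
theorem EE_mono {F : α → α → α → Bool} (h : Lines F) {t : ℝ} (ht : 0 ≤ t) (ht1 : t ≤ 1)
    (x y z : α) (f g : (Fin 15 → Bool) → ℝ) (hfg : ∀ P, P 0 = F x y z → f P ≤ g P) :
    EE F t x y z f ≤ EE F t x y z g := by
  unfold EE
  exact L.Ex_mono (fun i o => pp_nonneg h ht ht1 x y z i o) fun ω => hfg _ rfl

end Pool.Agent.HLA
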