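import Pool.Agent.HLA.EEB

/-! The inequalities F1, F5, F6 (line type).  Use `Pool.Agent.ChPi.L.resample` one coordinate
after the other. -/

set_option autoImplicit false

namespace Pool.Agent.HLA

open Finset Pool.Agent.ChPi

variable {α : Type} [Fintype α] [DecidableEq α] [Nonempty α]

/-- the expectation of a function of one coordinate -/
theorem Ex_coord {V Ω : Type} [Fintype V] [DecidableEq V] [Fintype Ω] {p : V → Ω → ℝ}
    (hp1 : ∀ v, ∑ o, p v o = 1) (i : V) (g : Ω → ℝ) :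
    Ex p (fun σ => g (σ i)) = ∑ o, p i o * g o := by
  have h := L.Ex_prod p (fun v o => if v = i then g o else 1)
  have h1 : (fun ω : V → Ω => ∏ v, (if v = i then g (ω v) else 1)) = fun ω => g (ω i) := by
    funext ω
    rw [Finset.prod_ite_eq' Finset.univ i (fun v => g (ω v)), if_pos (Finset.mem_univ i)]
  rw [h1] at h
  rw [h, ← Finset.mul_prod_erase Finset.univ _ (Finset.mem_univ i)]
  have h2 : ∏ v ∈ Finset.univ.erase i, ∑ o, p v o * (if v = i then g o else 1) = 1 := by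
    refine Finset.prod_eq_one fun v hv => ?_
    have hv' : v ≠ i := Finset.ne_of_mem_erase hv
    simp only [if_neg hv', mul_one]
    exact hp1 v
  rw [h2, mul_one]
  simp only [if_true]

/-- integrate out the point of one coordinate -/
theorem F_step (F : α → α → α → Bool) (t : ℝ) (x y z : α) (i : Fin 7)
    (C : (Fin 7 → α × Bool) → ℝ) (hC : ∀ ω ω', (∀ j, j ≠ i → ω j = ω' j) → C ω = C ω')
    (g : (Fin 7 → α × Bool) → α → ℝ) (hg : ∀ ω ω', (∀ j, j ≠ i → ω j = ω' j) → g ω = g ω') :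
    Ex (pp F t x y z) (fun ω => C ω * g ω (ω i).1) =
      Ex (pp F t x y z) (fun ω => C ω * ((∑ a, g ω a) / Fintype.card α)) := by
  rw [L.resample (fun j => pp_sum F t x y z j) {i} (fun ω => C ω * g ω (ω i).1)]
  congr 1
  funext ω
  have h1 : ∀ σ : Fin 7 → α × Bool, C (L.merge {i} σ ω) * g (L.merge {i} σ ω)
      (L.merge {i} σ ω i).1 = C ω * g ω (σ i).1 := by
    intro σ
    have h2 : ∀ j, j ≠ i → L.merge {i} σ ω j = ω j := fun j hj =>
      L.merge_of_notMem (fun h => hj (Finset.mem_singleton.1 h)) σ ω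
    rw [hC _ _ h2, hg _ _ h2, L.merge_of_mem (Finset.mem_singleton_self i)]
  simp only [h1]
  rw [L.Ex_mul_left, Ex_coord (fun j => pp_sum F t x y z j) i (fun o => g ω o.1), pp_pt]

private theorem card_pos'' : (0 : ℝ) < Fintype.card α := by
  exact_mod_cast Fintype.card_pos

private theorem avg_nonneg (B : α → Bool) (h : 4 * ∑ a, bit (B a) ≤ Fintype.card α) :
    0 ≤ (∑ a, (1 - 4 * bit (B a))) / Fintype.card α := by
  have hm : (0 : ℝ) < Fintype.card α := card_pos''
  refine div_nonneg ?_ hm.le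
  rw [Finset.sum_sub_distrib, Finset.sum_const, Finset.card_univ, nsmul_eq_mul, mul_one,
    ← Finset.mul_sum]
  linarith

theorem F1 {F : α → α → α → Bool} (h : Lines F) {t : ℝ} (ht : 0 ≤ t) (ht1 : t ≤ 1) (x y z : α)
    (c : (Fin 15 → Bool) → ℝ) (hc : ∀ P, 0 ≤ c P)
    (hd : Dep {0, 1, 2, 3, 4, 5, 6, 7, 8, 9} c) (q : Fin 15) (hq : q ∈ ({10, 11, 12, 13} : Finset (Fin 15))) :
    0 ≤ EE F t x y z fun P => c P * (1 - 4 * bit (P q)) := by
  -- the two points which are fixed
  obtain ⟨G, hG1, hG2, hG3⟩ : ∃ G : (Fin 7 → α × Bool) → α → Bool,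
      (∀ ω, pat F x y z ω q = G ω (ω 2).1) ∧
      (∀ ω ω', (∀ j, j ≠ 2 → ω j = ω' j) → G ω = G ω') ∧
      (∀ ω, 4 * ∑ a, bit (G ω a) ≤ Fintype.card α) := by
    simp only [Finset.mem_insert, Finset.mem_singleton] at hq
    rcases hq with rfl | rfl | rfl | rfl
    · exact ⟨fun _ a => F x y a, fun _ => rfl, fun _ _ _ => rfl, fun _ => h.xy _ _⟩
    · exact ⟨fun ω a => F (ω 0).1 y a, fun _ => rfl,
        fun ω ω' hω => by funext a; simp only [hω 0 (by decide)], fun _ => h.xy _ _⟩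
    · exact ⟨fun ω a => F x (ω 1).1 a, fun _ => rfl,
        fun ω ω' hω => by funext a; simp only [hω 1 (by decide)], fun _ => h.xy _ _⟩
    · exact ⟨fun ω a => F (ω 0).1 (ω 1).1 a, fun _ => rfl,
        fun ω ω' hω => by funext a; simp only [hω 0 (by decide), hω 1 (by decide)],
        fun _ => h.xy _ _⟩
  have h1 : EE F t x y z (fun P => c P * (1 - 4 * bit (P q))) =
      Ex (pp F t x y z) (fun ω => c (pat F x y z ω) *
        (fun ω a => 1 - 4 * bit (G ω a)) ω (ω 2).1) := by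
    unfold EE
    congr 1
    funext ω
    simp only [hG1 ω]
  rw [h1, F_step F t x y z 2 (fun ω => c (pat F x y z ω)) ?_ (fun ω a => 1 - 4 * bit (G ω a)) ?_]
  · refine L.Ex_nonneg (fun i o => pp_nonneg h ht ht1 x y z i o) fun ω => ?_
    exact mul_nonneg (hc _) (avg_nonneg _ (hG3 ω))
  · intro ω ω' hω
    apply hd
    intro i hi
    have e0 := hω 0 (by decide)
    have e1 := hω 1 (by decide)
    have e3 := hω 3 (by decide)
    have e4 := hω 4 (by decide)
    have e5 := hω 5 (by decide)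
    have e6 := hω 6 (by decide)
    simp only [Finset.mem_insert, Finset.mem_singleton] at hi
    rcases hi with rfl | rfl | rfl | rfl | rfl | rfl | rfl | rfl | rfl | rfl <;>
      simp [pat, e0, e1, e3, e4, e5, e6]
  · intro ω ω' hω
    funext a
    rw [hG2 ω ω' hω]

theorem F5 {F : α → α → α → Bool} (h : Lines F) {t : ℝ} (ht : 0 ≤ t) (ht1 : t ≤ 1) (x y z : α)
    (c : (Fin 15 → Bool) → ℝ) (hc : ∀ P, 0 ≤ c P)
    (hd : Dep {0, 1, 2, 3, 4, 5, 6} c) (q r : Fin 15) (hq : q = 7 ∨ q = 8) (hr : r = 10 ∨ r = 11) :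
    0 ≤ EE F t x y z fun P => c P * (1 - 4 * bit (P q)) * (1 - 4 * bit (P r)) := by
  obtain ⟨G, hG1, hG2, hG3⟩ : ∃ G : (Fin 7 → α × Bool) → α → Bool,
      (∀ ω, pat F x y z ω r = G ω (ω 2).1) ∧
      (∀ ω ω', ω 0 = ω' 0 → G ω = G ω') ∧
      (∀ ω, 4 * ∑ a, bit (G ω a) ≤ Fintype.card α) := by
    rcases hr with rfl | rfl
    · exact ⟨fun _ a => F x y a, fun _ => rfl, fun _ _ _ => rfl, fun _ => h.xy _ _⟩
    · exact ⟨fun ω a => F (ω 0).1 y a, fun _ => rfl,
        fun ω ω' hω => by funext a; simp only [hω], fun _ => h.xy _ _⟩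
  obtain ⟨H, hH1, hH2, hH3⟩ : ∃ H : (Fin 7 → α × Bool) → α → Bool,
      (∀ ω, pat F x y z ω q = H ω (ω 1).1) ∧
      (∀ ω ω', ω 0 = ω' 0 → H ω = H ω') ∧
      (∀ ω, 4 * ∑ a, bit (H ω a) ≤ Fintype.card α) := by
    rcases hq with rfl | rfl
    · exact ⟨fun _ a => F x a z, fun _ => rfl, fun _ _ _ => rfl, fun _ => h.xz _ _⟩
    · exact ⟨fun ω a => F (ω 0).1 a z, fun _ => rfl,
        fun ω ω' hω => by funext a; simp only [hω], fun _ => h.xz _ _⟩
  have hcdep : ∀ ω ω' : Fin 7 → α × Bool, (∀ j, j ≠ 1 → j ≠ 2 → ω j = ω' j) →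
      c (pat F x y z ω) = c (pat F x y z ω') := by
    intro ω ω' hω
    apply hd
    intro i hi
    have e0 := hω 0 (by decide) (by decide)
    have e3 := hω 3 (by decide) (by decide)
    have e4 := hω 4 (by decide) (by decide)
    have e5 := hω 5 (by decide) (by decide)
    have e6 := hω 6 (by decide) (by decide)
    simp only [Finset.mem_insert, Finset.mem_singleton] at hi
    rcases hi with rfl | rfl | rfl | rfl | rfl | rfl | rfl <;>
      simp [pat, e0, e3, e4, e5, e6]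
  have h1 : EE F t x y z (fun P => c P * (1 - 4 * bit (P q)) * (1 - 4 * bit (P r))) =
      Ex (pp F t x y z) (fun ω => (fun ω : Fin 7 → α × Bool =>
        c (pat F x y z ω) * (1 - 4 * bit (H ω (ω 1).1))) ω *
        (fun ω a => 1 - 4 * bit (G ω a)) ω (ω 2).1) := by
    unfold EE
    congr 1
    funext ω
    simp only [hG1 ω, hH1 ω]
  rw [h1, F_step F t x y z 2 (fun ω => c (pat F x y z ω) * (1 - 4 * bit (H ω (ω 1).1))) ?_
    (fun ω a => 1 - 4 * bit (G ω a)) ?_]
  · have h2 : (fun ω : Fin 7 → α × Bool => c (pat F x y z ω) * (1 - 4 * bit (H ω (ω 1).1)) *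
        ((∑ a, (1 - 4 * bit (G ω a))) / Fintype.card α)) =
        fun ω => (fun ω : Fin 7 → α × Bool => c (pat F x y z ω) *
          ((∑ a, (1 - 4 * bit (G ω a))) / Fintype.card α)) ω *
          (fun ω a => 1 - 4 * bit (H ω a)) ω (ω 1).1 := by
      funext ω
      try simp only
      ring
    rw [h2, F_step F t x y z 1 (fun ω : Fin 7 → α × Bool => c (pat F x y z ω) *
          ((∑ a, (1 - 4 * bit (G ω a))) / Fintype.card α)) ?_
          (fun ω a => 1 - 4 * bit (H ω a)) ?_]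
    · refine L.Ex_nonneg (fun i o => pp_nonneg h ht ht1 x y z i o) fun ω => ?_
      exact mul_nonneg (mul_nonneg (hc _) (avg_nonneg _ (hG3 ω))) (avg_nonneg _ (hH3 ω))
    · intro ω ω' hω
      try simp only
      rw [hG2 ω ω' (hω 0 (by decide)), hcdep ω ω' (fun j hj _ => hω j hj)]
    · intro ω ω' hω
      funext a
      try simp only
      rw [hH2 ω ω' (hω 0 (by decide))]
  · intro ω ω' hω
    try simp only
    rw [hcdep ω ω' (fun j _ hj => hω j hj), hH2 ω ω' (hω 0 (by decide)), hω 1 (by decide)]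
  · intro ω ω' hω
    funext a
    try simp only
    rw [hG2 ω ω' (hω 0 (by decide))]

theorem F6 {F : α → α → α → Bool} (h : Lines F) {t : ℝ} (ht : 0 ≤ t) (ht1 : t ≤ 1) (x y z : α)
    (c : (Fin 15 → Bool) → ℝ) (hc : ∀ P, 0 ≤ c P)
    (hd : Dep {0, 1, 2, 3, 4} c) :
    0 ≤ EE F t x y z fun P =>
      c P * (1 - 4 * bit (P 5)) * (1 - 4 * bit (P 7)) * (1 - 4 * bit (P 10)) := by
  have hcdep : ∀ ω ω' : Fin 7 → α × Bool, (∀ j, j ≠ 0 → j ≠ 1 → j ≠ 2 → ω j = ω' j) →
      c (pat F x y z ω) = c (pat F x y z ω') := by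
    intro ω ω' hω
    apply hd
    intro i hi
    have e3 := hω 3 (by decide) (by decide) (by decide)
    have e4 := hω 4 (by decide) (by decide) (by decide)
    have e5 := hω 5 (by decide) (by decide) (by decide)
    have e6 := hω 6 (by decide) (by decide) (by decide)
    simp only [Finset.mem_insert, Finset.mem_singleton] at hi
    rcases hi with rfl | rfl | rfl | rfl | rfl <;>
      simp [pat, e3, e4, e5, e6]
  set A2 : ℝ := (∑ a, (1 - 4 * bit (F x y a))) / Fintype.card α with hA2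
  set A1 : ℝ := (∑ a, (1 - 4 * bit (F x a z))) / Fintype.card α with hA1
  set A0 : ℝ := (∑ a, (1 - 4 * bit (F a y z))) / Fintype.card α with hA0
  have p2 : 0 ≤ A2 := avg_nonneg _ (h.xy _ _)
  have p1 : 0 ≤ A1 := avg_nonneg _ (h.xz _ _)
  have p0 : 0 ≤ A0 := avg_nonneg _ (h.yz _ _)
  have h1 : EE F t x y z (fun P =>
      c P * (1 - 4 * bit (P 5)) * (1 - 4 * bit (P 7)) * (1 - 4 * bit (P 10))) =
      Ex (pp F t x y z) (fun ω => (fun ω : Fin 7 → α × Bool =>
        c (pat F x y z ω) * (1 - 4 * bit (F (ω 0).1 y z)) * (1 - 4 * bit (F x (ω 1).1 z))) ω *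
        (fun (_ : Fin 7 → α × Bool) a => 1 - 4 * bit (F x y a)) ω (ω 2).1) := by
    unfold EE
    rfl
  rw [h1, F_step F t x y z 2 (fun ω : Fin 7 → α × Bool =>
        c (pat F x y z ω) * (1 - 4 * bit (F (ω 0).1 y z)) * (1 - 4 * bit (F x (ω 1).1 z))) ?_
        (fun (_ : Fin 7 → α × Bool) a => 1 - 4 * bit (F x y a)) ?_]
  · have h2 : (fun ω : Fin 7 → α × Bool =>
        c (pat F x y z ω) * (1 - 4 * bit (F (ω 0).1 y z)) * (1 - 4 * bit (F x (ω 1).1 z)) *
        ((∑ a, (1 - 4 * bit (F x y a))) / Fintype.card α)) =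
        fun ω => (fun ω : Fin 7 → α × Bool =>
          c (pat F x y z ω) * (1 - 4 * bit (F (ω 0).1 y z)) * A2) ω *
          (fun (_ : Fin 7 → α × Bool) a => 1 - 4 * bit (F x a z)) ω (ω 1).1 := by
      funext ω
      try simp only
      rw [← hA2]
      ring
    rw [h2, F_step F t x y z 1 (fun ω : Fin 7 → α × Bool =>
          c (pat F x y z ω) * (1 - 4 * bit (F (ω 0).1 y z)) * A2) ?_
          (fun (_ : Fin 7 → α × Bool) a => 1 - 4 * bit (F x a z)) ?_]
    · have h3 : (fun ω : Fin 7 → α × Bool =>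
          c (pat F x y z ω) * (1 - 4 * bit (F (ω 0).1 y z)) * A2 *
          ((∑ a, (1 - 4 * bit (F x a z))) / Fintype.card α)) =
          fun ω => (fun ω : Fin 7 → α × Bool => c (pat F x y z ω) * A2 * A1) ω *
            (fun (_ : Fin 7 → α × Bool) a => 1 - 4 * bit (F a y z)) ω (ω 0).1 := by
        funext ω
        try simp only
        rw [← hA1]
        ring
      rw [h3, F_step F t x y z 0 (fun ω : Fin 7 → α × Bool => c (pat F x y z ω) * A2 * A1) ?_
            (fun (_ : Fin 7 → α × Bool) a => 1 - 4 * bit (F a y z)) ?_]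
      · refine L.Ex_nonneg (fun i o => pp_nonneg h ht ht1 x y z i o) fun ω => ?_
        exact mul_nonneg (mul_nonneg (mul_nonneg (hc _) p2) p1) p0
      · intro ω ω' hω
        try simp only
        rw [hcdep ω ω' (fun j hj _ _ => hω j hj)]
      · intro ω ω' _
        rfl
    · intro ω ω' hω
      try simp only
      rw [hcdep ω ω' (fun j _ hj _ => hω j hj), hω 0 (by decide)]
    · intro ω ω' _
      rfl
  · intro ω ω' hω
    try simp only
    rw [hcdep ω ω' (fun j _ _ hj => hω j hj), hω 0 (by decide), hω 1 (by decide)]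
  · intro ω ω' _
    rfl

end Pool.Agent.HLA
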