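import Pool.Agent.HLA.AVU

/-! The inequalities F2, F3 (planes).  F2: the coordinates `0, 1, 5` are independent of the rest,
the expectation of `4 b110 - hz` is `dZ z - dZ z = 0`, and of `- hz (4 b110 - 1)` it is
`dZ z (1 - dZ z)`.  F3: averaging over the coordinates `0, 1` gives `4 b111 -> dZ z'`; then average
over the labelled point `z'` (the coordinate `2`): `c` depends on it only through `b001`. -/

set_option autoImplicit false

namespace Pool.Agent.HLA

open Finset Pool.Agent.ChPi

variable {α : Type} [Fintype α] [DecidableEq α] [Nonempty α]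

omit [Fintype α] [DecidableEq α] [Nonempty α] in
theorem dep_F2 (F : α → α → α → Bool) (x y z : α) {c : (Fin 15 → Bool) → ℝ}
    (hd : Dep {0, 1, 2, 4, 10, 14} c) (ω ω' : Fin 7 → α × Bool)
    (h : ∀ v ∈ ({2, 3, 4, 6} : Finset (Fin 7)), ω v = ω' v) :
    c (pat F x y z ω) = c (pat F x y z ω') := by
  have h2 := h 2 (by decide)
  have h3 := h 3 (by decide)
  have h4 := h 4 (by decide)
  have h6 := h 6 (by decide)
  apply hd
  intro i hi
  simp only [mem_insert, mem_singleton] at hi
  rcases hi with rfl | rfl | rfl | rfl | rfl | rfl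
  · change F x y z = F x y z
    rfl
  · change (ω 3).2 = (ω' 3).2
    rw [h3]
  · change (ω 4).2 = (ω' 4).2
    rw [h4]
  · change (ω 6).2 = (ω' 6).2
    rw [h6]
  · change F x y (ω 2).1 = F x y (ω' 2).1
    rw [h2]
  · change (ω 2).2 = (ω' 2).2
    rw [h2]

omit [Fintype α] [DecidableEq α] [Nonempty α] in
theorem dep_F3 (F : α → α → α → Bool) (x y z : α) {c : (Fin 15 → Bool) → ℝ}
    (hd : Dep {0, 1, 2, 3, 4, 10} c) (ω ω' : Fin 7 → α × Bool) (h2 : (ω 2).1 = (ω' 2).1)
    (h3 : ω 3 = ω' 3) (h4 : ω 4 = ω' 4) (h5 : ω 5 = ω' 5) (h6 : ω 6 = ω' 6) :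
    c (pat F x y z ω) = c (pat F x y z ω') := by
  apply hd
  intro i hi
  simp only [mem_insert, mem_singleton] at hi
  rcases hi with rfl | rfl | rfl | rfl | rfl | rfl
  · change F x y z = F x y z
    rfl
  · change (ω 3).2 = (ω' 3).2
    rw [h3]
  · change (ω 4).2 = (ω' 4).2
    rw [h4]
  · change (ω 5).2 = (ω' 5).2
    rw [h5]
  · change (ω 6).2 = (ω' 6).2
    rw [h6]
  · change F x y (ω 2).1 = F x y (ω' 2).1
    rw [h2]

theorem F2 {F : α → α → α → Bool} (t : ℝ) (x y z : α)
    (c : (Fin 15 → Bool) → ℝ) (hd : Dep {0, 1, 2, 4, 10, 14} c) :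
    EE F t x y z (fun P => c P * (4 * bit (P 8) - bit (P 3))) = 0 := by
  have hp := pp_sum F t x y z
  have hg : Ex (pp F t x y z) (fun ω => 4 * bit (F (ω 0).1 (ω 1).1 z) - bit (ω 5).2) = 0 := by
    have e1 : (fun ω : Fin 7 → α × Bool => 4 * bit (F (ω 0).1 (ω 1).1 z) - bit (ω 5).2)
        = fun ω => 4 * bit (F (ω 0).1 (ω 1).1 z) + (-1) * bit (ω 5).2 := by
      funext ω; ring
    rw [e1, L.Ex_add, E_plane, L.Ex_mul_left, E_lab5]
    ring
  refine (L.Ex_mul_indep hp {2, 3, 4, 6} (fun ω => c (pat F x y z ω))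
    (fun ω => 4 * bit (F (ω 0).1 (ω 1).1 z) - bit (ω 5).2) (dep_F2 F x y z hd) ?_).trans ?_
  · intro ω ω' h
    rw [h 0 (by decide), h 1 (by decide), h 5 (by decide)]
  · rw [hg, mul_zero]

theorem F2' {F : α → α → α → Bool} (h : Lines F) {t : ℝ} (ht : 0 ≤ t) (ht1 : t ≤ 1) (x y z : α)
    (c : (Fin 15 → Bool) → ℝ) (hc : ∀ P, 0 ≤ c P) (hd : Dep {0, 1, 2, 4, 10, 14} c) :
    0 ≤ EE F t x y z fun P => - (bit (P 3) * c P * (4 * bit (P 8) - 1)) := by
  have hp := pp_sum F t x y z
  have hg : Ex (pp F t x y z) (fun ω => bit (ω 5).2 * (1 + (-1) * (4 * bit (F (ω 0).1 (ω 1).1 z))))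
      = dZ F z * (1 + (-1) * dZ F z) := by
    rw [L.Ex_mul_indep hp {5} (fun ω => bit (ω 5).2)
      (fun ω => 1 + (-1) * (4 * bit (F (ω 0).1 (ω 1).1 z)))
      (fun ω ω' h => by rw [h 5 (by decide)])
      (fun ω ω' h => by rw [h 0 (by decide), h 1 (by decide)]), E_lab5]
    rw [L.Ex_add, L.Ex_mul_left, E_plane, L.Ex_const hp]
  have e2 : EE F t x y z (fun P => - (bit (P 3) * c P * (4 * bit (P 8) - 1)))
      = Ex (pp F t x y z) (fun ω => c (pat F x y z ω)
        * (bit (ω 5).2 * (1 + (-1) * (4 * bit (F (ω 0).1 (ω 1).1 z))))) := by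
    unfold EE
    congr 1
    funext ω
    change - (bit (ω 5).2 * c (pat F x y z ω) * (4 * bit (F (ω 0).1 (ω 1).1 z) - 1)) = _
    ring
  rw [e2, L.Ex_mul_indep hp {2, 3, 4, 6} (fun ω => c (pat F x y z ω))
    (fun ω => bit (ω 5).2 * (1 + (-1) * (4 * bit (F (ω 0).1 (ω 1).1 z)))) (dep_F2 F x y z hd)
    (fun ω ω' h => by rw [h 0 (by decide), h 1 (by decide), h 5 (by decide)]), hg]
  have hz := dZ_mem h z
  refine mul_nonneg (L.Ex_nonneg (pp_nonneg h ht ht1 x y z) fun ω => hc _) ?_
  exact mul_nonneg hz.1 (by linarith [hz.2])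

omit [DecidableEq α] [Nonempty α] in
/-- the average over a plane, as a nested sum -/
theorem sum_plane [Nonempty α] (F : α → α → α → Bool) (t : ℝ) (x y z : α) (w : α) (C u v : ℝ) :
    ∑ o1, pp F t x y z 1 o1 * ∑ o0, pp F t x y z 0 o0
      * (C * (u * (4 * bit (F o0.1 o1.1 w)) + v)) = C * (u * dZ F w + v) := by
  have hN : (Fintype.card α : ℝ) ≠ 0 := Nat.cast_ne_zero.2 Fintype.card_ne_zero
  have h0 : ∀ o1 : α × Bool, ∑ o0, pp F t x y z 0 o0 * (C * (u * (4 * bit (F o0.1 o1.1 w)) + v))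
      = (∑ a, C * (u * (4 * bit (F a o1.1 w)) + v)) / Fintype.card α := fun o1 =>
    sum_lab (dX F) (fun a => C * (u * (4 * bit (F a o1.1 w)) + v))
  simp only [h0]
  refine (sum_lab (dY F)
    (fun b => (∑ a, C * (u * (4 * bit (F a b w)) + v)) / Fintype.card α)).trans ?_
  simp only [Finset.sum_add_distrib, ← Finset.mul_sum, ← Finset.sum_div, Finset.sum_const,
    card_univ, nsmul_eq_mul]
  unfold dZ
  rw [Finset.sum_comm]
  field_simp

theorem F3_gen {F : α → α → α → Bool} (t : ℝ) (x y z : α)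
    (c : (Fin 15 → Bool) → ℝ) (hd : Dep {0, 1, 2, 3, 4, 10} c) (u v : Bool → ℝ) :
    EE F t x y z (fun P => c P * (u (P 14) * (4 * bit (P 13)) + v (P 14)))
      = Ex (pp F t x y z) fun ω => (∑ a, (dZ F a * (c (pat F x y z (Function.update ω 2 (a, true)))
          * (u true * dZ F a + v true))
        + (1 - dZ F a) * (c (pat F x y z (Function.update ω 2 (a, true)))
          * (u false * dZ F a + v false)))) / Fintype.card α := by
  have hp := pp_sum F t x y z
  unfold EE
  rw [Ex_avc hp 0, Ex_avc hp 1, Ex_avc hp 2]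
  congr 1
  funext ω
  refine Eq.trans ?_ (sum_lab2 (dZ F) (fun a h => c (pat F x y z (Function.update ω 2 (a, true)))
          * (u h * dZ F a + v h)))
  unfold avc
  refine Finset.sum_congr rfl fun o2 _ => ?_
  have hpp : pp F t x y z 2 o2 = lw (dZ F o2.1) o2.2 / (Fintype.card α : ℝ) := rfl
  rw [hpp]
  congr 1
  rw [← sum_plane F t x y z o2.1 (c (pat F x y z (Function.update ω 2 (o2.1, true))))
    (u o2.2) (v o2.2)]
  refine Finset.sum_congr rfl fun o1 _ => ?_
  congr 1
  refine Finset.sum_congr rfl fun o0 _ => ?_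
  congr 1
  set ω' := Function.update (Function.update (Function.update ω 2 o2) 1 o1) 0 o0 with hω'
  have h0 : ω' 0 = o0 := Function.update_self _ _ _
  have h1 : ω' 1 = o1 := by
    rw [hω', Function.update_of_ne (by decide), Function.update_self]
  have h2 : ω' 2 = o2 := by
    rw [hω', Function.update_of_ne (by decide), Function.update_of_ne (by decide),
      Function.update_self]
  have h3 : ω' 3 = ω 3 := by
    rw [hω', Function.update_of_ne (by decide), Function.update_of_ne (by decide),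
      Function.update_of_ne (by decide)]
  have h4 : ω' 4 = ω 4 := by
    rw [hω', Function.update_of_ne (by decide), Function.update_of_ne (by decide),
      Function.update_of_ne (by decide)]
  have h5 : ω' 5 = ω 5 := by
    rw [hω', Function.update_of_ne (by decide), Function.update_of_ne (by decide),
      Function.update_of_ne (by decide)]
  have h6 : ω' 6 = ω 6 := by
    rw [hω', Function.update_of_ne (by decide), Function.update_of_ne (by decide),
      Function.update_of_ne (by decide)]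
  change c (pat F x y z ω') * (u (ω' 2).2 * (4 * bit (F (ω' 0).1 (ω' 1).1 (ω' 2).1))
    + v (ω' 2).2) = _
  have hc : c (pat F x y z ω') = c (pat F x y z (Function.update ω 2 (o2.1, true))) := by
    refine dep_F3 F x y z hd _ _ ?_ ?_ ?_ ?_ ?_
    · rw [h2, Function.update_self]
    · rw [h3, Function.update_of_ne (by decide)]
    · rw [h4, Function.update_of_ne (by decide)]
    · rw [h5, Function.update_of_ne (by decide)]
    · rw [h6, Function.update_of_ne (by decide)]
  rw [hc, h0, h1, h2]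

theorem F3 {F : α → α → α → Bool} (t : ℝ) (x y z : α)
    (c : (Fin 15 → Bool) → ℝ) (hd : Dep {0, 1, 2, 3, 4, 10} c) :
    EE F t x y z (fun P => c P * (4 * bit (P 13) - bit (P 14))) = 0 := by
  have h := F3_gen (F := F) t x y z c hd (fun _ => 1) (fun b => - bit b)
  have e : (fun P : Fin 15 → Bool => c P * (4 * bit (P 13) - bit (P 14)))
      = fun P => c P * (1 * (4 * bit (P 13)) + - bit (P 14)) := by
    funext P; ring
  rw [e]
  refine h.trans ?_
  refine Eq.trans ?_ (L.Ex_const (pp_sum F t x y z) 0)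
  congr 1
  funext ω
  rw [Finset.sum_eq_zero, zero_div]
  intro a _
  simp only [bit, if_true, Bool.false_eq_true, if_false]
  ring

theorem F3' {F : α → α → α → Bool} (h : Lines F) {t : ℝ} (ht : 0 ≤ t) (ht1 : t ≤ 1) (x y z : α)
    (c : (Fin 15 → Bool) → ℝ) (hc : ∀ P, 0 ≤ c P) (hd : Dep {0, 1, 2, 3, 4, 10} c) :
    0 ≤ EE F t x y z fun P => - (bit (P 14) * c P * (4 * bit (P 13) - 1)) := by
  have h1 := F3_gen (F := F) t x y z c hd (fun b => - bit b) (fun b => bit b)
  have e : (fun P : Fin 15 → Bool => - (bit (P 14) * c P * (4 * bit (P 13) - 1)))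
      = fun P => c P * (- bit (P 14) * (4 * bit (P 13)) + bit (P 14)) := by
    funext P; ring
  rw [e]
  refine le_of_le_of_eq ?_ h1.symm
  refine L.Ex_nonneg (pp_nonneg h ht ht1 x y z) fun ω => ?_
  refine div_nonneg (Finset.sum_nonneg fun a _ => ?_) (Nat.cast_nonneg _)
  have hz := dZ_mem h a
  have hC := hc (pat F x y z (Function.update ω 2 (a, true)))
  simp only [bit, if_true, Bool.false_eq_true, if_false]
  have e3 : dZ F a * (c (pat F x y z (Function.update ω 2 (a, true))) * (-1 * dZ F a + 1))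
      + (1 - dZ F a) * (c (pat F x y z (Function.update ω 2 (a, true))) * (-0 * dZ F a + 0))
      = dZ F a * c (pat F x y z (Function.update ω 2 (a, true))) * (1 - dZ F a) := by ring
  rw [e3]
  exact mul_nonneg (mul_nonneg hz.1 hC) (by linarith [hz.2])

end Pool.Agent.HLA
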