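import Pool.Agent.HLA.AVU

/-! The inequality F4 (global density).  Independence of `hz', tau` (coordinates `2`, `6`) from the
rest: the expectation of `2 hz' - (d0 + tau)` is `2 dD - (d0 + t) = 0`, and that of
`- tau (2 hz' - (d0 + 1))` is `t (d0 + 1 - 2 dD) = t (1 - t) >= 0`. -/

set_option autoImplicit false

namespace Pool.Agent.HLA

open Finset Pool.Agent.ChPi

variable {α : Type} [Fintype α] [DecidableEq α] [Nonempty α]

omit [Fintype α] [DecidableEq α] [Nonempty α] in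
theorem dep_two_six (F : α → α → α → Bool) (x y z : α) {c : (Fin 15 → Bool) → ℝ}
    (hd : Dep {0, 1, 2, 3, 5, 6, 7, 8, 9} c) (ω ω' : Fin 7 → α × Bool)
    (h : ∀ v ∈ ({0, 1, 3, 4, 5} : Finset (Fin 7)), ω v = ω' v) :
    c (pat F x y z ω) = c (pat F x y z ω') := by
  have h0 := h 0 (by decide)
  have h1 := h 1 (by decide)
  have h3 := h 3 (by decide)
  have h4 := h 4 (by decide)
  have h5 := h 5 (by decide)
  apply hd
  intro i hi
  simp only [mem_insert, mem_singleton] at hi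
  rcases hi with rfl | rfl | rfl | rfl | rfl | rfl | rfl | rfl | rfl
  · change F x y z = F x y z
    rfl
  · change (ω 3).2 = (ω' 3).2
    rw [h3]
  · change (ω 4).2 = (ω' 4).2
    rw [h4]
  · change (ω 5).2 = (ω' 5).2
    rw [h5]
  · change F (ω 0).1 y z = F (ω' 0).1 y z
    rw [h0]
  · change (ω 0).2 = (ω' 0).2
    rw [h0]
  · change F x (ω 1).1 z = F x (ω' 1).1 z
    rw [h1]
  · change F (ω 0).1 (ω 1).1 z = F (ω' 0).1 (ω' 1).1 z
    rw [h0, h1]
  · change (ω 1).2 = (ω' 1).2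
    rw [h1]

theorem F4 {F : α → α → α → Bool} (t d0 : ℝ) (hD : 2 * dD F = d0 + t) (x y z : α)
    (c : (Fin 15 → Bool) → ℝ) (hd : Dep {0, 1, 2, 3, 5, 6, 7, 8, 9} c) :
    EE F t x y z (fun P => c P * (2 * bit (P 14) - (d0 + bit (P 4)))) = 0 := by
  have hp := pp_sum F t x y z
  have hg : Ex (pp F t x y z) (fun ω => 2 * bit (ω 2).2 - (d0 + bit (ω 6).2)) = 0 := by
    have e1 : (fun ω : Fin 7 → α × Bool => 2 * bit (ω 2).2 - (d0 + bit (ω 6).2))
        = fun ω => 2 * bit (ω 2).2 + (-d0 + (-1) * bit (ω 6).2) := by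
      funext ω; ring
    rw [e1, L.Ex_add, L.Ex_add, L.Ex_mul_left, L.Ex_mul_left, L.Ex_const hp, E_lab2, E_lab6]
    linarith
  refine (L.Ex_mul_indep hp {0, 1, 3, 4, 5} (fun ω => c (pat F x y z ω))
    (fun ω => 2 * bit (ω 2).2 - (d0 + bit (ω 6).2)) (dep_two_six F x y z hd) ?_).trans ?_
  · intro ω ω' h
    rw [h 2 (by decide), h 6 (by decide)]
  · rw [hg, mul_zero]

theorem F4' {F : α → α → α → Bool} (h : Lines F) {t d0 : ℝ} (ht : 0 ≤ t) (ht1 : t ≤ 1)
    (hD : 2 * dD F = d0 + t) (x y z : α)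
    (c : (Fin 15 → Bool) → ℝ) (hc : ∀ P, 0 ≤ c P) (hd : Dep {0, 1, 2, 3, 5, 6, 7, 8, 9} c) :
    0 ≤ EE F t x y z fun P => - (bit (P 4) * c P * (2 * bit (P 14) - (d0 + 1))) := by
  have hp := pp_sum F t x y z
  have hg : Ex (pp F t x y z) (fun ω => bit (ω 6).2 * (d0 + 1 - 2 * bit (ω 2).2))
      = t * (1 - t) := by
    rw [L.Ex_mul_indep hp {6} (fun ω => bit (ω 6).2) (fun ω => d0 + 1 - 2 * bit (ω 2).2)
      (fun ω ω' h => by rw [h 6 (by decide)]) (fun ω ω' h => by rw [h 2 (by decide)])]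
    have e1 : (fun ω : Fin 7 → α × Bool => d0 + 1 - 2 * bit (ω 2).2)
        = fun ω => (d0 + 1) + (-2) * bit (ω 2).2 := by
      funext ω; ring
    rw [e1, L.Ex_add, L.Ex_mul_left, L.Ex_const hp, E_lab2, E_lab6]
    have : d0 + 1 + -2 * dD F = 1 - t := by linarith
    rw [this]
  have e2 : EE F t x y z (fun P => - (bit (P 4) * c P * (2 * bit (P 14) - (d0 + 1))))
      = Ex (pp F t x y z) (fun ω => c (pat F x y z ω)
        * (bit (ω 6).2 * (d0 + 1 - 2 * bit (ω 2).2))) := by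
    unfold EE
    congr 1
    funext ω
    change - (bit (ω 6).2 * c (pat F x y z ω) * (2 * bit (ω 2).2 - (d0 + 1))) = _
    ring
  rw [e2, L.Ex_mul_indep hp {0, 1, 3, 4, 5} (fun ω => c (pat F x y z ω))
    (fun ω => bit (ω 6).2 * (d0 + 1 - 2 * bit (ω 2).2)) (dep_two_six F x y z hd)
    (fun ω ω' h => by rw [h 2 (by decide), h 6 (by decide)]), hg]
  refine mul_nonneg (L.Ex_nonneg (pp_nonneg h ht ht1 x y z) fun ω => hc _) ?_
  exact mul_nonneg ht (by linarith)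

end Pool.Agent.HLA
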