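import Pool.Agent.HLA.OQU

set_option autoImplicit false

/-!
# Consequences of the asymptotic theorem for `thr`, `betaInf` and `betaStar`
-/

namespace Pool.Agent.HLA

open Finset Filter Topology

/-- the asymptotic theorem -/
def Asy : Prop :=
  ∀ β : ℝ, β < 1 / 4 → ∃ n₀ : ℕ, ∀ n : ℕ, n₀ ≤ n → ∀ L : Fin n → Fin n → Finset (Fin n),
    Sparse β L → Avoidable L

theorem Bdd.mono {n m m' : ℕ} (h : m ≤ m') {L : Fin n → Fin n → Finset (Fin n)} (hL : Bdd m L) :
    Bdd m' L :=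
  ⟨fun i j => (hL.1 i j).trans h, fun i c => (hL.2.1 i c).trans h,
    fun j c => (hL.2.2 j c).trans h⟩

theorem Bdd.sparse {n m : ℕ} {β : ℝ} (h : (m : ℝ) ≤ β * n) {L : Fin n → Fin n → Finset (Fin n)}
    (hL : Bdd m L) : Sparse β L :=
  ⟨fun i j => (Nat.cast_le.mpr (hL.1 i j)).trans h,
    fun i c => (Nat.cast_le.mpr (hL.2.1 i c)).trans h,
    fun j c => (Nat.cast_le.mpr (hL.2.2 j c)).trans h⟩

theorem Sparse.bdd {n m : ℕ} {β : ℝ} (h : β * n < m + 1) {L : Fin n → Fin n → Finset (Fin n)}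
    (hL : Sparse β L) : Bdd m L := by
  have key : ∀ k : ℕ, (k : ℝ) ≤ β * n → k ≤ m := fun k hk => by
    have : (k : ℝ) < (m + 1 : ℕ) := by
      push_cast
      linarith
    exact Nat.lt_succ_iff.mp (Nat.cast_lt.mp this)
  exact ⟨fun i j => key _ (hL.1 i j), fun i c => key _ (hL.2.1 i c),
    fun j c => key _ (hL.2.2 j c)⟩

/-- the empty lists are avoidable -/
theorem avoid_zero {n : ℕ} (L : Fin n → Fin n → Finset (Fin n)) (hL : Bdd 0 L) :
    Avoidable L := by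
  rcases Nat.eq_zero_or_pos n with rfl | hn
  · exact ⟨fun i => i.elim0, ⟨fun i => i.elim0, fun i => i.elim0⟩, fun i => i.elim0⟩
  · have : NeZero n := ⟨hn.ne'⟩
    refine ⟨fun i j => i + j, ⟨fun i j j' h he => h (add_left_cancel he),
      fun j i i' h he => h (add_right_cancel he)⟩, fun i j hc => ?_⟩
    have := hL.1 i j
    rw [Nat.le_zero, Finset.card_eq_zero] at this
    rw [this] at hc
    simp at hc

theorem unavoid (n : ℕ) (hn : 1 ≤ n) :
    ∃ L : Fin n → Fin n → Finset (Fin n), Bdd (n / 4 + 1) L ∧ ¬ Avoidable L := by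
  obtain ⟨L, h1, h2, h3, h4⟩ := OQU.exists_unavoidable n hn
  exact ⟨L, ⟨h1, h2, h3⟩, h4⟩

theorem good_le {n m : ℕ} (hn : 1 ≤ n)
    (h : ∀ L : Fin n → Fin n → Finset (Fin n), Bdd m L → Avoidable L) : m ≤ n / 4 := by
  by_contra hlt
  obtain ⟨L, h1, h2⟩ := unavoid n hn
  exact h2 (h L (h1.mono (by omega)))

theorem le_thr {n m : ℕ} (hn : 1 ≤ n)
    (h : ∀ L : Fin n → Fin n → Finset (Fin n), Bdd m L → Avoidable L) : m ≤ thr n :=
  le_csSup ⟨n / 4, fun _ hk => good_le hn hk⟩ h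

theorem thr_spec {n : ℕ} (hn : 1 ≤ n) (L : Fin n → Fin n → Finset (Fin n))
    (hL : Bdd (thr n) L) : Avoidable L := by
  have h : thr n ∈ {m : ℕ | ∀ L : Fin n → Fin n → Finset (Fin n), Bdd m L → Avoidable L} :=
    Nat.sSup_mem ⟨0, fun L hL => avoid_zero L hL⟩ ⟨n / 4, fun _ hk => good_le hn hk⟩
  exact h L hL

theorem thr_le {n : ℕ} (hn : 1 ≤ n) : thr n ≤ n / 4 := good_le hn (thr_spec hn)

/-- the ratio `(thr n + 1) / n` -/
noncomputable def xr (n : ℕ) : ℝ := ((thr n : ℝ) + 1) / n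

theorem xr_pos {n : ℕ} (hn : 1 ≤ n) : 0 < xr n := by
  have : (0 : ℝ) < n := by exact_mod_cast hn
  unfold xr
  positivity

/-- `β` is good at `n` if and only if `β < (thr n + 1) / n` -/
theorem good_iff {β : ℝ} (hβ : 0 ≤ β) {n : ℕ} (hn : 1 ≤ n) :
    (∀ L : Fin n → Fin n → Finset (Fin n), Sparse β L → Avoidable L) ↔ β < xr n := by
  have hn0 : (0 : ℝ) < n := by exact_mod_cast hn
  constructor
  · intro h
    by_contra hlt
    rw [not_lt, xr, div_le_iff₀ hn0] at hlt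
    have h1 : thr n + 1 ≤ thr n := le_thr hn fun L hL =>
      h L (hL.sparse (by push_cast; linarith))
    omega
  · intro h L hL
    rw [xr, lt_div_iff₀ hn0] at h
    exact thr_spec hn L (hL.bdd h)

theorem betaStar_le_xr {n : ℕ} (hn : 1 ≤ n) : betaStar ≤ xr n := by
  refine Real.sSup_le ?_ (xr_pos hn).le
  rintro β ⟨h0, h⟩
  exact ((good_iff h0 hn).1 (h n hn)).le

theorem le_betaStar {β : ℝ} (h0 : 0 ≤ β) (h : ∀ n : ℕ, 1 ≤ n → β < xr n) : β ≤ betaStar := by
  refine le_csSup ⟨1 / 4, ?_⟩ ⟨h0, fun n hn => (good_iff h0 hn).2 (h n hn)⟩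
  rintro γ ⟨hγ0, hγ⟩
  by_contra hlt
  rw [not_le] at hlt
  have hpos : 0 < γ - 1 / 4 := by linarith
  obtain ⟨n, hn⟩ := exists_nat_ge (1 / (γ - 1 / 4))
  have hn1 : 1 ≤ n := by
    have : (0 : ℝ) < n := lt_of_lt_of_le (by positivity) hn
    exact_mod_cast this
  have h1 : 1 ≤ (γ - 1 / 4) * n := by
    have := (div_le_iff₀ hpos).mp hn
    linarith
  obtain ⟨L, hL, hna⟩ := OQU.exists_sparse n hn1 h1
  exact hna (hγ n hn1 L hL)

theorem betaInf_eq (H : Asy) : betaInf = 1 / 4 := by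
  apply le_antisymm
  · refine Real.sSup_le ?_ (by norm_num)
    rintro β ⟨_, n₀, hβ⟩
    by_contra hlt
    rw [not_le] at hlt
    have hpos : 0 < β - 1 / 4 := by linarith
    obtain ⟨n, hn⟩ := exists_nat_ge (1 / (β - 1 / 4))
    have hn2 : (1 / (β - 1 / 4)) ≤ ((n + n₀ : ℕ) : ℝ) := by
      push_cast
      have : (0 : ℝ) ≤ n₀ := Nat.cast_nonneg _
      linarith
    have hn1 : 1 ≤ n + n₀ := by
      have : (0 : ℝ) < ((n + n₀ : ℕ) : ℝ) := lt_of_lt_of_le (by positivity) hn2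
      exact_mod_cast this
    have h1 : 1 ≤ (β - 1 / 4) * ((n + n₀ : ℕ) : ℝ) := by
      have := (div_le_iff₀ hpos).mp hn2
      linarith
    obtain ⟨L, hL, hna⟩ := OQU.exists_sparse (n + n₀) hn1 h1
    exact hna (hβ (n + n₀) (by omega) L hL)
  · refine le_of_forall_lt fun c hc => ?_
    obtain ⟨d, hd1, hd2⟩ := exists_between (max_lt hc (by norm_num : (0 : ℝ) < 1 / 4))
    obtain ⟨n₀, h⟩ := H d hd2
    refine lt_of_lt_of_le ((le_max_left c 0).trans_lt hd1) ?_
    refine le_csSup ⟨1 / 4, ?_⟩ ⟨((le_max_right c 0).trans_lt hd1).le, n₀, h⟩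
    rintro β ⟨_, n₁, hβ⟩
    by_contra hlt
    rw [not_le] at hlt
    have hpos : 0 < β - 1 / 4 := by linarith
    obtain ⟨n, hn⟩ := exists_nat_ge (1 / (β - 1 / 4))
    have hn2 : (1 / (β - 1 / 4)) ≤ ((n + n₁ : ℕ) : ℝ) := by
      push_cast
      have : (0 : ℝ) ≤ n₁ := Nat.cast_nonneg _
      linarith
    have hn1 : 1 ≤ n + n₁ := by
      have : (0 : ℝ) < ((n + n₁ : ℕ) : ℝ) := lt_of_lt_of_le (by positivity) hn2
      exact_mod_cast this
    have h1 : 1 ≤ (β - 1 / 4) * ((n + n₁ : ℕ) : ℝ) := by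
      have := (div_le_iff₀ hpos).mp hn2
      linarith
    obtain ⟨L, hL, hna⟩ := OQU.exists_sparse (n + n₁) hn1 h1
    exact hna (hβ (n + n₁) (by omega) L hL)

/-- eventually `thr n ≥ β n - 1` -/
theorem xr_lower (H : Asy) {β : ℝ} (h0 : 0 ≤ β) (hβ : β < 1 / 4) :
    ∃ n₀ : ℕ, ∀ n : ℕ, n₀ ≤ n → 1 ≤ n → β < xr n := by
  obtain ⟨n₀, h⟩ := H β hβ
  exact ⟨n₀, fun n hn h1 => (good_iff h0 h1).1 (h n hn)⟩

theorem thr_tendsto (H : Asy) :
    Tendsto (fun n : ℕ => (thr n : ℝ) / n) atTop (𝓝 (1 / 4)) := by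
  rw [Metric.tendsto_atTop]
  intro ε hε
  obtain ⟨n₀, h⟩ := xr_lower H (le_max_right (1 / 4 - ε / 2) 0)
    (max_lt (by linarith) (by norm_num : (0 : ℝ) < 1 / 4))
  obtain ⟨n₁, hn₁⟩ := exists_nat_gt (2 / ε)
  refine ⟨max (max n₀ n₁) 1, fun n hn => ?_⟩
  have hn1 : 1 ≤ n := (le_max_right _ _).trans hn
  have hnn : (0 : ℝ) < n := by exact_mod_cast hn1
  have h2 := h n ((le_max_left _ _).trans ((le_max_left _ _).trans hn)) hn1
  have h3 : (thr n : ℝ) / n ≤ 1 / 4 := by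
    rw [div_le_iff₀ hnn]
    have h4 : (thr n : ℝ) ≤ ((n / 4 : ℕ) : ℝ) := by exact_mod_cast thr_le hn1
    have : ((n / 4 : ℕ) : ℝ) ≤ n / 4 := Nat.cast_div_le
    linarith
  have h5 : (1 : ℝ) / n < ε / 2 := by
    have : (n₁ : ℝ) ≤ n := by exact_mod_cast (le_max_right _ _).trans ((le_max_left _ _).trans hn)
    rw [div_lt_iff₀ hnn]
    have h6 : 2 / ε < n := hn₁.trans_le this
    rw [div_lt_iff₀ hε] at h6
    linarith
  have h6 : xr n = (thr n : ℝ) / n + 1 / n := by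
    unfold xr
    ring
  have h7 : 1 / 4 - ε / 2 < xr n := (le_max_left _ _).trans_lt h2
  rw [Real.dist_eq, abs_lt]
  constructor <;> linarith

/-- `β* = 1/4` if and only if all assignments with all counts below `n/4` are avoidable -/
theorem betaStar_eq_iff :
    betaStar = 1 / 4 ↔ ∀ n m : ℕ, 4 * m < n → ∀ L : Fin n → Fin n → Finset (Fin n),
      Bdd m L → Avoidable L := by
  constructor
  · intro h n m hm L hL
    have hn : 1 ≤ n := by omega
    have hn0 : (0 : ℝ) < n := by exact_mod_cast hn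
    have h1 := betaStar_le_xr hn
    rw [h, xr, le_div_iff₀ hn0] at h1
    have h2 : ((4 * m : ℕ) : ℝ) < n := by exact_mod_cast hm
    push_cast at h2
    have h3 : (m : ℝ) < ((thr n + 1 : ℕ) : ℝ) := by
      push_cast
      linarith
    exact thr_spec hn L (hL.mono (Nat.lt_succ_iff.mp (Nat.cast_lt.mp h3)))
  · intro h
    refine le_antisymm OQU.betaStar_le (le_of_forall_lt fun c hc => ?_)
    obtain ⟨d, hd1, hd2⟩ := exists_between (max_lt hc (by norm_num : (0 : ℝ) < 1 / 4))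
    refine ((le_max_left c 0).trans_lt hd1).trans_le
      (le_betaStar ((le_max_right c 0).trans_lt hd1).le fun n hn => hd2.trans_le ?_)
    have hn0 : (0 : ℝ) < n := by exact_mod_cast hn
    have h1 : (n - 1) / 4 ≤ thr n := le_thr hn fun L hL => h n _ (by omega) L hL
    have h2 : n ≤ 4 * (thr n + 1) := by omega
    have h3 : (n : ℝ) ≤ ((4 * (thr n + 1) : ℕ) : ℝ) := by exact_mod_cast h2
    push_cast at h3
    rw [xr, le_div_iff₀ hn0]
    linarith

/-- `β*` is either `1/4` or the minimum of the numbers `(thr n + 1) / n`, attained. -/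
theorem betaStar_cases (H : Asy) :
    betaStar = 1 / 4 ∨ betaStar < 1 / 4 ∧ ∃ n : ℕ, 1 ≤ n ∧ betaStar = ((thr n : ℝ) + 1) / n := by
  rcases lt_or_ge betaStar (1 / 4) with hlt | hge
  · right
    refine ⟨hlt, ?_⟩
    by_contra hno
    push Not at hno
    have hne : ∀ n : ℕ, 1 ≤ n → betaStar < xr n := fun n hn =>
      lt_of_le_of_ne (betaStar_le_xr hn) (hno n hn)
    obtain ⟨β, hβ1, hβ2⟩ := exists_between (max_lt hlt (by norm_num : (0 : ℝ) < 1 / 4))
    have hβ0 : 0 ≤ β := ((le_max_right _ _).trans_lt hβ1).le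
    obtain ⟨n₀, h⟩ := xr_lower H hβ0 hβ2
    have hfin : ∃ γ : ℝ, betaStar < γ ∧ 0 < γ ∧ ∀ n ∈ Finset.Icc 1 n₀, γ < xr n := by
      have key : ∀ s : Finset ℕ, (∀ n ∈ s, 1 ≤ n) →
          ∃ γ : ℝ, betaStar < γ ∧ 0 < γ ∧ ∀ n ∈ s, γ < xr n := by
        intro s
        induction s using Finset.induction_on with
        | empty => exact fun _ => ⟨max betaStar 0 + 1,
            by linarith [le_max_left betaStar 0], by linarith [le_max_right betaStar 0], by simp⟩
        | insert a s ha ih =>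
          intro hs
          obtain ⟨γ, g1, g2, g3⟩ := ih fun n hn => hs n (Finset.mem_insert_of_mem hn)
          have ha1 : 1 ≤ a := hs a (Finset.mem_insert_self a s)
          obtain ⟨δ, d1, d2⟩ := exists_between (max_lt (hne a ha1) (xr_pos ha1))
          refine ⟨min γ δ, lt_min g1 ((le_max_left _ _).trans_lt d1),
            lt_min g2 ((le_max_right _ _).trans_lt d1), fun n hn => ?_⟩
          rcases Finset.mem_insert.1 hn with rfl | hn
          · exact (min_le_right _ _).trans_lt d2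
          · exact (min_le_left _ _).trans_lt (g3 n hn)
      exact key _ fun n hn => (Finset.mem_Icc.1 hn).1
    obtain ⟨γ, g1, g2, g3⟩ := hfin
    have h1 : min β γ ≤ betaStar := le_betaStar (le_min hβ0 g2.le) fun n hn => by
      rcases le_total n₀ n with hle | hle
      · exact (min_le_left _ _).trans_lt (h n hle hn)
      · exact (min_le_right _ _).trans_lt (g3 n (Finset.mem_Icc.2 ⟨hn, hle⟩))
    exact absurd h1 (not_le.2 (lt_min ((le_max_left _ _).trans_lt hβ1) g1))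
  · exact Or.inl (le_antisymm OQU.betaStar_le hge)

end Pool.Agent.HLA
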