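import Mathlib

set_option autoImplicit false

/-!
# Häggkvist's constant: definitions

The edges of `K_{n,n}` are the pairs `(i, j)` of `Fin n × Fin n`, the colours are `Fin n`.
-/

namespace Pool.Agent.HLA

open Finset

/-- A colouring of the edges `(i, j)` of `K_{n,n}` with colours in `Fin n` is proper if any two
different edges sharing a vertex get different colours. -/
def IsProper {n : ℕ} (f : Fin n → Fin n → Fin n) : Prop :=
  (∀ i j j', j ≠ j' → f i j ≠ f i j') ∧ (∀ j i i', i ≠ i' → f i j ≠ f i' j)

/-- A list assignment `L` (the set `L i j` is the set of colours forbidden on the edge `(i, j)`)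
is `β`-sparse. -/
def Sparse (β : ℝ) {n : ℕ} (L : Fin n → Fin n → Finset (Fin n)) : Prop :=
  (∀ i j, ((L i j).card : ℝ) ≤ β * n) ∧
  (∀ i c, ((univ.filter fun j => c ∈ L i j).card : ℝ) ≤ β * n) ∧
  (∀ j c, ((univ.filter fun i => c ∈ L i j).card : ℝ) ≤ β * n)

/-- A list assignment is avoidable if some proper `n`-edge colouring gives every edge a colour
that is not forbidden on it. -/
def Avoidable {n : ℕ} (L : Fin n → Fin n → Finset (Fin n)) : Prop :=
  ∃ f : Fin n → Fin n → Fin n, IsProper f ∧ ∀ i j, f i j ∉ L i j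

/-- Häggkvist's constant `β*`. -/
noncomputable def betaStar : ℝ :=
  sSup {β : ℝ | 0 ≤ β ∧ ∀ n : ℕ, 1 ≤ n → ∀ L : Fin n → Fin n → Finset (Fin n),
    Sparse β L → Avoidable L}

/-- The asymptotic version of Häggkvist's constant: the supremum of all `β ≥ 0` such that every
`β`-sparse list assignment for `K_{n,n}` is avoidable for all large `n`. -/
noncomputable def betaInf : ℝ :=
  sSup {β : ℝ | 0 ≤ β ∧ ∃ n₀ : ℕ, ∀ n : ℕ, n₀ ≤ n → ∀ L : Fin n → Fin n → Finset (Fin n),
    Sparse β L → Avoidable L}

/-- all lists have at most `m` colours, every colour is forbidden on at most `m` edges at every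
vertex -/
def Bdd {n : ℕ} (m : ℕ) (L : Fin n → Fin n → Finset (Fin n)) : Prop :=
  (∀ i j, (L i j).card ≤ m) ∧ (∀ i c, (univ.filter fun j => c ∈ L i j).card ≤ m) ∧
  (∀ j c, (univ.filter fun i => c ∈ L i j).card ≤ m)

/-- the largest `m` for which every list assignment for `K_{n,n}` with bound `m` is avoidable -/
noncomputable def thr (n : ℕ) : ℕ :=
  sSup {m : ℕ | ∀ L : Fin n → Fin n → Finset (Fin n), Bdd m L → Avoidable L}

end Pool.Agent.HLA
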