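import Pool.Agent.HLA.HDefs

set_option autoImplicit false

/-!
# The upper bound: unavoidable list assignments with all counts at most `⌊n/4⌋ + 1`

Rows, columns and colours are split into four classes indexed by the group `(ℤ/2)²`; colour `c` is
forbidden on the edge `(i, j)` if the three classes have sum `0`. The parity of the number of
edges with a forbidden colour is the same for all proper colourings, and it is odd for suitable
class sizes.
-/

open Finset

namespace Pool.Agent.HLA.OQU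

section parity

variable {n : ℕ} (f : Fin n → Fin n → Fin n) (hf : IsProper f)

include hf

lemma bij_row (i : Fin n) : Function.Bijective (f i) :=
  Finite.injective_iff_bijective.mp fun j j' h => by
    by_contra hne
    exact hf.1 i j j' hne h

lemma bij_col (j : Fin n) : Function.Bijective (fun i => f i j) :=
  Finite.injective_iff_bijective.mp fun i i' h => by
    by_contra hne
    exact hf.2 j i i' hne h

lemma sum_row (i : Fin n) (k : Fin n → ZMod 2) : ∑ j, k (f i j) = ∑ c, k c :=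
  (bij_row f hf i).sum_comp k

lemma sum_col (j : Fin n) (k : Fin n → ZMod 2) : ∑ i, k (f i j) = ∑ c, k c :=
  (bij_col f hf j).sum_comp k

/-- the parity of the number of forbidden edges does not depend on the proper colouring -/
lemma parity (X Y Z : Fin n → ZMod 2 × ZMod 2) :
    ∑ i, ∑ j, (1 + (X i).1 + (Y j).1 + (Z (f i j)).1) * (1 + (X i).2 + (Y j).2 + (Z (f i j)).2)
      = (n : ZMod 2) * n
        + n * (∑ i, ((X i).1 + (X i).2 + (X i).1 * (X i).2))
        + n * (∑ j, ((Y j).1 + (Y j).2 + (Y j).1 * (Y j).2))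
        + n * (∑ c, ((Z c).1 + (Z c).2 + (Z c).1 * (Z c).2))
        + (∑ i, (X i).1) * (∑ j, (Y j).2) + (∑ i, (X i).2) * (∑ j, (Y j).1)
        + (∑ i, (X i).1) * (∑ c, (Z c).2) + (∑ i, (X i).2) * (∑ c, (Z c).1)
        + (∑ j, (Y j).1) * (∑ c, (Z c).2) + (∑ j, (Y j).2) * (∑ c, (Z c).1) := by
  have h1 : ∀ i j, (1 + (X i).1 + (Y j).1 + (Z (f i j)).1) *
      (1 + (X i).2 + (Y j).2 + (Z (f i j)).2)
      = 1 + ((X i).1 + (X i).2 + (X i).1 * (X i).2)
        + ((Y j).1 + (Y j).2 + (Y j).1 * (Y j).2)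
        + ((Z (f i j)).1 + (Z (f i j)).2 + (Z (f i j)).1 * (Z (f i j)).2)
        + (X i).1 * (Y j).2 + (X i).2 * (Y j).1
        + (X i).1 * (Z (f i j)).2 + (X i).2 * (Z (f i j)).1
        + (Y j).1 * (Z (f i j)).2 + (Y j).2 * (Z (f i j)).1 := fun i j => by ring
  simp_rw [h1, Finset.sum_add_distrib]
  have hc : ∀ g : Fin n → ZMod 2, ∑ i, ∑ _j : Fin n, g i = n * ∑ i, g i := fun g => by
    simp [Finset.mul_sum]
  have hd : ∀ g : Fin n → ZMod 2, ∑ _i : Fin n, ∑ j : Fin n, g j = n * ∑ i, g i := fun g => by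
    simp
  have he : ∀ g : Fin n → ZMod 2, ∑ i : Fin n, ∑ j : Fin n, g (f i j) = n * ∑ i, g i :=
    fun g => by
      simp [sum_row f hf _ g]
  have hxy : ∀ g h : Fin n → ZMod 2, ∑ i, ∑ j, g i * h j = (∑ i, g i) * ∑ j, h j :=
    fun g h => (Finset.sum_mul_sum _ _ _ _).symm
  have hxz : ∀ g h : Fin n → ZMod 2, ∑ i, ∑ j, g i * h (f i j) = (∑ i, g i) * ∑ j, h j :=
    fun g h => by
      simp_rw [← Finset.mul_sum, sum_row f hf _ h, ← Finset.sum_mul]
  have hyz : ∀ g h : Fin n → ZMod 2, ∑ i, ∑ j, g j * h (f i j) = (∑ i, g i) * ∑ j, h j :=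
    fun g h => by
      rw [Finset.sum_comm]
      simp_rw [← Finset.mul_sum, sum_col f hf _ h, ← Finset.sum_mul]
  have a1 := hc (fun i => (X i).1)
  have a2 := hc (fun i => (X i).2)
  have a3 := hc (fun i => (X i).1 * (X i).2)
  have b1 := hd (fun i => (Y i).1)
  have b2 := hd (fun i => (Y i).2)
  have b3 := hd (fun i => (Y i).1 * (Y i).2)
  have c1 := he (fun i => (Z i).1)
  have c2 := he (fun i => (Z i).2)
  have c3 := he (fun i => (Z i).1 * (Z i).2)
  have d1 := hxy (fun i => (X i).1) (fun i => (Y i).2)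
  have d2 := hxy (fun i => (X i).2) (fun i => (Y i).1)
  have d3 := hxz (fun i => (X i).1) (fun i => (Z i).2)
  have d4 := hxz (fun i => (X i).2) (fun i => (Z i).1)
  have d5 := hyz (fun i => (Y i).1) (fun i => (Z i).2)
  have d6 := hyz (fun i => (Y i).2) (fun i => (Z i).1)
  simp only at a1 a2 a3 b1 b2 b3 c1 c2 c3 d1 d2 d3 d4 d5 d6
  rw [a1, a2, a3, b1, b2, b3, c1, c2, c3, d1, d2, d3, d4, d5, d6]
  simp only [Finset.sum_const, Finset.card_univ, Fintype.card_fin, nsmul_eq_mul, mul_one]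
  ring

end parity

/-- maps with prescribed fibre sizes -/
lemma exists_cls {n : ℕ} (s : ZMod 2 × ZMod 2 → ℕ) (hs : ∑ k, s k = n) :
    ∃ X : Fin n → ZMod 2 × ZMod 2, ∀ k, (univ.filter fun i => X i = k).card = s k := by
  classical
  have hcard : Fintype.card (Σ k : ZMod 2 × ZMod 2, Fin (s k)) = n := by
    rw [Fintype.card_sigma]
    simpa using hs
  let e := (Fintype.equivFinOfCardEq hcard).symm
  refine ⟨fun i => (e i).1, fun k => ?_⟩
  have : (univ.filter fun i => (e i).1 = k).card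
      = (univ.filter fun p : (Σ k : ZMod 2 × ZMod 2, Fin (s k)) => p.1 = k).card := by
    refine Finset.card_bij (fun i _ => e i) ?_ ?_ ?_
    · intro i hi
      simpa using hi
    · intro i _ j _ h
      exact e.injective h
    · intro p hp
      refine ⟨e.symm p, ?_, by simp⟩
      simpa using hp
  rw [this]
  have : (univ.filter fun p : (Σ k : ZMod 2 × ZMod 2, Fin (s k)) => p.1 = k)
      = (univ : Finset (Fin (s k))).map ⟨fun x => ⟨k, x⟩, fun x y h => by simpa using h⟩ := by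
    ext ⟨a, x⟩
    simp only [mem_filter, mem_univ, true_and, mem_map, Function.Embedding.coeFn_mk]
    constructor
    · rintro rfl
      exact ⟨x, rfl⟩
    · rintro ⟨y, hy⟩
      exact (Sigma.mk.inj_iff.mp hy).1.symm
  rw [this, card_map, card_univ, Fintype.card_fin]

lemma sum_cls {n : ℕ} {s : ZMod 2 × ZMod 2 → ℕ} {X : Fin n → ZMod 2 × ZMod 2}
    (hX : ∀ k, (univ.filter fun i => X i = k).card = s k) (g : ZMod 2 × ZMod 2 → ZMod 2) :
    ∑ i, g (X i) = ∑ k, (s k : ZMod 2) * g k := by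
  rw [← Finset.sum_fiberwise univ X]
  refine Finset.sum_congr rfl fun k _ => ?_
  rw [Finset.sum_congr rfl (g := fun _ => g k)]
  · simp [hX]
  · intro i hi
    rw [(Finset.mem_filter.mp hi).2]

/-- the sum over the four classes -/
lemma sum4 (g : ZMod 2 × ZMod 2 → ZMod 2) :
    ∑ k, g k = g (0, 0) + g (1, 0) + g (0, 1) + g (1, 1) := by
  rw [Fintype.sum_prod_type]
  change ∑ x : Fin 2, ∑ y : Fin 2, g (x, y) = _
  rw [Fin.sum_univ_two, Fin.sum_univ_two, Fin.sum_univ_two]
  change (g (0, 0) + g (0, 1)) + (g (1, 0) + g (1, 1)) = _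
  ring

lemma sum4' (g : ZMod 2 × ZMod 2 → ℕ) :
    ∑ k, g k = g (0, 0) + g (1, 0) + g (0, 1) + g (1, 1) := by
  rw [Fintype.sum_prod_type]
  change ∑ x : Fin 2, ∑ y : Fin 2, g (x, y) = _
  rw [Fin.sum_univ_two, Fin.sum_univ_two, Fin.sum_univ_two]
  change (g (0, 0) + g (0, 1)) + (g (1, 0) + g (1, 1)) = _
  ring

/-- class sizes -/
def sz (a b c d : ℕ) : ZMod 2 × ZMod 2 → ℕ := fun k =>
  if k = (0, 0) then a else if k = (1, 0) then b else if k = (0, 1) then c else d

lemma sz_le {a b c d m : ℕ} (ha : a ≤ m) (hb : b ≤ m) (hc : c ≤ m) (hd : d ≤ m)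
    (k : ZMod 2 × ZMod 2) : sz a b c d k ≤ m := by
  unfold sz
  split_ifs <;> assumption

lemma sz_sum (a b c d : ℕ) : ∑ k, sz a b c d k = a + b + c + d := by
  rw [sum4']
  simp [sz]

/-- the value of the parity -/
def par (n : ZMod 2) (_a b c d _a' b' c' d' _a'' b'' c'' d'' : ZMod 2) : ZMod 2 :=
  n * n + n * (b + c + d + d + d) + n * (b' + c' + d' + d' + d') + n * (b'' + c'' + d'' + d'' + d'')
    + (b + d) * (c' + d') + (c + d) * (b' + d') + (b + d) * (c'' + d'') + (c + d) * (b'' + d'')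
    + (b' + d') * (c'' + d'') + (c' + d') * (b'' + d'')

lemma unavoidable {n m : ℕ} (a b c d a' b' c' d' a'' b'' c'' d'' : ℕ)
    (h : a + b + c + d = n) (h' : a' + b' + c' + d' = n) (h'' : a'' + b'' + c'' + d'' = n)
    (hm : a ≤ m ∧ b ≤ m ∧ c ≤ m ∧ d ≤ m) (hm' : a' ≤ m ∧ b' ≤ m ∧ c' ≤ m ∧ d' ≤ m)
    (hm'' : a'' ≤ m ∧ b'' ≤ m ∧ c'' ≤ m ∧ d'' ≤ m)
    (hp : par n a b c d a' b' c' d' a'' b'' c'' d'' = 1) :
    ∃ L : Fin n → Fin n → Finset (Fin n),
      (∀ i j, (L i j).card ≤ m) ∧ (∀ i c, (univ.filter fun j => c ∈ L i j).card ≤ m) ∧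
      (∀ j c, (univ.filter fun i => c ∈ L i j).card ≤ m) ∧ ¬ Avoidable L := by
  obtain ⟨X, hX⟩ := exists_cls (sz a b c d) ((sz_sum a b c d).trans h)
  obtain ⟨Y, hY⟩ := exists_cls (sz a' b' c' d') ((sz_sum a' b' c' d').trans h')
  obtain ⟨Z, hZ⟩ := exists_cls (sz a'' b'' c'' d'') ((sz_sum a'' b'' c'' d'').trans h'')
  refine ⟨fun i j => univ.filter fun z => Z z = - (X i + Y j), ?_, ?_, ?_, ?_⟩
  · intro i j
    rw [hZ]
    exact sz_le hm''.1 hm''.2.1 hm''.2.2.1 hm''.2.2.2 _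
  · intro i z
    have : (univ.filter fun j => z ∈ univ.filter fun z => Z z = - (X i + Y j))
        = univ.filter fun j => Y j = - (X i + Z z) := by
      ext j
      simp only [mem_filter, mem_univ, true_and]
      constructor
      · intro h; rw [h]; abel
      · intro h; rw [h]; abel
    rw [this, hY]
    exact sz_le hm'.1 hm'.2.1 hm'.2.2.1 hm'.2.2.2 _
  · intro j z
    have : (univ.filter fun i => z ∈ univ.filter fun z => Z z = - (X i + Y j))
        = univ.filter fun i => X i = - (Y j + Z z) := by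
      ext i
      simp only [mem_filter, mem_univ, true_and]
      constructor
      · intro h; rw [h]; abel
      · intro h; rw [h]; abel
    rw [this, hX]
    exact sz_le hm.1 hm.2.1 hm.2.2.1 hm.2.2.2 _
  · rintro ⟨f, hf, hav⟩
    have key := parity f hf X Y Z
    have hzero : ∀ i j, (1 + (X i).1 + (Y j).1 + (Z (f i j)).1) *
        (1 + (X i).2 + (Y j).2 + (Z (f i j)).2) = 0 := by
      intro i j
      have h1 := hav i j
      simp only [mem_filter, mem_univ, true_and] at h1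
      have h2 : ∀ x y z : ZMod 2 × ZMod 2, z ≠ - (x + y) →
          (1 + x.1 + y.1 + z.1) * (1 + x.2 + y.2 + z.2) = 0 := by decide
      exact h2 _ _ _ h1
    simp_rw [hzero, Finset.sum_const_zero] at key
    have e1 := sum_cls hX (fun k => k.1 + k.2 + k.1 * k.2)
    have e2 := sum_cls hY (fun k => k.1 + k.2 + k.1 * k.2)
    have e3 := sum_cls hZ (fun k => k.1 + k.2 + k.1 * k.2)
    have e4 := sum_cls hX (fun k => k.1)
    have e5 := sum_cls hX (fun k => k.2)
    have e6 := sum_cls hY (fun k => k.1)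
    have e7 := sum_cls hY (fun k => k.2)
    have e8 := sum_cls hZ (fun k => k.1)
    have e9 := sum_cls hZ (fun k => k.2)
    rw [sum4] at e1 e2 e3 e4 e5 e6 e7 e8 e9
    have k1 : ((1 : ZMod 2), (0 : ZMod 2)) ≠ (0, 0) := by decide
    have k2 : ((0 : ZMod 2), (1 : ZMod 2)) ≠ (0, 0) := by decide
    have k3 : ((0 : ZMod 2), (1 : ZMod 2)) ≠ (1, 0) := by decide
    have k4 : ((1 : ZMod 2), (1 : ZMod 2)) ≠ (0, 0) := by decide
    have k5 : ((1 : ZMod 2), (1 : ZMod 2)) ≠ (1, 0) := by decide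
    have k6 : ((1 : ZMod 2), (1 : ZMod 2)) ≠ (0, 1) := by decide
    simp only [sz, k1, k2, k3, k4, k5, k6, if_true, if_false, mul_zero, mul_one, add_zero,
      zero_add] at e1 e2 e3 e4 e5 e6 e7 e8 e9
    rw [e1, e2, e3, e4, e5, e6, e7, e8, e9] at key
    have hp2 : par n a b c d a' b' c' d' a'' b'' c'' d'' = 0 := by
      rw [key, par]
      ring
    rw [hp2] at hp
    exact absurd hp (by decide)

lemma exists_unavoidable (n : ℕ) (hn : 1 ≤ n) :
    ∃ L : Fin n → Fin n → Finset (Fin n),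
      (∀ i j, (L i j).card ≤ n / 4 + 1) ∧
      (∀ i c, (univ.filter fun j => c ∈ L i j).card ≤ n / 4 + 1) ∧
      (∀ j c, (univ.filter fun i => c ∈ L i j).card ≤ n / 4 + 1) ∧ ¬ Avoidable L := by
  obtain ⟨t, r, hr, rfl⟩ : ∃ t r, r < 4 ∧ n = 4 * t + r :=
    ⟨n / 4, n % 4, Nat.mod_lt _ (by norm_num), by omega⟩
  have hq : (4 * t + r) / 4 = t := by omega
  rw [hq]
  have hcast : ∀ s : ℕ, ((4 * s : ℕ) : ZMod 2) = 0 := fun s => by
    push_cast
    rw [show (4 : ZMod 2) = 0 from by decide, zero_mul]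
  interval_cases r
  · -- n = 4 t
    obtain ⟨u, rfl⟩ : ∃ u, t = u + 1 := ⟨t - 1, by omega⟩
    refine unavoidable (u + 1 + 1) u (u + 1) (u + 1) (u + 1 + 1) (u + 1) u (u + 1)
      (u + 1) (u + 1) (u + 1) (u + 1) (by ring) (by ring) (by ring)
      (by omega) (by omega) (by omega) ?_
    push_cast
    generalize (u : ZMod 2) = ρ
    revert ρ
    decide
  · rcases Nat.even_or_odd' t with ⟨u, rfl | rfl⟩
    · refine unavoidable (2 * u + 1) (2 * u) (2 * u) (2 * u) (2 * u + 1) (2 * u) (2 * u) (2 * u)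
        (2 * u + 1) (2 * u) (2 * u) (2 * u) (by ring) (by ring) (by ring)
        (by omega) (by omega) (by omega) ?_
      push_cast
      generalize (u : ZMod 2) = ρ
      revert ρ
      decide
    · refine unavoidable (2 * u + 1) (2 * u + 1) (2 * u + 1) (2 * u + 1 + 1)
        (2 * u + 1) (2 * u + 1) (2 * u + 1) (2 * u + 1 + 1)
        (2 * u + 1) (2 * u + 1) (2 * u + 1) (2 * u + 1 + 1) (by ring) (by ring) (by ring)
        (by omega) (by omega) (by omega) ?_
      push_cast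
      generalize (u : ZMod 2) = ρ
      revert ρ
      decide
  · refine unavoidable (t + 1) (t + 1) t t (t + 1) t (t + 1) t (t + 1) t t (t + 1)
      (by ring) (by ring) (by ring) (by omega) (by omega) (by omega) ?_
    push_cast
    generalize (t : ZMod 2) = ρ
    revert ρ
    decide
  · rcases Nat.even_or_odd' t with ⟨u, rfl | rfl⟩
    · refine unavoidable (2 * u + 1) (2 * u + 1) (2 * u + 1) (2 * u)
        (2 * u + 1) (2 * u + 1) (2 * u + 1) (2 * u)
        (2 * u + 1) (2 * u + 1) (2 * u + 1) (2 * u) (by ring) (by ring) (by ring)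
        (by omega) (by omega) (by omega) ?_
      push_cast
      generalize (u : ZMod 2) = ρ
      revert ρ
      decide
    · refine unavoidable (2 * u + 1) (2 * u + 1 + 1) (2 * u + 1 + 1) (2 * u + 1 + 1)
        (2 * u + 1) (2 * u + 1 + 1) (2 * u + 1 + 1) (2 * u + 1 + 1)
        (2 * u + 1) (2 * u + 1 + 1) (2 * u + 1 + 1) (2 * u + 1 + 1)
        (by ring) (by ring) (by ring) (by omega) (by omega) (by omega) ?_
      push_cast
      generalize (u : ZMod 2) = ρ
      revert ρ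
      decide

lemma exists_sparse {β : ℝ} (n : ℕ) (hn : 1 ≤ n) (h : 1 ≤ (β - 1 / 4) * n) :
    ∃ L : Fin n → Fin n → Finset (Fin n), Sparse β L ∧ ¬ Avoidable L := by
  obtain ⟨L, h1, h2, h3, h4⟩ := exists_unavoidable n hn
  have h5 : ((n / 4 + 1 : ℕ) : ℝ) ≤ β * n := by
    have : ((n / 4 : ℕ) : ℝ) ≤ n / 4 := Nat.cast_div_le
    push_cast
    linarith
  refine ⟨L, ⟨fun i j => ?_, fun i c => ?_, fun j c => ?_⟩, h4⟩
  · exact (Nat.cast_le.mpr (h1 i j)).trans h5
  · exact (Nat.cast_le.mpr (h2 i c)).trans h5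
  · exact (Nat.cast_le.mpr (h3 j c)).trans h5

lemma exists_third (n : ℕ) (hn : 9 ≤ n) :
    ∃ L : Fin n → Fin n → Finset (Fin n), Sparse (1 / 3) L ∧ ¬ Avoidable L := by
  obtain ⟨L, h1, h2, h3, h4⟩ := exists_unavoidable n (by omega)
  have h5 : ((n / 4 + 1 : ℕ) : ℝ) ≤ 1 / 3 * n := by
    have : 3 * (n / 4 + 1) ≤ n := by omega
    have : ((3 * (n / 4 + 1) : ℕ) : ℝ) ≤ n := by exact_mod_cast this
    push_cast at this ⊢
    linarith
  refine ⟨L, ⟨fun i j => ?_, fun i c => ?_, fun j c => ?_⟩, h4⟩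
  · exact (Nat.cast_le.mpr (h1 i j)).trans h5
  · exact (Nat.cast_le.mpr (h2 i c)).trans h5
  · exact (Nat.cast_le.mpr (h3 j c)).trans h5

theorem betaStar_le : betaStar ≤ 1 / 4 := by
  refine Real.sSup_le ?_ (by norm_num)
  rintro β ⟨_, hβ⟩
  by_contra hlt
  rw [not_le] at hlt
  have hpos : 0 < β - 1 / 4 := by linarith
  obtain ⟨n, hn⟩ := exists_nat_ge (1 / (β - 1 / 4))
  have hn1 : 1 ≤ n := by
    have : (0 : ℝ) < n := lt_of_lt_of_le (by positivity) hn
    exact_mod_cast this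
  have h1 : 1 ≤ (β - 1 / 4) * n := by
    have := (div_le_iff₀ hpos).mp hn
    linarith
  obtain ⟨L, hL, hna⟩ := exists_sparse n hn1 h1
  exact hna (hβ n hn1 L hL)

end Pool.Agent.HLA.OQU
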