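import Pool.Agent.HLA.EEB

/-! Rotation of the coordinates. -/

set_option autoImplicit false

namespace Pool.Agent.HLA

open Finset Pool.Agent.ChPi

variable {α : Type} [Fintype α] [DecidableEq α] [Nonempty α]

theorem rotF_lines {F : α → α → α → Bool} (h : Lines F) : Lines (rotF F) :=
  ⟨fun x y => h.yz x y, fun x z => h.xy z x, fun y z => h.xz z y⟩

theorem rotF_dD (F : α → α → α → Bool) : dD (rotF F) = dD F := by
  unfold dD rotF
  congr 2
  rw [Finset.sum_comm]
  have h1 : ∀ b ∈ (Finset.univ : Finset α), ∑ a, ∑ c, bit (F c a b) = ∑ c, ∑ a, bit (F c a b) :=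
    fun b _ => Finset.sum_comm
  rw [Finset.sum_congr rfl h1, Finset.sum_comm]
  exact Finset.sum_congr rfl fun c _ => Finset.sum_comm

theorem rotF_dX (F : α → α → α → Bool) (a : α) : dX (rotF F) a = dY F a := by
  unfold dX dY rotF
  rw [Finset.sum_comm]

theorem rotF_dY (F : α → α → α → Bool) (b : α) : dY (rotF F) b = dZ F b := by
  unfold dY dZ rotF
  rw [Finset.sum_comm]

theorem rotF_dZ (F : α → α → α → Bool) (c : α) : dZ (rotF F) c = dX F c := rfl

/-- the expectation does not depend on the names of the coordinates -/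
theorem Ex_rename {V V' Ω : Type} [Fintype V] [DecidableEq V] [Fintype V'] [DecidableEq V']
    [Fintype Ω] (e : V' ≃ V) (p : V → Ω → ℝ) (g : (V → Ω) → ℝ) :
    Ex (fun x => p (e x)) (fun ω => g (fun v => ω (e.symm v))) = Ex p g := by
  unfold Ex
  refine Fintype.sum_equiv (Equiv.arrowCongr e (Equiv.refl Ω)) _ _ fun ω => ?_
  have h1 : (Equiv.arrowCongr e (Equiv.refl Ω)) ω = fun v => ω (e.symm v) := by
    funext v
    simp [Equiv.arrowCongr]
  rw [h1]
  congr 1
  unfold wt
  refine Fintype.prod_equiv e _ _ fun x => ?_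
  simp

/-- the rotation of the seven coordinates -/
def e7 : Fin 7 ≃ Fin 7 where
  toFun := ![1, 2, 0, 4, 5, 3, 6]
  invFun := ![2, 0, 1, 5, 3, 4, 6]
  left_inv := by decide
  right_inv := by decide

theorem pp_rot (F : α → α → α → Bool) (t : ℝ) (x y z : α) (i : Fin 7) :
    pp (rotF F) t y z x i = pp F t x y z (e7 i) := by
  funext o
  fin_cases i
  · show lw (dX (rotF F) o.1) o.2 / _ = lw (dY F o.1) o.2 / _
    rw [rotF_dX]
  · show lw (dY (rotF F) o.1) o.2 / _ = lw (dZ F o.1) o.2 / _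
    rw [rotF_dY]
  · show lw (dZ (rotF F) o.1) o.2 / _ = lw (dX F o.1) o.2 / _
    rw [rotF_dZ]
  · show lw (dX (rotF F) y) o.2 / _ = lw (dY F y) o.2 / _
    rw [rotF_dX]
  · show lw (dY (rotF F) z) o.2 / _ = lw (dZ F z) o.2 / _
    rw [rotF_dY]
  · show lw (dZ (rotF F) x) o.2 / _ = lw (dX F x) o.2 / _
    rw [rotF_dZ]
  · rfl

theorem pat_rot (F : α → α → α → Bool) (x y z : α) (ω : Fin 7 → α × Bool) :
    pat F x y z (fun v => ω (e7.symm v)) ∘ r0 = pat (rotF F) y z x ω := by
  funext i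
  fin_cases i <;> rfl

/-- the expectation of a function of the rotated pattern -/
theorem EE_rot (F : α → α → α → Bool) (t : ℝ) (x y z : α) (f : (Fin 15 → Bool) → ℝ) :
    EE F t x y z (fun P => f (P ∘ r0)) = EE (rotF F) t y z x f := by
  unfold EE
  rw [← Ex_rename e7 (pp F t x y z) (fun ω => f (pat F x y z ω ∘ r0))]
  have h1 : (fun i => pp F t x y z (e7 i)) = pp (rotF F) t y z x := by
    funext i
    exact (pp_rot F t x y z i).symm
  rw [h1]
  simp only [pat_rot]

end Pool.Agent.HLA
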