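import Pool.Agent.HLA.ENC
import Pool.Agent.HLA.F156
import Pool.Agent.HLA.F23
import Pool.Agent.HLA.F4

/-! The expectation of the sum `T` of the multipliers is nonnegative. -/

set_option autoImplicit false

namespace Pool.Agent.HLA

open Finset Pool.Agent.ChPi

/-- the function `T` of the pattern -/
noncomputable def TT (A : Tabs) (P : Fin 15 → Bool) : ℝ :=
  (A.pT (enc P) : ℝ) - (A.nT (enc P) : ℝ)

theorem bit_bn (P : Fin 15 → Bool) (i : Fin 15) : bit (P i) = (bn P i : ℝ) := by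
  unfold bit bn; split_ifs <;> simp

theorem bn_congr {P Q : Fin 15 → Bool} {i : Fin 15} (h : P i = Q i) : bn P i = bn Q i := by
  unfold bn; rw [h]

theorem iP_enc (P : Fin 15 → Bool) : iP (enc P) =
    bn P 0 + 2 * bn P 1 + 4 * bn P 2 + 8 * bn P 4 + 16 * bn P 10 + 32 * bn P 14 := by
  unfold iP; rw [enc_mod8, bt4, bt10, bt14]

theorem iQ_enc (P : Fin 15 → Bool) : iQ (enc P) =
    bn P 0 + 2 * bn P 1 + 4 * bn P 2 + 8 * bn P 3 + 16 * bn P 4 + 32 * bn P 10 := by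
  unfold iQ; rw [enc_mod32, bt10]

theorem iG_enc (P : Fin 15 → Bool) : iG (enc P) =
    bn P 0 + 2 * bn P 1 + 4 * bn P 2 + 8 * bn P 3 +
      16 * (bn P 5 + 2 * bn P 6 + 4 * bn P 7 + 8 * bn P 8 + 16 * bn P 9) := by
  unfold iG; rw [enc_mod16, enc_div32]

theorem dep_P (T : ℕ) : Dep {0, 1, 2, 4, 10, 14} (fun P => (fld T (iP (enc P)) : ℝ)) := by
  intro P Q h
  have e : iP (enc P) = iP (enc Q) := by
    rw [iP_enc, iP_enc, bn_congr (h 0 (by decide)), bn_congr (h 1 (by decide)),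
      bn_congr (h 2 (by decide)), bn_congr (h 4 (by decide)), bn_congr (h 10 (by decide)),
      bn_congr (h 14 (by decide))]
  simp only [e]

theorem dep_Q (T : ℕ) : Dep {0, 1, 2, 3, 4, 10} (fun P => (fld T (iQ (enc P)) : ℝ)) := by
  intro P Q h
  have e : iQ (enc P) = iQ (enc Q) := by
    rw [iQ_enc, iQ_enc, bn_congr (h 0 (by decide)), bn_congr (h 1 (by decide)),
      bn_congr (h 2 (by decide)), bn_congr (h 3 (by decide)), bn_congr (h 4 (by decide)),
      bn_congr (h 10 (by decide))]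
  simp only [e]

theorem dep_G (T : ℕ) : Dep {0, 1, 2, 3, 5, 6, 7, 8, 9} (fun P => (fld T (iG (enc P)) : ℝ)) := by
  intro P Q h
  have e : iG (enc P) = iG (enc Q) := by
    rw [iG_enc, iG_enc, bn_congr (h 0 (by decide)), bn_congr (h 1 (by decide)),
      bn_congr (h 2 (by decide)), bn_congr (h 3 (by decide)), bn_congr (h 5 (by decide)),
      bn_congr (h 6 (by decide)), bn_congr (h 7 (by decide)), bn_congr (h 8 (by decide)),
      bn_congr (h 9 (by decide))]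
  simp only [e]

theorem dep_L (T : ℕ) : Dep {0, 1, 2, 3, 4, 5, 6, 7, 8, 9}
    (fun P => (fld T (enc P % 1024) : ℝ)) := by
  intro P Q h
  have e : enc P % 1024 = enc Q % 1024 := by
    rw [enc_mod1024, enc_mod1024, bn_congr (h 0 (by decide)), bn_congr (h 1 (by decide)),
      bn_congr (h 2 (by decide)), bn_congr (h 3 (by decide)), bn_congr (h 4 (by decide)),
      bn_congr (h 5 (by decide)), bn_congr (h 6 (by decide)), bn_congr (h 7 (by decide)),
      bn_congr (h 8 (by decide)), bn_congr (h 9 (by decide))]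
  simp only [e]

theorem dep_5 (T k : ℕ) : Dep {0, 1, 2, 3, 4, 5, 6}
    (fun P => (fld T (k + enc P % 128) : ℝ)) := by
  intro P Q h
  have e : enc P % 128 = enc Q % 128 := by
    rw [enc_mod128, enc_mod128, bn_congr (h 0 (by decide)), bn_congr (h 1 (by decide)),
      bn_congr (h 2 (by decide)), bn_congr (h 3 (by decide)), bn_congr (h 4 (by decide)),
      bn_congr (h 5 (by decide)), bn_congr (h 6 (by decide))]
  simp only [e]

theorem dep_6 (T : ℕ) : Dep {0, 1, 2, 3, 4} (fun P => (fld T (enc P % 32) : ℝ)) := by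
  intro P Q h
  have e : enc P % 32 = enc Q % 32 := by
    rw [enc_mod32, enc_mod32, bn_congr (h 0 (by decide)), bn_congr (h 1 (by decide)),
      bn_congr (h 2 (by decide)), bn_congr (h 3 (by decide)), bn_congr (h 4 (by decide))]
  simp only [e]

theorem bn_cases (P : Fin 15 → Bool) (i : Fin 15) : bn P i = 0 ∨ bn P i = 1 := by
  have := bn_le P i; omega

variable {α : Type} [Fintype α] [DecidableEq α] [Nonempty α]

theorem term_L {F : α → α → α → Bool} (h : Lines F) {t : ℝ} (ht : 0 ≤ t) (ht1 : t ≤ 1)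
    (x y z : α) (A : Tabs) (q : ℕ) (r : Fin 15)
    (hr' : r ∈ ({10, 11, 12, 13} : Finset (Fin 15)))
    (hb : ∀ P, bt (enc P) (10 + q) = bn P r) :
    0 ≤ EE F t x y z fun P => ((A.pL (enc P) q : ℝ) - (A.nL (enc P) q : ℝ)) := by
  have h1 := F1 h ht ht1 x y z (fun P => (fld (A.cL q) (enc P % 1024) : ℝ))
    (fun P => Nat.cast_nonneg _) (dep_L (A.cL q)) r hr'
  refine h1.trans_eq ?_
  congr 1
  funext P
  unfold Tabs.pL Tabs.nL
  rw [hb, bit_bn]
  rcases bn_cases P r with e | e <;> rw [e] <;> push_cast <;> ring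

theorem term_P {F : α → α → α → Bool} (h : Lines F) {t : ℝ} (ht : 0 ≤ t) (ht1 : t ≤ 1)
    (x y z : α) (A : Tabs) :
    0 ≤ EE F t x y z fun P => ((A.pP (enc P) : ℝ) - (A.nP (enc P) : ℝ)) := by
  have d1 : Dep {0, 1, 2, 4, 10, 14} (fun P => ((fld A.cP (iP (enc P)) : ℝ) - (off : ℝ))) := by
    intro P Q hPQ
    have := dep_P A.cP P Q hPQ
    simp only at this ⊢
    rw [this]
  have h1 := F2 (F := F) t x y z (fun P => ((fld A.cP (iP (enc P)) : ℝ) - (off : ℝ))) d1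
  have h2 := F2' h ht ht1 x y z (fun P => (fld A.cP2 (iP (enc P)) : ℝ))
    (fun P => Nat.cast_nonneg _) (dep_P A.cP2)
  have h3 : EE F t x y z (fun P => ((A.pP (enc P) : ℝ) - (A.nP (enc P) : ℝ))) =
      EE F t x y z (fun P => ((fld A.cP (iP (enc P)) : ℝ) - (off : ℝ)) *
        (4 * bit (P 8) - bit (P 3))) +
      EE F t x y z (fun P => - (bit (P 3) * (fld A.cP2 (iP (enc P)) : ℝ) *
        (4 * bit (P 8) - 1))) := by
    rw [← EE_add]
    congr 1
    funext P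
    unfold Tabs.pP Tabs.nP
    rw [bt3, bt8, bit_bn, bit_bn]
    rcases bn_cases P 8 with e | e <;> rcases bn_cases P 3 with e' | e' <;> rw [e, e'] <;>
      push_cast <;> ring
  rw [h3, h1, zero_add]
  exact h2

theorem term_Q {F : α → α → α → Bool} (h : Lines F) {t : ℝ} (ht : 0 ≤ t) (ht1 : t ≤ 1)
    (x y z : α) (A : Tabs) :
    0 ≤ EE F t x y z fun P => ((A.pQ (enc P) : ℝ) - (A.nQ (enc P) : ℝ)) := by
  have d1 : Dep {0, 1, 2, 3, 4, 10} (fun P => ((fld A.cQ (iQ (enc P)) : ℝ) - (off : ℝ))) := by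
    intro P Q hPQ
    have := dep_Q A.cQ P Q hPQ
    simp only at this ⊢
    rw [this]
  have h1 := F3 (F := F) t x y z (fun P => ((fld A.cQ (iQ (enc P)) : ℝ) - (off : ℝ))) d1
  have h2 := F3' h ht ht1 x y z (fun P => (fld A.cQ2 (iQ (enc P)) : ℝ))
    (fun P => Nat.cast_nonneg _) (dep_Q A.cQ2)
  have h3 : EE F t x y z (fun P => ((A.pQ (enc P) : ℝ) - (A.nQ (enc P) : ℝ))) =
      EE F t x y z (fun P => ((fld A.cQ (iQ (enc P)) : ℝ) - (off : ℝ)) *
        (4 * bit (P 13) - bit (P 14))) +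
      EE F t x y z (fun P => - (bit (P 14) * (fld A.cQ2 (iQ (enc P)) : ℝ) *
        (4 * bit (P 13) - 1))) := by
    rw [← EE_add]
    congr 1
    funext P
    unfold Tabs.pQ Tabs.nQ
    rw [bt13, bt14, bit_bn, bit_bn]
    rcases bn_cases P 13 with e | e <;> rcases bn_cases P 14 with e' | e' <;> rw [e, e'] <;>
      push_cast <;> ring
  rw [h3, h1, zero_add]
  exact h2

theorem term_G {F : α → α → α → Bool} (h : Lines F) {t : ℝ} (ht : 0 ≤ t) (ht1 : t ≤ 1)
    (x y z : α) (A : Tabs) (hD : 2 * dD F = A.d0 + t) :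
    0 ≤ EE F t x y z fun P => ((A.pG (enc P) : ℝ) - (A.nG (enc P) : ℝ)) := by
  have d1 : Dep {0, 1, 2, 3, 5, 6, 7, 8, 9}
      (fun P => ((fld A.cG (iG (enc P)) : ℝ) - (off : ℝ))) := by
    intro P Q hPQ
    have := dep_G A.cG P Q hPQ
    simp only at this ⊢
    rw [this]
  have h1 := F4 (F := F) t (A.d0 : ℝ) hD x y z
    (fun P => ((fld A.cG (iG (enc P)) : ℝ) - (off : ℝ))) d1
  have h2 := F4' h ht ht1 hD x y z (fun P => (fld A.cG2 (iG (enc P)) : ℝ))
    (fun P => Nat.cast_nonneg _) (dep_G A.cG2)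
  have h3 : EE F t x y z (fun P => ((A.pG (enc P) : ℝ) - (A.nG (enc P) : ℝ))) =
      EE F t x y z (fun P => ((fld A.cG (iG (enc P)) : ℝ) - (off : ℝ)) *
        (2 * bit (P 14) - ((A.d0 : ℝ) + bit (P 4)))) +
      EE F t x y z (fun P => - (bit (P 4) * (fld A.cG2 (iG (enc P)) : ℝ) *
        (2 * bit (P 14) - ((A.d0 : ℝ) + 1)))) := by
    rw [← EE_add]
    congr 1
    funext P
    unfold Tabs.pG Tabs.nG
    rw [bt4, bt14, bit_bn, bit_bn]
    rcases bn_cases P 4 with e | e <;> rcases bn_cases P 14 with e' | e' <;> rw [e, e'] <;>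
      push_cast <;> ring
  rw [h3, h1, zero_add]
  exact h2

theorem term_5 {F : α → α → α → Bool} (h : Lines F) {t : ℝ} (ht : 0 ≤ t) (ht1 : t ≤ 1)
    (x y z : α) (A : Tabs) (u w : ℕ) (q r : Fin 15) (hq : q = 7 ∨ q = 8) (hr : r = 10 ∨ r = 11)
    (hbq : ∀ P, bt (enc P) (7 + u) = bn P q) (hbr : ∀ P, bt (enc P) (10 + w) = bn P r) :
    0 ≤ EE F t x y z fun P => ((A.p5 (enc P) u w : ℝ) - (A.n5 (enc P) u w : ℝ)) := by
  have h1 := F5 h ht ht1 x y z (fun P => (fld A.c5 (256 * u + 128 * w + enc P % 128) : ℝ))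
    (fun P => Nat.cast_nonneg _) (dep_5 A.c5 _) q r hq hr
  refine h1.trans_eq ?_
  congr 1
  funext P
  unfold Tabs.p5 Tabs.n5
  rw [hbq, hbr, bit_bn, bit_bn]
  rcases bn_cases P q with e | e <;> rcases bn_cases P r with e' | e' <;> rw [e, e'] <;>
    push_cast <;> ring

theorem term_6 {F : α → α → α → Bool} (h : Lines F) {t : ℝ} (ht : 0 ≤ t) (ht1 : t ≤ 1)
    (x y z : α) (A : Tabs) :
    0 ≤ EE F t x y z fun P => ((A.p6 (enc P) : ℝ) - (A.n6 (enc P) : ℝ)) := by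
  have h1 := F6 h ht ht1 x y z (fun P => (fld A.c6 (enc P % 32) : ℝ))
    (fun P => Nat.cast_nonneg _) (dep_6 A.c6)
  refine h1.trans_eq ?_
  congr 1
  funext P
  unfold Tabs.p6 Tabs.n6
  rw [bt5, bt7, bt10, bit_bn, bit_bn, bit_bn]
  rcases bn_cases P 5 with e | e <;> rcases bn_cases P 7 with e' | e' <;>
    rcases bn_cases P 10 with e'' | e'' <;> rw [e, e', e''] <;> push_cast <;> ring

theorem EE_TT {F : α → α → α → Bool} (h : Lines F) {t : ℝ} (ht : 0 ≤ t) (ht1 : t ≤ 1)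
    (x y z : α) (A : Tabs) (hD : 2 * dD F = A.d0 + t) : 0 ≤ EE F t x y z (TT A) := by
  have a0 := term_L h ht ht1 x y z A 0 10 (by decide) bt10
  have a1 := term_L h ht ht1 x y z A 1 11 (by decide) bt11
  have a2 := term_L h ht ht1 x y z A 2 12 (by decide) bt12
  have a3 := term_L h ht ht1 x y z A 3 13 (by decide) bt13
  have a4 := term_P h ht ht1 x y z A
  have a5 := term_Q h ht ht1 x y z A
  have a6 := term_G h ht ht1 x y z A hD
  have a7 := term_5 h ht ht1 x y z A 0 0 7 10 (Or.inl rfl) (Or.inl rfl) bt7 bt10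
  have a8 := term_5 h ht ht1 x y z A 0 1 7 11 (Or.inl rfl) (Or.inr rfl) bt7 bt11
  have a9 := term_5 h ht ht1 x y z A 1 0 8 10 (Or.inr rfl) (Or.inl rfl) bt8 bt10
  have a10 := term_5 h ht ht1 x y z A 1 1 8 11 (Or.inr rfl) (Or.inr rfl) bt8 bt11
  have a11 := term_6 h ht ht1 x y z A
  have e : EE F t x y z (TT A) =
      (EE F t x y z fun P => ((A.pL (enc P) 0 : ℝ) - (A.nL (enc P) 0 : ℝ))) +
      ((EE F t x y z fun P => ((A.pL (enc P) 1 : ℝ) - (A.nL (enc P) 1 : ℝ))) +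
      ((EE F t x y z fun P => ((A.pL (enc P) 2 : ℝ) - (A.nL (enc P) 2 : ℝ))) +
      ((EE F t x y z fun P => ((A.pL (enc P) 3 : ℝ) - (A.nL (enc P) 3 : ℝ))) +
      ((EE F t x y z fun P => ((A.pP (enc P) : ℝ) - (A.nP (enc P) : ℝ))) +
      ((EE F t x y z fun P => ((A.pQ (enc P) : ℝ) - (A.nQ (enc P) : ℝ))) +
      ((EE F t x y z fun P => ((A.pG (enc P) : ℝ) - (A.nG (enc P) : ℝ))) +
      ((EE F t x y z fun P => ((A.p5 (enc P) 0 0 : ℝ) - (A.n5 (enc P) 0 0 : ℝ))) +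
      ((EE F t x y z fun P => ((A.p5 (enc P) 0 1 : ℝ) - (A.n5 (enc P) 0 1 : ℝ))) +
      ((EE F t x y z fun P => ((A.p5 (enc P) 1 0 : ℝ) - (A.n5 (enc P) 1 0 : ℝ))) +
      ((EE F t x y z fun P => ((A.p5 (enc P) 1 1 : ℝ) - (A.n5 (enc P) 1 1 : ℝ))) +
      (EE F t x y z fun P => ((A.p6 (enc P) : ℝ) - (A.n6 (enc P) : ℝ))))))))))))) := by
    rw [← EE_add, ← EE_add, ← EE_add, ← EE_add, ← EE_add, ← EE_add, ← EE_add, ← EE_add,
      ← EE_add, ← EE_add, ← EE_add]
    congr 1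
    funext P
    unfold TT Tabs.pT Tabs.nT
    push_cast
    ring
  rw [e]
  exact add_nonneg a0 (add_nonneg a1 (add_nonneg a2 (add_nonneg a3 (add_nonneg a4 (add_nonneg a5
    (add_nonneg a6 (add_nonneg a7 (add_nonneg a8 (add_nonneg a9 (add_nonneg a10 a11))))))))))

end Pool.Agent.HLA
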